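import Mathlib

/-!
# Definitions for the statement on powers
-/

namespace Pool.Agent.T9h42.GZ

/-- The value of a function `f` on `G × G` on the Dennis trace of an invertible matrix `A`, that is
`∑ (A⁻¹)_{ij}(g) A_{ji}(h) f(g, h)`. -/
noncomputable def dennis {R G : Type} [CommRing R] [Group G] (f : G → G → ℤ) {n : ℕ}
    (A : (Matrix (Fin n) (Fin n) (MonoidAlgebra R G))ˣ) : R :=
  ∑ i, ∑ j, ((A⁻¹).val i j).coeff.sum fun g b =>
    (A.val j i).coeff.sum fun h a => b * a * ((f g h : ℤ) : R)

/-- The condition for Hochschild `1`-cocycles. -/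
def IsCocycle {G : Type} [Group G] (f : G → G → ℤ) : Prop :=
  ∀ x y z : G, f (x * y) z - f x (y * z) + f (z * x) y = 0

/-- The pull-back `(x, y) ↦ f((x y) ^ s y⁻¹, y)` of a cocycle along the `s`-th power map. -/
def pw {G : Type} [Group G] (f : G → G → ℤ) (s : ℕ) (x y : G) : ℤ := f ((x * y) ^ s * y⁻¹) y

open Classical in
/-- The restriction of `pw f s` to the pairs with `(x y) ^ m = 1`. -/
noncomputable def pwr {G : Type} [Group G] (f : G → G → ℤ) (m s : ℕ) (x y : G) : ℤ :=
  if (x * y) ^ m = 1 then pw f s x y else 0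

end Pool.Agent.T9h42.GZ
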