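import Pool.Agent.T9h42.GZ.BtQ
import Pool.Agent.Y785.NK.Comb
import Pool.Agent.Y43.NK.Cyc

/-!
# Averaging: traces of `K₁(ℚ[G])` are traces of symbols of averaging idempotents
-/

set_option linter.unusedSectionVars false

namespace Pool.Agent.T9h42.Q

open MonoidAlgebra H970SH H842 Pool.Agent.Y69 Pool.Agent.Y69.StepC Pool.Agent.Y778.NK
  Pool.Agent.T9h42

noncomputable section

/-- the span of the symbols of the averaging idempotents -/
def AvgZ (G : Type) [Group G] : AddSubgroup (ZK ℚ G) :=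
  AddSubgroup.closure {y | ∃ (H : FinSub G) (z : Cz H.1) (D : Type) (_ : Group D) (_ : Finite D)
    (f : D →* H.1), y = ZK.of H z (GK0.map f (avgCl D))}

section theta

variable {C : Type} [CommGroup C] [Finite C]

/-- the indicator function of the generators -/
theorem exists_theta : ∃ (M : ℕ) (θ : K0 (MonoidAlgebra ℚ C)), 0 < M ∧
    (θ ∈ AddSubgroup.closure {y : K0 (MonoidAlgebra ℚ C) | ∃ (D : Type) (_ : Group D)
      (_ : Finite D) (f : D →* C), y = K0.map (mapDomainRingHom ℚ f) (avgCl D)}) ∧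
    (∀ c, Subgroup.zpowers c = ⊤ → bb ℚ θ c = M) ∧
    (∀ c, Subgroup.zpowers c ≠ ⊤ → bb ℚ θ c = 0) := by
  classical
  have := Fintype.ofFinite C
  let T0 : FinSub C := ⟨⊤, inferInstance⟩
  obtain ⟨M, v, hM, hv, h⟩ := Pool.Agent.Y43.NK.cyc C T0
  have key : ∀ c : C, bb ℚ (asm ℚ C v) c = M * (if Subgroup.zpowers c = ⊤ then 1 else 0) := by
    intro c
    have h1 := h (fun y => if y = c then 1 else 0) (isCls_comm _)
    have h2 : bb ℚ (asm ℚ C v) c = TC ℚ (fun y : C => if y = c then (1 : ℤ) else 0) v := by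
      rfl
    rw [h2, h1]
    congr 1
    have h3 : ∀ d : C, (∑ᶠ (_ : Subgroup.zpowers d = T0.1),
        (((fun y : C => if y = c then (1 : ℤ) else 0) d : ℤ) : ℚ)) =
        if d = c then (if Subgroup.zpowers c = ⊤ then (1 : ℚ) else 0) else 0 := by
      intro d
      by_cases hd : d = c
      · subst hd
        rw [if_pos rfl]
        by_cases hd2 : Subgroup.zpowers d = ⊤
        · rw [if_pos hd2, finsum_eq_if, if_pos hd2]
          simp
        · rw [if_neg hd2, finsum_eq_if, if_neg hd2]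
      · rw [if_neg hd, finsum_eq_if]
        simp [hd]
    rw [finsum_congr h3, finsum_eq_sum_of_fintype, Finset.sum_ite_eq' Finset.univ c
      (fun _ => if Subgroup.zpowers c = ⊤ then (1 : ℚ) else 0), if_pos (Finset.mem_univ c)]
  refine ⟨M, asm ℚ C v, hM, ?_, ?_, ?_⟩
  · have h4 : AvgSpan C ≤ (AddSubgroup.closure {y : K0 (MonoidAlgebra ℚ C) | ∃ (D : Type)
        (_ : Group D) (_ : Finite D) (f : D →* C), y =
          K0.map (mapDomainRingHom ℚ f) (avgCl D)}).comap (asm ℚ C) := by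
      unfold AvgSpan
      rw [AddSubgroup.closure_le]
      rintro _ ⟨D, rfl⟩
      have := D.2
      rw [SetLike.mem_coe, AddSubgroup.mem_comap, asm_ci]
      exact AddSubgroup.subset_closure ⟨D.1, inferInstance, D.2, D.1.subtype, rfl⟩
    exact h4 hv
  · intro c hc
    rw [key, if_pos hc, mul_one]
  · intro c hc
    rw [key, if_neg hc, mul_zero]

end theta

section words

variable {G : Type} [Group G]

theorem rat_den {J : Type} [Fintype J] (t : J → ℚ) : ∃ N : ℕ, 0 < N ∧ ∀ d, ∃ z : ℤ,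
    (z : ℚ) = N * t d := by
  classical
  refine ⟨∏ d, (t d).den, Finset.prod_pos fun d _ => (t d).den_pos, fun d => ?_⟩
  obtain ⟨k, hk⟩ := Finset.dvd_prod_of_mem (fun d => (t d).den) (Finset.mem_univ d)
  refine ⟨k * (t d).num, ?_⟩
  rw [hk]
  push_cast
  have h1 : ((t d).den : ℚ) * t d = (t d).num := Rat.den_mul_eq_num (t d)
  rw [mul_comm ((t d).den : ℚ) (k : ℚ), mul_assoc, h1]

/-- the traces of an element of `K₁(ℚ[G])` -/
theorem exists_W (b : K1 (MonoidAlgebra ℚ G)) : ∃ (E : Finset G) (N : ℕ) (W : G → G), 0 < N ∧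
    (∀ g, W g * g = g * W g) ∧
    (∀ (g : G) (χ : G → ℤ) (hχ : AddOnC g χ), ((χ (W g) : ℤ) : ℚ) = N * Tr ℚ hχ b) ∧
    (∀ (c : G) (χ : G → ℤ) (hχ : AddOnC c χ), Tr ℚ hχ b ≠ 0 → ∃ g ∈ E, IsConj c g) := by
  classical
  obtain ⟨n, A, rfl⟩ := K1_exists b
  let S : Finset G := spt A.val ∪ spt (A⁻¹).val
  let t : S × S → ℚ := fun d => (cf (A⁻¹).val d.1 * cf A.val d.2).trace
  obtain ⟨N, hN, h1⟩ := rat_den t
  choose z hz using h1
  have htr : ∀ (c : G) (χ : G → ℤ) (hχ : AddOnC c χ), Tr ℚ hχ (cl A) =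
      ∑ d : S × S, t d * ((cocf c χ (d.1 : G) d.2 : ℤ) : ℚ) := by
    intro c χ hχ
    rw [Tr_cl, prg_eq _ (A⁻¹).val A.val S Finset.subset_union_left Finset.subset_union_right]
    rfl
  let w : G → S × S → G := fun g d => if IsConj g ((d.1 : G) * d.2) then
    (sel g ((d.2 : G) * d.1))⁻¹ * d.2 * sel g ((d.1 : G) * d.2) else 1
  have hw : ∀ g d, w g d ∈ Subgroup.centralizer {g} := by
    intro g d
    rw [Subgroup.mem_centralizer_iff]
    rintro _ rfl
    show _ * (if IsConj _ ((d.1 : G) * d.2) then _ else 1) =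
      (if IsConj _ ((d.1 : G) * d.2) then _ else 1) * _
    split_ifs with h
    · exact (sel_word (isSel_sel _) h).symm
    · group
  choose V hV using fun g => exists_word Finset.univ
    (fun d => (⟨w g d, hw g d⟩ : (Subgroup.centralizer {g} : Subgroup G))) z
  refine ⟨Finset.univ.image fun d : S × S => (d.1 : G) * d.2, N, fun g => V g, hN, ?_, ?_, ?_⟩
  · intro g
    exact (Subgroup.mem_centralizer_iff.1 (V g).2 g rfl).symm
  · intro g χ hχ
    let θ : (Subgroup.centralizer {g} : Subgroup G) →* Multiplicative ℤ :=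
      { toFun := fun γ => Multiplicative.ofAdd (χ γ)
        map_one' := by
          rw [Subgroup.coe_one, Pool.Agent.T9h42.AddOnC.one hχ]
          rfl
        map_mul' := fun a b => by
          have ha := Subgroup.mem_centralizer_iff.1 a.2 g rfl
          have hb := Subgroup.mem_centralizer_iff.1 b.2 g rfl
          rw [Subgroup.coe_mul, hχ a b ha.symm hb.symm]
          rfl }
    have h2 := congrArg Multiplicative.toAdd (hV g _ θ)
    rw [toAdd_prod] at h2
    have h3 : χ (V g) = ∑ d, z d * χ (w g d) := by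
      refine Eq.trans h2 (Finset.sum_congr rfl fun d _ => ?_)
      rw [toAdd_zpow, smul_eq_mul]
      rfl
    show ((χ (V g) : ℤ) : ℚ) = _
    rw [h3, htr, Int.cast_sum, Finset.mul_sum]
    refine Finset.sum_congr rfl fun d _ => ?_
    rw [Int.cast_mul, hz, mul_assoc]
    congr 2
    unfold cocf
    show ((χ (if IsConj g ((d.1 : G) * d.2) then _ else 1) : ℤ) : ℚ) = _
    split_ifs with h
    · rfl
    · rw [Pool.Agent.T9h42.AddOnC.one hχ]
  · intro c χ hχ h
    rw [htr] at h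
    obtain ⟨d, _, hd⟩ := Finset.exists_ne_zero_of_sum_ne_zero h
    refine ⟨(d.1 : G) * d.2, Finset.mem_image.2 ⟨d, Finset.mem_univ _, rfl⟩, ?_⟩
    by_contra hc
    apply hd
    unfold cocf
    rw [if_neg hc, Int.cast_zero, mul_zero]

end words

section count

variable {G : Type} [Group G]

/-- the number of the generators of `⟨g⟩` which are conjugate to `c` -/
def kk (g c : G) : ℕ := Set.ncard {h : G | Subgroup.zpowers h = Subgroup.zpowers g ∧ IsConj c h}

theorem kk_fin {g : G} (hg : 0 < orderOf g) (c : G) :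
    {h : G | Subgroup.zpowers h = Subgroup.zpowers g ∧ IsConj c h}.Finite := by
  have h1 : (Subgroup.zpowers g : Set G).Finite := by
    have : Finite (Subgroup.zpowers g) := Nat.finite_of_card_ne_zero (by
      rw [Nat.card_zpowers]; exact hg.ne')
    exact Set.toFinite _
  refine h1.subset ?_
  rintro h ⟨h2, _⟩
  show h ∈ Subgroup.zpowers g
  rw [← h2]
  exact Subgroup.mem_zpowers h

theorem kk_conj {c c' : G} (h : IsConj c c') (g : G) : kk g c = kk g c' := by
  unfold kk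
  congr 1
  ext x
  exact and_congr_right fun _ => ⟨fun h1 => h.symm.trans h1, fun h1 => h.trans h1⟩

theorem kk_le {x y g : G} (hx : 0 < orderOf x) (hg : 0 < orderOf g)
    (h : Subgroup.zpowers y = Subgroup.zpowers x) : kk g x ≤ kk g y := by
  obtain ⟨k, hk, rfl⟩ := Pool.Agent.Y785.NK.exists_exp hx h
  obtain ⟨m, hm, hm'⟩ := Pool.Agent.Y785.NK.inv_exp (G := G) hx hk
  have ho : ∀ z : G, IsConj x z → orderOf z = orderOf x := by
    intro z hz
    obtain ⟨s, rfl⟩ := isConj_iff.1 hz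
    exact (MulAut.conj s).orderOf_eq x
  refine Set.ncard_le_ncard_of_injOn (fun z => z ^ k) ?_ ?_ (kk_fin hg _)
  · rintro z ⟨h1, h2⟩
    refine ⟨?_, h2.pow k⟩
    rw [← h1]
    exact Pool.Agent.Y785.NK.zpowers_pow (by rw [ho z h2]; exact hx) (by rw [ho z h2]; exact hk)
  · rintro a ⟨_, ha⟩ b ⟨_, hb⟩ hab
    have h1 := hm' a (ho a ha)
    have h2 := hm' b (ho b hb)
    have h3 : a ^ k = b ^ k := hab
    rw [← h1, ← h2, h3]

theorem kk_gen {x y g : G} (hx : 0 < orderOf x) (hg : 0 < orderOf g)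
    (h : Subgroup.zpowers y = Subgroup.zpowers x) : kk g y = kk g x := by
  refine le_antisymm (kk_le ?_ hg h.symm) (kk_le hx hg h)
  rw [Pool.Agent.Y785.NK.order_eq h]
  exact hx

theorem kk_self {g : G} (hg : 0 < orderOf g) : 0 < kk g g :=
  (Set.ncard_pos (kk_fin hg g)).2 ⟨g, rfl, IsConj.refl g⟩

theorem kk_ne {g c : G} (h : kk g c ≠ 0) : ∃ y, Subgroup.zpowers y = Subgroup.zpowers g ∧
    IsConj c y := by
  by_contra hc
  apply h
  have h1 : {h : G | Subgroup.zpowers h = Subgroup.zpowers g ∧ IsConj c h} = ∅ := by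
    rw [Set.eq_empty_iff_forall_notMem]
    exact fun y hy => hc ⟨y, hy⟩
  unfold kk
  rw [h1, Set.ncard_empty]

end count

section avg

variable {G : Type} [Group G]

theorem comm_zpow {g w : G} (h : w * g = g * w) {y : G} (hy : y ∈ Subgroup.zpowers g) :
    w * y = y * w := by
  obtain ⟨n, rfl⟩ := Subgroup.mem_zpowers_iff.1 hy
  exact (show Commute w g from h).zpow_right n

theorem AddOnC.gen {g y : G} {χ : G → ℤ} (hχ : AddOnC g χ)
    (h : Subgroup.zpowers y = Subgroup.zpowers g) : AddOnC y χ := by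
  have h1 : g ∈ Subgroup.zpowers y := by rw [h]; exact Subgroup.mem_zpowers g
  intro a b ha hb
  exact hχ a b (comm_zpow ha h1) (comm_zpow hb h1)

theorem AddOnC.cj {c y s : G} {χ : G → ℤ} (hχ : AddOnC c χ) (hs : s * c * s⁻¹ = y) :
    AddOnC y (fun x => χ (s⁻¹ * x * s)) := by
  have key : ∀ a, a * y = y * a → (s⁻¹ * a * s) * c = c * (s⁻¹ * a * s) := by
    intro a ha
    have h1 : c = s⁻¹ * y * s := by rw [← hs]; group
    rw [h1]
    calc s⁻¹ * a * s * (s⁻¹ * y * s) = s⁻¹ * (a * y) * s := by group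
      _ = s⁻¹ * y * s * (s⁻¹ * a * s) := by rw [ha]; group
  intro a b ha hb
  show χ (s⁻¹ * (a * b) * s) = χ (s⁻¹ * a * s) + χ (s⁻¹ * b * s)
  rw [← hχ _ _ (key a ha) (key b hb)]
  congr 1
  group

/-- the trace of the symbol of `⟨g⟩` -/
theorem Tr_theta {b : K1 (MonoidAlgebra ℚ G)} {N M : ℕ} {W g : G} (hg : 0 < orderOf g)
    (hW : W * g = g * W)
    (hWχ : ∀ (χ : G → ℤ) (hχ : AddOnC g χ), ((χ W : ℤ) : ℚ) = N * Tr ℚ hχ b)
    {C : Type} [CommGroup C] [Finite C] (φ : C →* G) (hφ : Function.Injective φ)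
    (hr : ∀ y, y ∈ Subgroup.zpowers g ↔ ∃ c, φ c = y)
    (hz : ∀ c, W * φ c = φ c * W) {θ : K0 (MonoidAlgebra ℚ C)}
    (h1 : ∀ c, Subgroup.zpowers c = ⊤ → bb ℚ θ c = M)
    (h2 : ∀ c, Subgroup.zpowers c ≠ ⊤ → bb ℚ θ c = 0)
    {c : G} {χ : G → ℤ} (hχ : AddOnC c χ) :
    Tr ℚ hχ (nz φ W hz θ) = ((M * N * kk g c : ℕ) : ℚ) * Tr ℚ hχ b := by
  classical
  have := Fintype.ofFinite C
  rw [Tr_sz]
  have hgen : ∀ y : C, Subgroup.zpowers y = ⊤ ↔ Subgroup.zpowers (φ y) = Subgroup.zpowers g := by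
    intro y
    have e1 : Subgroup.zpowers (φ y) = (Subgroup.zpowers y).map φ := by
      rw [MonoidHom.map_zpowers]
    have e2 : Subgroup.zpowers g = (⊤ : Subgroup C).map φ := by
      ext x
      rw [hr, Subgroup.mem_map]
      exact ⟨fun ⟨c, hc⟩ => ⟨c, Subgroup.mem_top c, hc⟩, fun ⟨c, _, hc⟩ => ⟨c, hc⟩⟩
    rw [e1, e2]
    exact ⟨fun h => by rw [h], fun h => Subgroup.map_injective hφ h⟩
  have e3 : ∀ y : C, bb ℚ θ y * cocf c (fun g => ((χ g : ℤ) : ℚ)) (φ y * W⁻¹) W =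
      if Subgroup.zpowers (φ y) = Subgroup.zpowers g ∧ IsConj c (φ y) then
        ((M * N : ℕ) : ℚ) * Tr ℚ hχ b else 0 := by
    intro y
    rw [cocf_val _ _ _ _ (hz y)]
    by_cases hy : Subgroup.zpowers y = ⊤
    · have hy' := (hgen y).1 hy
      rw [h1 y hy]
      by_cases hc : IsConj c (φ y)
      · rw [if_pos hc, if_pos ⟨hy', hc⟩]
        have hs := sel_spec hc
        have hχy : AddOnC (φ y) (fun x => χ ((sel c (φ y))⁻¹ * x * sel c (φ y))) :=
          AddOnC.cj hχ hs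
        have hχg : AddOnC g (fun x => χ ((sel c (φ y))⁻¹ * x * sel c (φ y))) :=
          AddOnC.gen hχy hy'.symm
        have h3 := hWχ _ hχg
        have h4 := Tr_pow hg hχg hχy hy'.symm b
        have h5 := Tr_conj hχ hχy (sel c (φ y)) hs.symm (fun _ => rfl) b
        rw [h3, ← h4, h5]
        push_cast
        ring
      · rw [if_neg hc, if_neg fun h => hc h.2, mul_zero]
    · rw [h2 y hy, zero_mul, if_neg]
      exact fun h => hy ((hgen y).2 h.1)
  rw [Finset.sum_congr rfl fun y _ => e3 y, ← Finset.sum_filter, Finset.sum_const, nsmul_eq_mul]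
  have e4 : kk g c = (Finset.univ.filter fun y : C =>
      Subgroup.zpowers (φ y) = Subgroup.zpowers g ∧ IsConj c (φ y)).card := by
    unfold kk
    have e5 : {h : G | Subgroup.zpowers h = Subgroup.zpowers g ∧ IsConj c h} =
        ((Finset.univ.filter fun y : C =>
          Subgroup.zpowers (φ y) = Subgroup.zpowers g ∧ IsConj c (φ y)).image φ : Finset G) := by
      ext h
      rw [Finset.coe_image]
      constructor
      · rintro ⟨h3, h4⟩
        obtain ⟨y, hy⟩ := (hr h).1 (by rw [← h3]; exact Subgroup.mem_zpowers h)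
        refine ⟨y, ?_, hy⟩
        rw [Finset.mem_coe, Finset.mem_filter, hy]
        exact ⟨Finset.mem_univ _, h3, h4⟩
      · rintro ⟨y, hy, rfl⟩
        rw [Finset.mem_coe, Finset.mem_filter] at hy
        exact hy.2
    rw [e5, Set.ncard_coe_finset, Finset.card_image_of_injective _ hφ]
  rw [e4]
  push_cast
  ring

theorem sz_theta {C : Type} [Group C] [Finite C] (φ : C →* G) (W : G)
    (hz : ∀ c, W * φ c = φ c * W) {θ : K0 (MonoidAlgebra ℚ C)}
    (h : θ ∈ AddSubgroup.closure {y : K0 (MonoidAlgebra ℚ C) | ∃ (D : Type) (_ : Group D)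
      (_ : Finite D) (f : D →* C), y = K0.map (mapDomainRingHom ℚ f) (avgCl D)}) :
    sz ℚ φ W hz θ ∈ AvgZ G := by
  refine (AddSubgroup.closure_le (K := (AvgZ G).comap (sz ℚ φ W hz))).2 ?_ h
  rintro _ ⟨D, _, _, f, rfl⟩
  show sz ℚ φ W hz (GK0.map f (avgCl D)) ∈ AvgZ G
  rw [sz_apply, map_map]
  exact AddSubgroup.subset_closure ⟨_, _, D, inferInstance, inferInstance, _, rfl⟩

/-- **Averaging.** -/
theorem averaging (b : K1 (MonoidAlgebra ℚ G)) : ∃ (M : ℕ) (v : ZK ℚ G), 0 < M ∧ v ∈ AvgZ G ∧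
    ∀ (c : G) (χ : G → ℤ) (hχ : AddOnC c χ), 0 < orderOf c →
      Tr ℚ hχ (btG ℚ G v) = M * Tr ℚ hχ b := by
  classical
  obtain ⟨E0, N, W, hN, hWg, hW, hE0⟩ := exists_W b
  let E : Finset G := E0.filter fun g => 0 < orderOf g
  have hEo : ∀ g ∈ E, 0 < orderOf g := fun g hg => (Finset.mem_filter.1 hg).2
  -- the symbols
  have hex : ∀ g ∈ E, ∃ (M : ℕ) (v : ZK ℚ G), 0 < M ∧ v ∈ AvgZ G ∧
      ∀ (c : G) (χ : G → ℤ) (hχ : AddOnC c χ),
        Tr ℚ hχ (btG ℚ G v) = ((M * N * kk g c : ℕ) : ℚ) * Tr ℚ hχ b := by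
    intro g hg
    have hfin : Finite (Subgroup.zpowers g) := Nat.finite_of_card_ne_zero (by
      rw [Nat.card_zpowers]; exact (hEo g hg).ne')
    let _ : CommGroup (Subgroup.zpowers g) := (inferInstance : IsCyclic _).commGroup
    obtain ⟨M, θ, hM, hθ, h1, h2⟩ := exists_theta (C := Subgroup.zpowers g)
    have hz : ∀ c : Subgroup.zpowers g, W g * (Subgroup.zpowers g).subtype c =
        (Subgroup.zpowers g).subtype c * W g := fun c => comm_zpow (hWg g) c.2
    refine ⟨M, sz ℚ (Subgroup.zpowers g).subtype (W g) hz θ, hM, sz_theta _ _ _ hθ, ?_⟩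
    intro c χ hχ
    rw [btG_sz]
    exact Tr_theta (hEo g hg) (hWg g) (hW g) (Subgroup.zpowers g).subtype
      Subtype.val_injective (fun y => ⟨fun hy => ⟨⟨y, hy⟩, rfl⟩, fun ⟨c, hc⟩ => hc ▸ c.2⟩) hz h1 h2
      hχ
  choose! M v hM hv hT using hex
  let K : G → ℕ := fun c => ∑ g ∈ E, kk g c
  have hK : ∀ g ∈ E, 0 < K g := by
    intro g hg
    refine lt_of_lt_of_le (kk_self (hEo g hg)) ?_
    exact Finset.single_le_sum (f := fun g' => kk g' g) (fun _ _ => Nat.zero_le _) hg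
  let Q : ℕ := ∏ g ∈ E, M g * K g
  have hQ : 0 < Q := Finset.prod_pos fun g hg => Nat.mul_pos (hM g hg) (hK g hg)
  refine ⟨Q * N, ∑ g ∈ E, (Q / (M g * K g)) • v g, Nat.mul_pos hQ hN,
    AddSubgroup.sum_mem _ fun g hg => AddSubgroup.nsmul_mem _ (hv g hg) _, ?_⟩
  intro c χ hχ hc
  rw [map_sum, map_sum]
  by_cases h0 : Tr ℚ hχ b = 0
  · rw [h0, mul_zero]
    refine Finset.sum_eq_zero fun g hg => ?_
    rw [map_nsmul, map_nsmul, hT g hg c χ hχ, h0, mul_zero, smul_zero]
  have hKc : 0 < K c := by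
    obtain ⟨g, hg, hcg⟩ := hE0 c χ hχ h0
    have ho : 0 < orderOf g := by
      obtain ⟨s, rfl⟩ := isConj_iff.1 hcg
      have : orderOf (s * c * s⁻¹) = orderOf c := (MulAut.conj s).orderOf_eq c
      rw [this]
      exact hc
    have hgE : g ∈ E := Finset.mem_filter.2 ⟨hg, ho⟩
    have h1 : 0 < kk g c := by
      rw [kk_conj hcg]
      exact kk_self ho
    exact lt_of_lt_of_le h1 (Finset.single_le_sum (f := fun g' => kk g' c)
      (fun _ _ => Nat.zero_le _) hgE)
  have h1 : ∀ g ∈ E, Tr ℚ hχ (btG ℚ G ((Q / (M g * K g)) • v g)) =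
      (Q * N : ℚ) * Tr ℚ hχ b * ((kk g c : ℚ) / K c) := by
    intro g hg
    rw [map_nsmul, map_nsmul, hT g hg c χ hχ, nsmul_eq_mul]
    by_cases hk : kk g c = 0
    · rw [hk]
      simp
    have hKg : K g = K c := by
      obtain ⟨y, hy, hcy⟩ := kk_ne hk
      refine Finset.sum_congr rfl fun g' hg' => ?_
      rw [kk_conj hcy]
      exact (kk_gen (hEo g hg) (hEo g' hg') hy).symm
    have hd : M g * K g ∣ Q := Finset.dvd_prod_of_mem (fun g => M g * K g) hg
    rw [Nat.cast_div hd (by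
      have := Nat.mul_pos (hM g hg) (hK g hg)
      exact_mod_cast this.ne'), hKg]
    have h3 : (K c : ℚ) ≠ 0 := by exact_mod_cast hKc.ne'
    have h4 : (M g : ℚ) ≠ 0 := by exact_mod_cast (hM g hg).ne'
    push_cast
    field_simp
  rw [Finset.sum_congr rfl h1, ← Finset.mul_sum, ← Finset.sum_div, ← Nat.cast_sum]
  have h3 : (K c : ℚ) ≠ 0 := by exact_mod_cast hKc.ne'
  have h5 : (((∑ g ∈ E, kk g c : ℕ) : ℚ) / K c) = 1 := div_self h3
  rw [h5, mul_one]
  push_cast
  ring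

end avg

end

end Pool.Agent.T9h42.Q
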