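import Pool.Agent.T9h42.GZ.GloQ
import Pool.Agent.T9h42.DP.Gene
import Pool.Agent.Y43.NK.Artin
import Pool.Agent.Y350.NK.Gen

/-!
# Up to torsion all symbols come from cyclic groups
-/

set_option linter.unusedSectionVars false

namespace Pool.Agent.T9h42.Q

open MonoidAlgebra Pool.Agent.Y69 Pool.Agent.Y69.StepC Pool.Agent.Y778.NK Pool.Agent.T9h42

noncomputable section

section gene

variable {F : Type} [Field F] [CharZero F] {G : Type} [Group G]

theorem tfF : TF F := by
  intro n a hn h
  rw [zsmul_eq_mul] at h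
  exact (mul_eq_zero.1 h).resolve_left (Int.cast_ne_zero.2 hn)

variable (F) in
/-- the data for a field of characteristic zero -/
def dF : Lg ℤ F F F where
  q := RingHom.id F
  i := RingHom.id F
  hi := fun _ _ h => h
  j := Int.castAddHom F
  hj := fun _ _ h => Int.cast_injective h


/-- the negative of an object -/
def ZObj.neg (X : ZObj F G) : ZObj F G :=
  { X with
    u := -X.u
    good := by
      intro c hc
      show (-X.u.1).coeff c = 0
      rw [coeff_neg, Finsupp.neg_apply, X.good c hc, neg_zero] }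

theorem ZObj.neg_val (X : ZObj F G) : X.neg.val (dF F) tfF = -X.val (dF F) tfF :=
  map_neg (sv (dF F) tfF X.φ X.z X.hz) X.u

/-- finite sums of values -/
def Vs : AddSubgroup (ZK F G) where
  carrier := {y | ∃ (N : ℕ) (X : Fin N → ZObj F G), y = ∑ i, (X i).val (dF F) tfF}
  zero_mem' := ⟨0, Fin.elim0, by simp⟩
  add_mem' := by
    rintro _ _ ⟨N, X, rfl⟩ ⟨M, Y, rfl⟩
    refine ⟨N + M, Fin.append X Y, ?_⟩
    rw [Fin.sum_univ_add]
    simp only [Fin.append_left, Fin.append_right]
  neg_mem' := by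
    rintro _ ⟨N, X, rfl⟩
    refine ⟨N, fun i => (X i).neg, ?_⟩
    rw [← Finset.sum_neg_distrib]
    exact Finset.sum_congr rfl fun i _ => ((X i).neg_val).symm

theorem Vs_val (X : ZObj F G) : X.val (dF F) tfF ∈ Vs (F := F) (G := G) :=
  ⟨1, fun _ => X, by simp⟩

/-- up to torsion -/
def Vt : AddSubgroup (ZK F G) where
  carrier := {y | ∃ m : ℕ, 0 < m ∧ m • y ∈ Vs (F := F) (G := G)}
  zero_mem' := ⟨1, one_pos, by rw [smul_zero]; exact zero_mem _⟩
  add_mem' := by
    rintro a b ⟨m, hm, ha⟩ ⟨n, hn, hb⟩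
    refine ⟨m * n, Nat.mul_pos hm hn, ?_⟩
    rw [smul_add]
    refine add_mem ?_ ?_
    · rw [mul_comm, mul_smul]; exact AddSubgroup.nsmul_mem _ ha n
    · rw [mul_smul]; exact AddSubgroup.nsmul_mem _ hb m
  neg_mem' := by
    rintro a ⟨m, hm, ha⟩
    exact ⟨m, hm, by rw [smul_neg]; exact neg_mem ha⟩

theorem Vt_of {y : ZK F G} (m : ℕ) (hm : 0 < m) (h : m • y ∈ Vt (F := F) (G := G)) :
    y ∈ Vt (F := F) (G := G) := by
  obtain ⟨n, hn, h⟩ := h
  exact ⟨n * m, Nat.mul_pos hn hm, by rw [mul_smul]; exact h⟩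

/-- a non-cyclic group carries no good combination -/
theorem good_zero {C : Type} [CommGroup C] (hC : ¬ IsCyclic C) (u : Hn (MonoidAlgebra F C))
    (hu : ∀ c, Subgroup.zpowers c ≠ ⊤ → u.1.coeff c = 0) : u = 0 := by
  apply Subtype.ext
  apply coeff_injective
  ext c
  apply hu
  intro h
  exact hC (isCyclic_iff_exists_zpowers_eq_top.2 ⟨c, h⟩)

/-- the symbols for a fixed element -/
def symz (z : G) (E : ℕ) {C : Type} [CommGroup C] [Finite C]
    (φ : C →* (Subgroup.centralizer {z} : Subgroup G)) : (thy F E).U C →+ ZK F G :=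
  sv (dF F) tfF ((Subgroup.centralizer {z}).subtype.comp φ) z fun c =>
    Subgroup.mem_centralizer_iff.1 (φ c).2 z rfl

theorem symz_conj (z : G) (E : ℕ) {C C' : Type} [CommGroup C] [CommGroup C'] [Finite C]
    [Finite C'] (φ : C →* (Subgroup.centralizer {z} : Subgroup G))
    (ψ : C' →* (Subgroup.centralizer {z} : Subgroup G)) (f : C' →* C)
    (g : (Subgroup.centralizer {z} : Subgroup G)) (h : ∀ x, φ (f x) = g * ψ x * g⁻¹)
    (u : (thy F E).U C') : symz z E φ ((thy F E).map f u) = symz z E ψ u := by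
  refine sv_conj (dF F) tfF ((Subgroup.centralizer {z}).subtype.comp φ)
    ((Subgroup.centralizer {z}).subtype.comp ψ) f (g : G) ?_ z z _ _ ?_ u
  · intro x
    exact congrArg Subtype.val (h x)
  · have h1 := Subgroup.mem_centralizer_iff.1 g.2 z rfl
    rw [← h1]
    group

theorem sv_mem {C : Type} [CommGroup C] [Finite C] (φ : C →* G)
    (hφ : Function.Injective φ) (z : G) (hz : ∀ c, z * φ c = φ c * z)
    (u : Hn (MonoidAlgebra F C)) : sv (dF F) tfF φ z hz u ∈ Vt (F := F) (G := G) := by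
  classical
  let φ' : C →* (Subgroup.centralizer {z} : Subgroup G) :=
    φ.codRestrict _ fun c => by
      rw [Subgroup.mem_centralizer_iff]
      rintro _ rfl
      exact hz c
  have hφ' : Function.Injective φ' := fun a b hab => hφ (congrArg Subtype.val hab)
  obtain ⟨m, hm, h⟩ := Theory.C3 (S := thy F (Nat.card C))
    (sym := fun {C'} _ _ ψ => symz z (Nat.card C) ψ)
    (fun φ ψ f g h u => symz_conj z _ φ ψ f g h u) (Nat.card C) C rfl dvd_rfl φ' hφ' u
  refine ⟨m, hm, ?_⟩
  have h1 : symz z (Nat.card C) φ' u = sv (dF F) tfF φ z hz u := rfl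
  rw [← h1]
  refine (AddSubgroup.closure_le (K := Vs (F := F) (G := G))).2 ?_ h
  rintro _ ⟨X, rfl⟩
  by_cases hcyc : IsCyclic X.C
  · exact Vs_val (F := F) (G := G)
      { C := X.C, grp := X.grp, fin := X.fin, cyc := hcyc,
        φ := (Subgroup.centralizer {z}).subtype.comp X.φ,
        inj := Subtype.val_injective.comp X.inj
        z := z, hz := fun c => Subgroup.mem_centralizer_iff.1 (X.φ c).2 z rfl
        u := X.u, good := X.good }
  · have h2 : X.u = 0 := good_zero hcyc X.u X.good
    show symz z (Nat.card C) X.φ X.u ∈ _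
    rw [h2, map_zero]
    exact zero_mem _

theorem kap_cl1' {C : Type} [CommGroup C] (e : MonoidAlgebra F C) (he : e * e = e) :
    kap (ma_tf (tfF (F := F))) ⟨e, Hn_idem he⟩ = cl1 e he := kap_cl1 (ma_tf tfF) e he

theorem mapR_id {C : Type} [Group C] (x : MonoidAlgebra F C) :
    mapRingHom C (RingHom.id F) x = x := by
  apply coeff_injective
  ext c
  simp

theorem gq_id {C : Type} [Group C] (x : K0 (MonoidAlgebra F C)) : gq (dF F) C x = x := by
  show K0.map (mapRingHom C (RingHom.id F)) x = x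
  have h : mapRingHom C (RingHom.id F) = RingHom.id _ := RingHom.ext fun x => mapR_id x
  rw [h, K0map_id]

theorem sz_mem {C : Type} [CommGroup C] [Finite C] (φ : C →* G)
    (hφ : Function.Injective φ) (z : G) (hz : ∀ c, z * φ c = φ c * z)
    (x : GK0 F C) : sz F φ z hz x ∈ Vt (F := F) (G := G) := by
  have h1 : (x : K0 (MonoidAlgebra F C)) ∈ _ := Pool.Agent.Y350.NK.gen F C x
  have h2 : ∀ x ∈ AddSubgroup.closure {y : K0 (MonoidAlgebra F C) | ∃ (e : MonoidAlgebra F C)
      (he : e * e = e), y = cl1 e he}, sz F φ z hz x ∈ Vt (F := F) (G := G) := by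
    intro x hx
    refine (AddSubgroup.closure_le (K := (Vt (F := F) (G := G)).comap (sz F φ z hz))).2 ?_ hx
    rintro _ ⟨e, he, rfl⟩
    have h3 := sv_mem φ hφ z hz ⟨e, Hn_idem he⟩
    have h4 : sv (dF F) tfF φ z hz ⟨e, Hn_idem he⟩ =
        sz F φ z hz (cl1 e he : K0 (MonoidAlgebra F C)) := by
      show sz F φ z hz (gq (dF F) C (kap (ma_tf tfF) ⟨e, Hn_idem he⟩)) = _
      rw [kap_cl1' e he, gq_id]
    rw [h4] at h3
    exact h3
  exact h2 x h1

theorem of_sz (H : FinSub G) (z : Cz H.1) (hz : ∀ c : H.1, (z : G) * H.1.subtype c =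
    H.1.subtype c * z) (x : GK0 F H.1) :
    haveI : Finite H.1 := H.2
    ZK.of H z x = sz F H.1.subtype z hz x := by
  have : Finite H.1 := H.2
  show _ = ZK.of _ _ (GK0.map _ x)
  symm
  apply ZK.of_rel H (rg H.1.subtype) 1 (rrg H.1.subtype)
  · intro h
    show (h : G) = 1 * h * 1⁻¹
    group
  · show (z : G) = 1 * z * 1⁻¹
    group

/-- **Generation.** -/
theorem ZK_mem (x : ZK F G) : x ∈ Vt (F := F) (G := G) := by
  classical
  induction x using ZK.induction with
  | h0 => exact zero_mem _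
  | hadd x y hx hy => exact add_mem hx hy
  | hneg x hx => exact neg_mem hx
  | hι H z x =>
    have : Finite H.1 := H.2
    have hz : ∀ c : H.1, (z : G) * H.1.subtype c = H.1.subtype c * z := fun c =>
      (Subgroup.mem_centralizer_iff.1 z.2 c c.2).symm
    obtain ⟨m, hm, h⟩ := Pool.Agent.Y43.NK.artin F
      (fun n hn => isUnit_iff_ne_zero.2 (by exact_mod_cast hn.ne')) H.1
      (x : K0 (MonoidAlgebra F H.1))
    refine Vt_of m hm ?_
    have h1 : m • ZK.of H z x = sz F H.1.subtype z hz (m • x) := by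
      rw [map_nsmul, of_sz H z hz x]
    rw [h1]
    have h2 : ∀ x ∈ AddSubgroup.closure {y : K0 (MonoidAlgebra F H.1) | ∃ (C : Subgroup H.1)
        (_ : IsCyclic C) (w : K0 (MonoidAlgebra F C)), y = K0.map (mapDomainRingHom F C.subtype) w},
        sz F H.1.subtype z hz x ∈ Vt (F := F) (G := G) := by
      intro x hx
      refine (AddSubgroup.closure_le
        (K := (Vt (F := F) (G := G)).comap (sz F H.1.subtype z hz))).2 ?_ hx
      rintro _ ⟨C, hC, w, rfl⟩
      let _ : CommGroup C := hC.commGroup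
      have h3 := sz_mem (H.1.subtype.comp C.subtype)
        (Subtype.val_injective.comp Subtype.val_injective) z (fun c => hz c) (w : GK0 F C)
      have h4 : sz F H.1.subtype z hz (GK0.map C.subtype w) = sz F (H.1.subtype.comp C.subtype) z
          (fun c => hz c) (w : GK0 F C) :=
        sz_conj F H.1.subtype (H.1.subtype.comp C.subtype) C.subtype 1 (fun x => by simp) z z hz
          (fun c => hz c) (by simp) w
      rw [← h4] at h3
      exact h3
    exact h2 _ h

end gene

end

end Pool.Agent.T9h42.Q
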