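import Pool.Agent.T9h42.GZ.Sel
import Pool.Agent.T9h42.GZ.GeneQ
import Pool.Agent.T9h42.DP.Bt
import Pool.Agent.Y778.NK.Reg
import Pool.Agent.Y43.NK.Int
import Pool.Agent.Y778.NK.KMS

/-!
# The map from the group of symbols to `K₁`, change of rings, and the local statement
-/

set_option linter.unusedSectionVars false

namespace Pool.Agent.T9h42.Q

open MonoidAlgebra H970SH H842 Pool.Agent.Y69 Pool.Agent.Y69.StepC Pool.Agent.Y778.NK
  Pool.Agent.T9h42

noncomputable section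

section beta

variable (k : Type) [CommRing k] (G : Type) [Group G]

/-- the symbol map on a finite subgroup -/
def bthG (H : FinSub G) (z : Cz H.1) : GK0 k H.1 →+ K1 (MonoidAlgebra k G) :=
  nz H.1.subtype (z : G) (fin_comm G H z)

theorem bthG_mul (H : FinSub G) (z z' : Cz H.1) (x : GK0 k H.1) :
    bthG k G H (z * z') x = bthG k G H z x + bthG k G H z' x :=
  nz_mul H.1.subtype (z : G) z' (fin_comm G H z) (fin_comm G H z') (fin_comm G H (z * z')) x

theorem bthG_conj (H K : FinSub G) (g : G) (φ : H.1 →* K.1) (z : Cz H.1) (z' : Cz K.1)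
    (hφ : ∀ h : H.1, (φ h : G) = g * h * g⁻¹) (hz : (z' : G) = g * z * g⁻¹) (x : GK0 k H.1) :
    bthG k G K z' (GK0.map φ x) = bthG k G H z x :=
  nz_conj K.1.subtype H.1.subtype φ g hφ z' z (fin_comm G K z') (fin_comm G H z) hz x

/-- the map of the group of symbols to `K₁(k[G])` -/
def btG : ZK k G →+ K1 (MonoidAlgebra k G) := ZK.lift (bthG k G) (bthG_mul k G) (bthG_conj k G)

theorem btG_of (H : FinSub G) (z : Cz H.1) (x : GK0 k H.1) :
    btG k G (ZK.of H z x) = nz H.1.subtype (z : G) (fin_comm G H z) x :=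
  ZK.lift_of _ _ _ H z x

variable {G}

theorem btG_sz {C : Type} [Group C] [Finite C] (φ : C →* G) (z : G)
    (hz : ∀ c, z * φ c = φ c * z) (u : GK0 k C) : btG k G (sz k φ z hz u) = nz φ z hz u := by
  rw [sz_apply, btG_of]
  exact nz_conj (rg φ).1.subtype φ (rrg φ) 1 (fun x => by
    rw [one_mul, inv_one, mul_one]; rfl) z z _ hz (by group) u

end beta

section cc

variable {R S : Type} [CommRing R] [CommRing S] (θ : R →+* S) {G : Type} [Group G]

/-- change of the ring for `K₀` of group rings -/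
def gc (H : Type) [Group H] : GK0 R H →+ GK0 S H := K0.map (mapRingHom H θ)

theorem gc_map {H K : Type} [Group H] [Group K] (φ : H →* K) (x : GK0 R H) :
    gc θ K (GK0.map φ x) = GK0.map φ (gc θ H x) :=
  (KS.coef_group' θ φ (x : K0 (MonoidAlgebra R H))).symm

variable (G) in
/-- change of the ring for the groups of symbols -/
def ccZ : ZK R G →+ ZK S G :=
  ZK.lift (fun H z => (ZK.hom H z).comp (gc θ H.1))
    (fun H z z' x => ZK.of_mul H z z' (gc θ H.1 x))
    (fun H K g φ z z' hφ hz x => by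
      show ZK.of K z' (gc θ K.1 (GK0.map φ x)) = ZK.of H z (gc θ H.1 x)
      rw [gc_map]
      exact ZK.of_rel H K g φ z z' hφ hz _)

theorem ccZ_of (H : FinSub G) (z : Cz H.1) (x : GK0 R H.1) :
    ccZ θ G (ZK.of H z x) = ZK.of H z (gc θ H.1 x) := ZK.lift_of _ _ _ H z x

theorem ccZ_sz {C : Type} [Group C] [Finite C] (φ : C →* G) (z : G)
    (hz : ∀ c, z * φ c = φ c * z) (u : GK0 R C) :
    ccZ θ G (sz R φ z hz u) = sz S φ z hz (gc θ C u) := by
  rw [sz_apply, ccZ_of, gc_map]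
  rfl

theorem btG_ccZ (x : ZK R G) : btG S G (ccZ θ G x) = K1map (mapRingHom G θ) (btG R G x) := by
  induction x using ZK.induction with
  | h0 => simp
  | hadd x y hx hy => rw [map_add, map_add, map_add, map_add, hx, hy]
  | hneg x hx => rw [map_neg, map_neg, map_neg, map_neg, hx]
  | hι H z x =>
    rw [ccZ_of, btG_of, btG_of, nz_target]
    rfl

end cc

section trc

variable {F : Type} [Field F] [CharZero F] {G : Type} [Group G]

theorem Tr_sz {R : Type} [CommRing R] {c : G} {χ : G → ℤ} (hχ : AddOnC c χ) {C : Type}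
    [CommGroup C] [Fintype C] (φ : C →* G) (z : G) (hz : ∀ c, z * φ c = φ c * z)
    (u : K0 (MonoidAlgebra R C)) :
    Tr R hχ (nz φ z hz u) = ∑ y, bb R u y * cocf c (fun g => ((χ g : ℤ) : R)) (φ y * z⁻¹) z := by
  unfold Tr
  rw [Dn_nz]
  rfl

theorem ZObj.tr_val (X : ZObj F G) {c : G} {χ : G → ℤ} (hχ : AddOnC c χ) :
    Tr F hχ (btG F G (X.val (dF F) tfF)) = X.trc (dF F) c (fun g => (dF F).j (χ g)) := by
  classical
  have := Fintype.ofFinite X.C
  show Tr F hχ (btG F G (sz F X.φ X.z X.hz (gq (dF F) X.C (kap (ma_tf tfF) X.u)))) =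
    tau (dF F) c (fun g => (dF F).j (χ g)) X.φ X.z X.u
  rw [btG_sz, Tr_sz, tau_eq]
  refine Finset.sum_congr rfl fun y _ => ?_
  congr 1
  rw [gq_id, bb_kap tfF]
  rfl

theorem tr_sum {ι : Type} (s : Finset ι) (X : ι → ZObj F G) {c : G} {χ : G → ℤ}
    (hχ : AddOnC c χ) : Tr F hχ (btG F G (∑ i ∈ s, (X i).val (dF F) tfF)) =
      ∑ i ∈ s, (X i).trc (dF F) c (fun g => (dF F).j (χ g)) := by
  rw [map_sum, map_sum]
  exact Finset.sum_congr rfl fun i _ => (X i).tr_val hχ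

theorem ZObj.trc_ord {c : G} {χ : G → F} {X : ZObj F G} (h : X.trc (dF F) c χ ≠ 0) :
    orderOf c = Nat.card X.C := by
  obtain ⟨y, hy, hc⟩ := ZObj.trc_ne (dF F) h
  obtain ⟨s, hs⟩ := isConj_iff.1 hc
  have h1 : orderOf (X.φ y) = orderOf c := by
    rw [← hs]
    exact (MulAut.conj s).orderOf_eq c
  rw [← h1, orderOf_injective X.φ X.inj, ← Nat.card_zpowers, hy, Subgroup.card_top]

end trc

section loc

variable {p : ℕ} [hp : Fact p.Prime] {G : Type} [Group G]

/-- **The local statement.** -/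
theorem loc_main (y : ZK ℚ_[p] G)
    (h0 : ∀ (c : G) (χ : G → ℤ) (hχ : AddOnC c χ), 0 < orderOf c → p ∣ orderOf c →
      Tr ℚ_[p] hχ (btG ℚ_[p] G y) = 0) :
    ∃ (m : ℕ) (w : ZK ℤ_[p] G), 0 < m ∧
      m • y - ccZ (PadicInt.Coe.ringHom (p := p)) G w ∈ DvG ℚ_[p] G ℤ := by
  classical
  obtain ⟨m, hm, N, X, hX⟩ := ZK_mem y
  have hsum : ∀ {A : Type} [AddCommGroup A] (f : Fin N → A),
      ∑ i ∈ Finset.univ.filter (fun i => p ∣ Nat.card (X i).C), f i +
        ∑ i ∈ Finset.univ.filter (fun i => ¬ p ∣ Nat.card (X i).C), f i = ∑ i, f i := fun f =>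
    Finset.sum_filter_add_sum_filter_not Finset.univ _ f
  have h1 : ∀ c : G, 0 < orderOf c → ∀ χ : G → ℤ, AddOnC c χ →
      ∑ i ∈ Finset.univ.filter (fun i => p ∣ Nat.card (X i).C),
        (X i).trc (dF ℚ_[p]) c (fun g => (dF ℚ_[p]).j (χ g)) = 0 := by
    intro c hc χ hχ
    by_cases hpc : p ∣ orderOf c
    · have h2 := hsum (fun i => (X i).trc (dF ℚ_[p]) c (fun g => (dF ℚ_[p]).j (χ g)))
      have h3 : ∑ i ∈ Finset.univ.filter (fun i => ¬ p ∣ Nat.card (X i).C),
          (X i).trc (dF ℚ_[p]) c (fun g => (dF ℚ_[p]).j (χ g)) = 0 := by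
        refine Finset.sum_eq_zero fun i hi => ?_
        by_contra h4
        have h5 := ZObj.trc_ord h4
        exact (Finset.mem_filter.1 hi).2 (h5 ▸ hpc)
      rw [h3, add_zero] at h2
      rw [h2, ← tr_sum Finset.univ X hχ, ← hX, map_nsmul, map_nsmul, h0 c χ hχ hc hpc, smul_zero]
    · refine Finset.sum_eq_zero fun i hi => ?_
      by_contra h4
      have h5 := ZObj.trc_ord h4
      exact hpc (h5 ▸ (Finset.mem_filter.1 hi).2)
  obtain ⟨n, hn, hd⟩ := global_dv (dF ℚ_[p]) tfF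
    (Finset.univ.filter (fun i => p ∣ Nat.card (X i).C)) X h1
  have h2 : ∀ i, ¬ p ∣ Nat.card (X i).C → ∃ w : ZK ℤ_[p] G,
      ccZ (PadicInt.Coe.ringHom (p := p)) G w = (X i).val (dF ℚ_[p]) tfF := by
    intro i hi
    obtain ⟨w, hw⟩ := int_surj Pool.Agent.Y43.NK.int Pool.Agent.Y350.NK.gen (X i).C hi
      (gq (dF ℚ_[p]) (X i).C (kap (ma_tf tfF) (X i).u) : K0 (MonoidAlgebra ℚ_[p] (X i).C))
    refine ⟨sz ℤ_[p] (X i).φ (X i).z (X i).hz w, ?_⟩
    rw [ccZ_sz]
    exact congrArg (sz ℚ_[p] (X i).φ (X i).z (X i).hz) hw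
  choose! w hw using h2
  refine ⟨n * m, n • ∑ i ∈ Finset.univ.filter (fun i => ¬ p ∣ Nat.card (X i).C), w i,
    Nat.mul_pos hn hm, ?_⟩
  rw [mul_smul, hX, map_nsmul, map_sum, Finset.sum_congr rfl fun i hi =>
    hw i (Finset.mem_filter.1 hi).2, ← smul_sub, ← hsum, add_sub_cancel_right]
  exact hd

end loc

end

end Pool.Agent.T9h42.Q
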