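import Pool.Agent.Y778.NK.KMS
import Pool.Agent.T9h42.DP.Stm

/-!
# Definitions for the statement in degree zero

The groups `KM P H` and `KF P H` (which are `K₋₁(ℤ[H])` if `H` is finite and `P` is the set of all
primes) are those of `Pool.Agent.Y778.NK.KMS`.
-/

namespace Pool.Agent.T9h42.KZ

open MonoidAlgebra Pool.Agent.Y778.NK Pool.Agent.Y778.NK.KS Pool.Agent.Y69 Pool.Agent.Y69.FJK
  Pool.Agent.T9h42

noncomputable section

/-- The set of the symbols `[H, z, x]`, for `H` a finite subgroup of `G`, `z` in the centralizer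
of `H` and `x ∈ KM(P, H)`. -/
def MSym (P : Set Nat.Primes) (G : Type) [Group G] : Type := Σ H : FinSub G, Cz H.1 × KF P H

/-- The symbol `[H, z, x]` as an element of the free abelian group on the symbols. -/
def msym {P : Set Nat.Primes} {G : Type} [Group G] (H : FinSub G) (z : Cz H.1) (x : KF P H) :
    FreeAbelianGroup (MSym P G) :=
  FreeAbelianGroup.of ⟨H, z, x⟩

/-- The relations between the symbols: `[H, z, x]` is additive in `x` and in `z`, and
`[K, g z g⁻¹, φ(x)] = [H, z, x]` if `φ : H → K` is given by conjugation with `g` and `g z g⁻¹`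
is in the centralizer of `K`. -/
def MRel (P : Set Nat.Primes) (G : Type) [Group G] : Set (FreeAbelianGroup (MSym P G)) :=
  {w | (∃ (H : FinSub G) (z : Cz H.1) (x y : KF P H),
      w = msym H z (x + y) - (msym H z x + msym H z y)) ∨
    (∃ (H : FinSub G) (z z' : Cz H.1) (x : KF P H),
      w = msym H (z * z') x - (msym H z x + msym H z' x)) ∨
    ∃ (H K : FinSub G) (g : G) (φ : H.1 →* K.1) (z : Cz H.1) (z' : Cz K.1) (x : KF P H),
      (∀ h : H.1, (φ h : G) = g * h * g⁻¹) ∧ (z' : G) = g * z * g⁻¹ ∧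
        w = msym K z' (KF.map P φ x) - msym H z x}

/-- The abelian group generated by the symbols `[H, z, x]` with the above relations. -/
def ZM (P : Set Nat.Primes) (G : Type) [Group G] : Type :=
  FreeAbelianGroup (MSym P G) ⧸ AddSubgroup.closure (MRel P G)

instance (P : Set Nat.Primes) (G : Type) [Group G] : AddCommGroup (ZM P G) :=
  QuotientAddGroup.Quotient.addCommGroup (AddSubgroup.closure (MRel P G))

/-- The symbol `[H, z, x]`. -/
def ZM.of {P : Set Nat.Primes} {G : Type} [Group G] (H : FinSub G) (z : Cz H.1) (x : KF P H) :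
    ZM P G := QuotientAddGroup.mk (msym H z x)

/-- The subgroup generated by the symbols `[C, z, x]`, where `C` is cyclic and all homomorphisms
from the centralizer of `C` to the integers vanish at `z`. -/
def DvM (P : Set Nat.Primes) (G : Type) [Group G] : AddSubgroup (ZM P G) :=
  AddSubgroup.closure {y | ∃ (H : FinSub G) (z : Cz H.1) (x : KF P H),
    IsCyclic H.1 ∧ (∀ χ : Cz H.1 →* Multiplicative ℤ, χ z = 1) ∧ y = ZM.of H z x}

/-- The map `K₁(ℚ[G]) → K₁(ℚ_p[G])`. -/
def oneQ (p : Nat.Primes) (G : Type) [Group G] : GK1 ℚ G →+ GK1 ℚ_[(p : ℕ)] G :=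
  Pool.Agent.Y69.FJ.K1.map (mapRingHom G (algebraMap ℚ ℚ_[(p : ℕ)]))

/-- The map `K₁(ℤ_p[G]) → K₁(ℚ_p[G])`. -/
def oneZp (p : Nat.Primes) (G : Type) [Group G] : GK1 ℤ_[(p : ℕ)] G →+ GK1 ℚ_[(p : ℕ)] G :=
  Pool.Agent.Y69.FJ.K1.map (mapRingHom G (PadicInt.Coe.ringHom (p := (p : ℕ))))

/-- The direct sum of the groups `K₁(ℚ_p[G])`, `p` in a set `P` of primes. -/
def LocOne (P : Set Nat.Primes) (G : Type) [Group G] : Type :=
  Π₀ p : P, GK1 ℚ_[((p : Nat.Primes) : ℕ)] G

instance (P : Set Nat.Primes) (G : Type) [Group G] : AddCommGroup (LocOne P G) :=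
  DFinsupp.addCommGroup

/-- The component at `p`. -/
def LocOne.at {P : Set Nat.Primes} {G : Type} [Group G] (z : LocOne P G) (p : P) :
    GK1 ℚ_[((p : Nat.Primes) : ℕ)] G :=
  (show Π₀ p : P, GK1 ℚ_[((p : Nat.Primes) : ℕ)] G from z) p

/-- There is an element `b` of `K₁(ℚ[G])` such that `z_p - b` comes from `K₁(ℤ_p[G])` for all `p`
in `P`. -/
def IsGlobOne {P : Set Nat.Primes} {G : Type} [Group G] (z : LocOne P G) : Prop :=
  ∃ b : GK1 ℚ G, ∀ p : P, ∃ a : GK1 ℤ_[((p : Nat.Primes) : ℕ)] G, z.at p = oneQ p G b + oneZp p G a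

theorem IsGlobOne.zero {P : Set Nat.Primes} {G : Type} [Group G] : IsGlobOne (0 : LocOne P G) :=
  ⟨0, fun p => ⟨0, by rw [map_zero, map_zero, add_zero]; rfl⟩⟩

theorem IsGlobOne.add {P : Set Nat.Primes} {G : Type} [Group G] {z z' : LocOne P G}
    (hz : IsGlobOne z) (hz' : IsGlobOne z') : IsGlobOne (z + z') := by
  obtain ⟨b, h⟩ := hz
  obtain ⟨b', h'⟩ := hz'
  refine ⟨b + b', fun p => ?_⟩
  obtain ⟨a, ha⟩ := h p
  obtain ⟨a', ha'⟩ := h' p
  have h1 : (z + z').at p = z.at p + z'.at p := rfl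
  exact ⟨a + a', by rw [h1, ha, ha', map_add, map_add]; abel⟩

theorem IsGlobOne.neg {P : Set Nat.Primes} {G : Type} [Group G] {z : LocOne P G}
    (hz : IsGlobOne z) : IsGlobOne (-z) := by
  obtain ⟨b, h⟩ := hz
  refine ⟨-b, fun p => ?_⟩
  obtain ⟨a, ha⟩ := h p
  have h1 : (-z).at p = -z.at p := rfl
  exact ⟨-a, by rw [h1, ha, map_neg, map_neg]; abel⟩

/-- The subgroup of the families `z` with `IsGlobOne z`. -/
def GlobOne (P : Set Nat.Primes) (G : Type) [Group G] : AddSubgroup (LocOne P G) where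
  carrier := {z | IsGlobOne z}
  zero_mem' := IsGlobOne.zero
  add_mem' := IsGlobOne.add
  neg_mem' := IsGlobOne.neg

/-- The cokernel of `K₁(ℚ[G]) → ⨁ K₁(ℚ_p[G]) / K₁(ℤ_p[G])`, `p` in a set `P` of primes. For the set
of all primes it is a subgroup of `K₀(ℤ[G])`. -/
def KO (P : Set Nat.Primes) (G : Type) [Group G] : Type := LocOne P G ⧸ GlobOne P G

instance (P : Set Nat.Primes) (G : Type) [Group G] : AddCommGroup (KO P G) :=
  QuotientAddGroup.Quotient.addCommGroup (GlobOne P G)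

/-- The class in `KM(P, H)` of the family with component `x` at `p` and all other components `0`. -/
def KF.at {P : Set Nat.Primes} {G : Type} [Group G] (H : FinSub G) (p : P)
    (x : KQp (p : Nat.Primes) H.1) : KF P H :=
  QuotientAddGroup.mk' (Glob P H.1) (DFinsupp.single (β := fun p : P => KQp p H.1) p x : Loc P H.1)

/-- The class in `KO(P, G)` of the family with component `x` at `p` and all other components `0`. -/
def KO.at {P : Set Nat.Primes} {G : Type} [Group G] (p : P)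
    (x : GK1 ℚ_[((p : Nat.Primes) : ℕ)] G) : KO P G :=
  QuotientAddGroup.mk' (GlobOne P G)
    (DFinsupp.single (β := fun p : P => GK1 ℚ_[((p : Nat.Primes) : ℕ)] G) p x : LocOne P G)

/-- The class of an idempotent matrix in `K₀(ℚ_p[H])`. -/
def KQp.mk {p : Nat.Primes} {H : Type} [Group H] {n : ℕ}
    (e : IdMat (MonoidAlgebra ℚ_[(p : ℕ)] H) n) : KQp p H :=
  (K0.mk e : K0 (MonoidAlgebra ℚ_[(p : ℕ)] H))

/-- `β [H, z, [e]_p] = [1 - e + e z]_p`. -/
def IsTwistZ {P : Set Nat.Primes} {G : Type} [Group G] (β : ZM P G →+ KO P G) : Prop :=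
  ∀ (p : P) (H : FinSub G) (z : Cz H.1) (n : ℕ)
    (e : IdMat (MonoidAlgebra ℚ_[((p : Nat.Primes) : ℕ)] H.1) n),
    ∃ M : (Matrix (Fin n) (Fin n) (MonoidAlgebra ℚ_[((p : Nat.Primes) : ℕ)] G))ˣ,
      (M : Matrix (Fin n) (Fin n) (MonoidAlgebra ℚ_[((p : Nat.Primes) : ℕ)] G)) = twMat H z e ∧
        β (ZM.of H z (KF.at H p (KQp.mk e))) = KO.at p (GK1.mk M)

/-- If `β(ξ)` has finite order, then a positive multiple of `ξ` is in `S`. -/
def KerInZ {P : Set Nat.Primes} {G : Type} [Group G] (β : ZM P G →+ KO P G)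
    (S : AddSubgroup (ZM P G)) : Prop :=
  ∀ (ξ : ZM P G) (n : ℕ), 0 < n → n • β ξ = 0 → ∃ l : ℕ, 0 < l ∧ l • ξ ∈ S

/-- The map `β` is injective up to torsion. -/
def RatInjZ {P : Set Nat.Primes} {G : Type} [Group G] (β : ZM P G →+ KO P G) : Prop :=
  ∀ (ξ : ZM P G) (n : ℕ), 0 < n → n • β ξ = 0 → ∃ l : ℕ, 0 < l ∧ l • ξ = 0

/-- If `C` is a finite cyclic subgroup, then every element of the centralizer of `C` at which all
homomorphisms to the integers vanish has a positive power in the commutator subgroup of the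
centralizer. -/
def ZSep (G : Type) [Group G] : Prop :=
  ∀ (C : FinSub G) (z : Cz C.1), IsCyclic C.1 →
    (∀ χ : Cz C.1 →* Multiplicative ℤ, χ z = 1) → ∃ m, 0 < m ∧ z ^ m ∈ commutator (Cz C.1)

end

end Pool.Agent.T9h42.KZ
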