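import Pool.Agent.T9h42.GZ.AvgQ
import Pool.Agent.T9h42.GZ.StmZ

/-!
# The map in degree zero and its kernel
-/

set_option linter.unusedSectionVars false

namespace Pool.Agent.T9h42.KZ

open MonoidAlgebra H970SH H842 Pool.Agent.Y69 Pool.Agent.Y69.StepC Pool.Agent.Y778.NK
  Pool.Agent.Y778.NK.KS Pool.Agent.T9h42 Pool.Agent.T9h42.Q
open Pool.Agent.Y69.FJK (GK1)

noncomputable section

section api

variable {P : Set Nat.Primes} {G : Type} [Group G]

theorem ZM.mk_rel {w : FreeAbelianGroup (MSym P G)} (h : w ∈ MRel P G) :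
    (QuotientAddGroup.mk w : ZM P G) = 0 :=
  (QuotientAddGroup.eq_zero_iff w).2 (AddSubgroup.subset_closure h)

theorem ZM.of_add (H : FinSub G) (z : Cz H.1) (x y : KF P H) :
    ZM.of H z (x + y) = ZM.of H z x + ZM.of H z y :=
  sub_eq_zero.1 (ZM.mk_rel (Or.inl ⟨H, z, x, y, rfl⟩))

theorem ZM.of_mul (H : FinSub G) (z z' : Cz H.1) (x : KF P H) :
    ZM.of H (z * z') x = ZM.of H z x + ZM.of H z' x :=
  sub_eq_zero.1 (ZM.mk_rel (Or.inr (Or.inl ⟨H, z, z', x, rfl⟩)))

theorem ZM.of_rel (H K : FinSub G) (g : G) (φ : H.1 →* K.1) (z : Cz H.1) (z' : Cz K.1)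
    (hφ : ∀ h : H.1, (φ h : G) = g * h * g⁻¹) (hz : (z' : G) = g * z * g⁻¹) (x : KF P H) :
    ZM.of K z' (KF.map P φ x) = ZM.of H z x :=
  sub_eq_zero.1 (ZM.mk_rel (Or.inr (Or.inr ⟨H, K, g, φ, z, z', x, hφ, hz, rfl⟩)))

/-- additivity in `x` -/
def ZM.hom (H : FinSub G) (z : Cz H.1) : KF P H →+ ZM P G where
  toFun := ZM.of H z
  map_zero' := by
    have h := ZM.of_add H z (0 : KF P H) 0
    rw [add_zero] at h
    exact left_eq_add.1 h
  map_add' := ZM.of_add H z

/-- additivity in `z` -/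
def ZM.zhom (H : FinSub G) (x : KF P H) : Cz H.1 →* Multiplicative (ZM P G) where
  toFun z := Multiplicative.ofAdd (ZM.of H z x)
  map_one' := by
    have h := ZM.of_mul H 1 1 x
    rw [mul_one] at h
    exact congrArg Multiplicative.ofAdd (left_eq_add.1 h)
  map_mul' z z' := congrArg Multiplicative.ofAdd (ZM.of_mul H z z' x)

theorem ZM.of_pow (H : FinSub G) (z : Cz H.1) (n : ℕ) (x : KF P H) :
    ZM.of H (z ^ n) x = n • ZM.of H z x :=
  congrArg Multiplicative.toAdd (map_pow (ZM.zhom H x) z n)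

/-- the map on the free abelian group -/
def ZM.pre {B : Type*} [AddCommGroup B] (f : ∀ H : FinSub G, Cz H.1 → (KF P H →+ B)) :
    FreeAbelianGroup (MSym P G) →+ B :=
  FreeAbelianGroup.lift fun s => f s.1 s.2.1 s.2.2

theorem ZM.pre_sym {B : Type*} [AddCommGroup B] (f : ∀ H : FinSub G, Cz H.1 → (KF P H →+ B))
    (H : FinSub G) (z : Cz H.1) (x : KF P H) : ZM.pre f (msym H z x) = f H z x :=
  FreeAbelianGroup.lift_apply_of _ _

theorem ZM.pre_aux {B : Type*} [AddCommGroup B] (f : ∀ H : FinSub G, Cz H.1 → (KF P H →+ B))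
    (hmul : ∀ (H : FinSub G) (z z' : Cz H.1) (x), f H (z * z') x = f H z x + f H z' x)
    (hf : ∀ (H K : FinSub G) (g : G) (φ : H.1 →* K.1) (z : Cz H.1) (z' : Cz K.1),
      (∀ h : H.1, (φ h : G) = g * h * g⁻¹) → (z' : G) = g * z * g⁻¹ →
      ∀ x, f K z' (KF.map P φ x) = f H z x) : AddSubgroup.closure (MRel P G) ≤ (ZM.pre f).ker := by
  rw [AddSubgroup.closure_le]
  rintro w (⟨H, z, x, y, rfl⟩ | ⟨H, z, z', x, rfl⟩ | ⟨H, K, g, φ, z, z', x, hφ, hz, rfl⟩)
  · show ZM.pre f _ = 0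
    rw [map_sub, map_add, ZM.pre_sym, ZM.pre_sym, ZM.pre_sym, sub_eq_zero, map_add]
  · show ZM.pre f _ = 0
    rw [map_sub, map_add, ZM.pre_sym, ZM.pre_sym, ZM.pre_sym, sub_eq_zero]
    exact hmul H z z' x
  · show ZM.pre f _ = 0
    rw [map_sub, ZM.pre_sym, ZM.pre_sym, sub_eq_zero]
    exact hf H K g φ z z' hφ hz x

/-- the universal property -/
def ZM.lift {B : Type*} [AddCommGroup B] (f : ∀ H : FinSub G, Cz H.1 → (KF P H →+ B))
    (hmul : ∀ (H : FinSub G) (z z' : Cz H.1) (x), f H (z * z') x = f H z x + f H z' x)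
    (hf : ∀ (H K : FinSub G) (g : G) (φ : H.1 →* K.1) (z : Cz H.1) (z' : Cz K.1),
      (∀ h : H.1, (φ h : G) = g * h * g⁻¹) → (z' : G) = g * z * g⁻¹ →
      ∀ x, f K z' (KF.map P φ x) = f H z x) : ZM P G →+ B :=
  QuotientAddGroup.lift (AddSubgroup.closure (MRel P G)) (ZM.pre f) (ZM.pre_aux f hmul hf)

theorem ZM.lift_of {B : Type*} [AddCommGroup B] (f : ∀ H : FinSub G, Cz H.1 → (KF P H →+ B))
    (hmul : ∀ (H : FinSub G) (z z' : Cz H.1) (x), f H (z * z') x = f H z x + f H z' x)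
    (hf : ∀ (H K : FinSub G) (g : G) (φ : H.1 →* K.1) (z : Cz H.1) (z' : Cz K.1),
      (∀ h : H.1, (φ h : G) = g * h * g⁻¹) → (z' : G) = g * z * g⁻¹ →
      ∀ x, f K z' (KF.map P φ x) = f H z x) (H : FinSub G) (z : Cz H.1) (x : KF P H) :
    ZM.lift f hmul hf (ZM.of H z x) = f H z x := by
  show QuotientAddGroup.lift _ _ _ (QuotientAddGroup.mk _) = _
  rw [QuotientAddGroup.lift_mk, ZM.pre_sym]

theorem ZM.induction {Q : ZM P G → Prop} (h0 : Q 0)
    (hadd : ∀ x y, Q x → Q y → Q (x + y)) (hneg : ∀ x, Q x → Q (-x))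
    (hι : ∀ (H : FinSub G) (z : Cz H.1) (x : KF P H), Q (ZM.of H z x)) (w : ZM P G) : Q w := by
  let q : FreeAbelianGroup (MSym P G) →+ ZM P G :=
    QuotientAddGroup.mk' (AddSubgroup.closure (MRel P G))
  obtain ⟨y, rfl⟩ : ∃ y, q y = w := QuotientAddGroup.mk'_surjective _ w
  induction y using FreeAbelianGroup.induction_on with
  | zero => rw [map_zero]; exact h0
  | of y => exact hι y.1 y.2.1 y.2.2
  | neg y h => rw [map_neg]; exact hneg _ h
  | add y z hy hz => rw [map_add]; exact hadd _ _ hy hz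

end api

section beta

variable (P : Set Nat.Primes) {G : Type} [Group G]

/-- the local groups -/
abbrev L0 (P : Set Nat.Primes) (H : Type) [Group H] (p : P) : Type :=
  KQp (p : Nat.Primes) H

/-- the local groups -/
abbrev L1 (P : Set Nat.Primes) (G : Type) [Group G] (p : P) : Type :=
  GK1 ℚ_[((p : Nat.Primes) : ℕ)] G

/-- the local maps -/
def nzp (p : P) {H : Type} [Group H] (φ : H →* G) (z : G) (hz : ∀ c, z * φ c = φ c * z) :
    L0 P H p →+ L1 P G p := nz φ z hz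

/-- the sum of the local maps -/
def nzL {H : Type} [Group H] (φ : H →* G) (z : G) (hz : ∀ c, z * φ c = φ c * z) :
    Loc P H →+ LocOne P G :=
  DFinsupp.mapRange.addMonoidHom fun p => nzp P p φ z hz

theorem nzL_at {H : Type} [Group H] (φ : H →* G) (z : G) (hz : ∀ c, z * φ c = φ c * z)
    (x : Loc P H) (p : P) : (nzL P φ z hz x).at p = nzp P p φ z hz (x.at p) := rfl

theorem LocOne.ext {x y : LocOne P G} (h : ∀ p, x.at p = y.at p) : x = y :=
  DFinsupp.ext (β := L1 P G) h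

theorem nzL_glob {H : Type} [Group H] (φ : H →* G) (z : G) (hz : ∀ c, z * φ c = φ c * z) :
    Glob P H ≤ (GlobOne P G).comap (nzL P φ z hz) := by
  rintro x ⟨b, h⟩
  refine ⟨nz φ z hz (b : K0 (MonoidAlgebra ℚ H)), fun p => ?_⟩
  obtain ⟨a, ha⟩ := h p
  refine ⟨nz φ z hz (a : K0 (MonoidAlgebra ℤ_[((p : Nat.Primes) : ℕ)] H)), ?_⟩
  rw [nzL_at, ha, map_add]
  congr 1
  · exact (nz_target (algebraMap ℚ ℚ_[((p : Nat.Primes) : ℕ)]) φ z hz _).symm
  · exact (nz_target (PadicInt.Coe.ringHom (p := ((p : Nat.Primes) : ℕ))) φ z hz _).symm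

/-- the map of a symbol -/
def nzM {H : Type} [Group H] (φ : H →* G) (z : G) (hz : ∀ c, z * φ c = φ c * z) :
    KM P H →+ KO P G :=
  QuotientAddGroup.map (Glob P H) (GlobOne P G) (nzL P φ z hz) (nzL_glob P φ z hz)

theorem nzM_mul {C : Type} [Group C] (φ : C →* G) (z w : G)
    (hz : ∀ c, z * φ c = φ c * z) (hw : ∀ c, w * φ c = φ c * w)
    (hzw : ∀ c, (z * w) * φ c = φ c * (z * w)) (x : KM P C) :
    nzM P φ (z * w) hzw x = nzM P φ z hz x + nzM P φ w hw x := by
  obtain ⟨x, rfl⟩ := QuotientAddGroup.mk'_surjective (Glob P C) x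
  have h : nzL P φ (z * w) hzw x = nzL P φ z hz x + nzL P φ w hw x := by
    apply LocOne.ext
    intro p
    exact nz_mul φ z w hz hw hzw _
  exact congrArg (QuotientAddGroup.mk' (GlobOne P G)) h

theorem nzM_conj {C D : Type} [Group C] [Group D] (φ : C →* G) (ψ : D →* G) (f : D →* C) (g : G)
    (h : ∀ x, φ (f x) = g * ψ x * g⁻¹) (z z' : G) (hz : ∀ c, z * φ c = φ c * z)
    (hz' : ∀ c, z' * ψ c = ψ c * z') (hzz : z = g * z' * g⁻¹) (u : KM P D) :
    nzM P φ z hz (KM.map P f u) = nzM P ψ z' hz' u := by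
  obtain ⟨x, rfl⟩ := QuotientAddGroup.mk'_surjective (Glob P D) u
  have h1 : nzL P φ z hz (Loc.map P f x) = nzL P ψ z' hz' x := by
    apply LocOne.ext
    intro p
    exact nz_conj φ ψ f g h z z' hz hz' hzz _
  exact congrArg (QuotientAddGroup.mk' (GlobOne P G)) h1

variable (G)

/-- the map to `K₀` -/
def bM : ZM P G →+ KO P G :=
  ZM.lift (fun H z => nzM P H.1.subtype (z : G) (fin_comm G H z))
    (fun H z z' x => nzM_mul P H.1.subtype z z' (fin_comm G H z) (fin_comm G H z')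
      (fin_comm G H (z * z')) x)
    (fun H K g φ z z' hφ hz x => nzM_conj P K.1.subtype H.1.subtype φ g hφ z' z (fin_comm G K z')
      (fin_comm G H z) hz x)

theorem bM_of (H : FinSub G) (z : Cz H.1) (x : KF P H) :
    bM P G (ZM.of H z x) = nzM P H.1.subtype (z : G) (fin_comm G H z) x :=
  ZM.lift_of _ _ _ H z x

variable {G} {P}

/-- the projection -/
def km0 (P : Set Nat.Primes) (H : Type) [Group H] : Loc P H →+ KM P H :=
  QuotientAddGroup.mk' (Glob P H)

theorem km0_surj {H : Type} [Group H] (x : KM P H) : ∃ y, km0 P H y = x :=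
  QuotientAddGroup.mk'_surjective _ x

theorem km0_zero {H : Type} [Group H] (x : Loc P H) : km0 P H x = 0 ↔ IsGlob x :=
  QuotientAddGroup.eq_zero_iff x

/-- the projection -/
def ko (P : Set Nat.Primes) (G : Type) [Group G] : LocOne P G →+ KO P G :=
  QuotientAddGroup.mk' (GlobOne P G)

theorem ko_zero (x : LocOne P G) : ko P G x = 0 ↔ IsGlobOne x :=
  QuotientAddGroup.eq_zero_iff x

/-- single families -/
def si0 {H : Type} [Group H] (p : P) : L0 P H p →+ Loc P H := DFinsupp.singleAddHom (L0 P H) p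

/-- single families -/
def si1 (p : P) : L1 P G p →+ LocOne P G := DFinsupp.singleAddHom (L1 P G) p

/-- single families -/
def sg0 {H : Type} [Group H] (p : P) : L0 P H p →+ KM P H := (km0 P H).comp (si0 p)

/-- single families -/
def sg1 (p : P) : L1 P G p →+ KO P G := (ko P G).comp (si1 p)

theorem nzM_sg0 {H : Type} [Group H] (φ : H →* G) (z : G) (hz : ∀ c, z * φ c = φ c * z) (p : P)
    (x : L0 P H p) : nzM P φ z hz (sg0 p x) = sg1 p (nzp P p φ z hz x) := by
  have h : nzL P φ z hz (DFinsupp.single (β := L0 P H) p x : Loc P H) =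
      (DFinsupp.single (β := L1 P G) p (nzp P p φ z hz x) : LocOne P G) :=
    DFinsupp.mapRange_single (β₁ := L0 P H) (β₂ := L1 P G)
      (f := fun i : P => (nzp P i φ z hz : L0 P H i → L1 P G i)) (hf := fun i => map_zero _)
  exact congrArg (QuotientAddGroup.mk' (GlobOne P G)) h

theorem map_sg0 {H K : Type} [Group H] [Group K] (φ : H →* K) (p : P)
    (x : L0 P H p) : KM.map P φ (sg0 p x) = sg0 p (KQp.map p φ x) := by
  have h : Loc.map P φ (DFinsupp.single (β := L0 P H) p x : Loc P H) =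
      (DFinsupp.single (β := L0 P K) p (KQp.map p φ x) : Loc P K) :=
    DFinsupp.mapRange_single (β₁ := L0 P H) (β₂ := L0 P K)
      (f := fun i : P => (KQp.map (i : Nat.Primes) φ : L0 P H i → L0 P K i))
      (hf := fun i => map_zero _)
  exact congrArg (QuotientAddGroup.mk' (Glob P K)) h

/-- local groups of symbols -/
abbrev LZ (P : Set Nat.Primes) (G : Type) [Group G] (p : P) : Type :=
  ZK ℚ_[((p : Nat.Primes) : ℕ)] G

/-- the maps from the local groups of symbols -/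
def thm (p : P) : LZ P G p →+ ZM P G :=
  ZK.lift (fun H z => (ZM.hom H z).comp (sg0 p : L0 P H.1 p →+ KM P H.1))
    (fun H z z' x => ZM.of_mul H z z' _)
    (fun H K g φ z z' hφ hz x => by
      show ZM.of K z' (sg0 p (KQp.map p φ x)) = ZM.of H z (sg0 p x)
      rw [← map_sg0]
      exact ZM.of_rel H K g φ z z' hφ hz _)

theorem thm_of (p : P) (H : FinSub G) (z : Cz H.1) (x : GK0 ℚ_[((p : Nat.Primes) : ℕ)] H.1) :
    thm p (ZK.of H z x) = ZM.of H z (sg0 p x) := ZK.lift_of _ _ _ H z x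

/-- the sum of these maps -/
def Thm (P : Set Nat.Primes) (G : Type) [Group G] : (Π₀ p : P, LZ P G p) →+ ZM P G :=
  DFinsupp.sumAddHom fun p => thm p

theorem Thm_single (p : P) (y : LZ P G p) :
    Thm P G (DFinsupp.single (β := LZ P G) p y) = thm p y := DFinsupp.sumAddHom_single _ _ _

theorem Thm_surj (x : ZM P G) : ∃ ξ, Thm P G ξ = x := by
  induction x using ZM.induction with
  | h0 => exact ⟨0, map_zero _⟩
  | hadd x y hx hy =>
    obtain ⟨a, rfl⟩ := hx
    obtain ⟨b, rfl⟩ := hy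
    exact ⟨a + b, map_add _ _ _⟩
  | hneg x hx =>
    obtain ⟨a, rfl⟩ := hx
    exact ⟨-a, map_neg _ _⟩
  | hι H z x =>
    obtain ⟨y, hy⟩ := km0_surj (P := P) (H := H.1) x
    have key : ∀ y : Π₀ p : P, L0 P H.1 p, ∃ ξ, Thm P G ξ = ZM.of H z (km0 P H.1 y) := by
      intro y
      induction y using DFinsupp.induction with
      | h0 =>
        refine ⟨0, ?_⟩
        rw [map_zero]
        exact ((congrArg (ZM.hom H z) (map_zero (km0 P H.1))).trans
            (map_zero (ZM.hom H z))).symm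
      | ha p b f _ _ ih =>
        obtain ⟨ξ, hξ⟩ := ih
        refine ⟨DFinsupp.single (β := LZ P G) p (ZK.of H z b) + ξ, ?_⟩
        rw [map_add, hξ, Thm_single, thm_of]
        have h1 : km0 P H.1 (DFinsupp.single (β := L0 P H.1) p b + f : Π₀ p : P, L0 P H.1 p) =
            (km0 P H.1 (si0 p b) + km0 P H.1 f : KM P H.1) := map_add (km0 P H.1) _ _
        exact ((congrArg (ZM.hom H z) h1).trans (map_add (ZM.hom H z) _ _)).symm
    obtain ⟨ξ, hξ⟩ := key y
    refine ⟨ξ, hξ.trans ?_⟩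
    exact congrArg (ZM.of H z) hy

theorem bM_thm (p : P) (y : LZ P G p) : bM P G (thm p y) = sg1 p (btG _ G y) := by
  induction y using ZK.induction with
  | h0 => rw [map_zero, map_zero, map_zero]; exact (map_zero (sg1 p)).symm
  | hadd x y hx hy =>
    rw [map_add, map_add, hx, hy, map_add]
    exact (map_add (sg1 p) _ _).symm
  | hneg x hx =>
    rw [map_neg, map_neg, hx, map_neg]
    exact (map_neg (sg1 p) _).symm
  | hι H z x =>
    rw [thm_of, bM_of, nzM_sg0, btG_of]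
    rfl

/-- the sum of the local maps -/
def bL (P : Set Nat.Primes) (G : Type) [Group G] : (Π₀ p : P, LZ P G p) →+ LocOne P G :=
  DFinsupp.mapRange.addMonoidHom fun p => (btG ℚ_[((p : Nat.Primes) : ℕ)] G : LZ P G p →+ L1 P G p)

theorem bL_at (ξ : Π₀ p : P, LZ P G p) (p : P) : (bL P G ξ).at p = btG _ G (ξ p) := rfl

theorem bL_single (p : P) (y : LZ P G p) : bL P G (DFinsupp.single (β := LZ P G) p y) =
    (DFinsupp.single (β := L1 P G) p (btG _ G y : L1 P G p) : LocOne P G) :=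
  DFinsupp.mapRange_single (β₁ := LZ P G) (β₂ := L1 P G)
    (f := fun i : P => ((btG ℚ_[((i : Nat.Primes) : ℕ)] G : LZ P G i →+ L1 P G i) :
      LZ P G i → L1 P G i)) (hf := fun i => map_zero _)

theorem bM_Thm (ξ : Π₀ p : P, LZ P G p) :
    bM P G (Thm P G ξ) = ko P G (bL P G ξ) := by
  induction ξ using DFinsupp.induction with
  | h0 =>
    rw [map_zero, map_zero]
    exact ((congrArg (ko P G) (map_zero (bL P G))).trans (map_zero (ko P G))).symm
  | ha p y f _ _ ih =>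
    have h1 : bL P G (DFinsupp.single (β := LZ P G) p y + f) =
        si1 p (btG _ G y) + bL P G f :=
      (map_add (bL P G) _ _).trans (congrArg (· + bL P G f) (bL_single p y))
    rw [map_add, map_add, ih, Thm_single, bM_thm, h1, map_add]
    rfl

end beta

section fin

variable {P : Set Nat.Primes} {G : Type} [Group G]

theorem thm_zp (p : P) (w : ZK ℤ_[((p : Nat.Primes) : ℕ)] G) :
    thm p (ccZ PadicInt.Coe.ringHom G w) = 0 := by
  induction w using ZK.induction with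
  | h0 => rw [map_zero, map_zero]
  | hadd x y hx hy => rw [map_add, map_add, hx, hy, add_zero]
  | hneg x hx => rw [map_neg, map_neg, hx, neg_zero]
  | hι H z x =>
    rw [ccZ_of, thm_of]
    have h : (sg0 p (gc PadicInt.Coe.ringHom H.1 x : L0 P H.1 p) : KM P H.1) = 0 := by
      refine (km0_zero _).2 ?_
      refine ⟨0, fun q => ?_⟩
      by_cases hq : p = q
      · subst hq
        refine ⟨x, ?_⟩
        rw [map_zero, zero_add]
        exact DFinsupp.single_eq_same (β := L0 P H.1)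
      · refine ⟨0, ?_⟩
        rw [map_zero, map_zero, add_zero]
        exact DFinsupp.single_eq_of_ne (β := L0 P H.1) (Ne.symm hq)
    exact (congrArg (ZM.hom H z) h).trans (map_zero (ZM.hom H z))

theorem fromQ_map (q : Nat.Primes) {D H : Type} [Group D] [Group H] (f : D →* H)
    (x : K0 (MonoidAlgebra ℚ D)) :
    KS.fromQ q H (K0.map (mapDomainRingHom ℚ f) x : K0 (MonoidAlgebra ℚ H)) =
      KQp.map q f (KS.fromQ q D x) :=
  (coef_group' (algebraMap ℚ ℚ_[(q : ℕ)]) f x).symm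

theorem fromZp_map (q : Nat.Primes) {D H : Type} [Group D] [Group H] (f : D →* H)
    (x : K0 (MonoidAlgebra ℤ_[(q : ℕ)] D)) :
    KS.fromZp q H (K0.map (mapDomainRingHom ℤ_[(q : ℕ)] f) x :
      K0 (MonoidAlgebra ℤ_[(q : ℕ)] H)) = KQp.map q f (KS.fromZp q D x) :=
  (coef_group' (PadicInt.Coe.ringHom (p := (q : ℕ))) f x).symm

/-- the averaging idempotent over the `p`-adic integers -/
theorem avg_int' (p : Nat.Primes) (D : Type) [Group D] [Finite D] (hD : ¬ (p : ℕ) ∣ Nat.card D) :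
    ∃ a : K0 (MonoidAlgebra ℤ_[(p : ℕ)] D),
      K0.map (mapRingHom D (PadicInt.Coe.ringHom (p := (p : ℕ)))) a =
        K0.map (mapRingHom D (algebraMap ℚ ℚ_[(p : ℕ)])) (avgCl D) := by
  let _ := Fintype.ofFinite D
  have hu : IsUnit ((Nat.card D : ℕ) : ℤ_[(p : ℕ)]) := by
    rw [PadicInt.isUnit_iff]
    by_contra h
    have h1 := PadicInt.norm_le_one ((Nat.card D : ℕ) : ℤ_[(p : ℕ)])
    exact hD (PadicInt.norm_natCast_lt_one_iff.1 (lt_of_le_of_ne h1 h))
  obtain ⟨u, hu⟩ := hu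
  let e' : MonoidAlgebra ℤ_[(p : ℕ)] D := ∑ d : D, single d ((u⁻¹ : ℤ_[(p : ℕ)]ˣ) : ℤ_[(p : ℕ)])
  have h1 : mapRingHom D (PadicInt.Coe.ringHom (p := (p : ℕ))) e' =
      mapRingHom D (algebraMap ℚ ℚ_[(p : ℕ)]) (avg D) := by
    have h2 : PadicInt.Coe.ringHom (p := (p : ℕ)) ((u⁻¹ : ℤ_[(p : ℕ)]ˣ) : ℤ_[(p : ℕ)]) =
        algebraMap ℚ ℚ_[(p : ℕ)] ((Nat.card D : ℚ)⁻¹) := by
      rw [map_inv₀, map_natCast]
      apply eq_inv_of_mul_eq_one_left
      have h3 : ((Nat.card D : ℕ) : ℚ_[(p : ℕ)]) =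
          PadicInt.Coe.ringHom (p := (p : ℕ)) (u : ℤ_[(p : ℕ)]) := by
        rw [hu, map_natCast]
      rw [h3, ← map_mul, Units.inv_mul, map_one]
    unfold avg
    rw [map_sum, map_sum]
    refine Finset.sum_congr rfl fun d _ => ?_
    have h4 : ∀ {A B : Type} [CommRing A] [CommRing B] (θ : A →+* B) (r : A),
        mapRingHom D θ (single d r) = single d (θ r) := by
      intro A B _ _ θ r
      simp
    rw [h4, h4, h2]
  have hinj : Function.Injective (mapRingHom D (PadicInt.Coe.ringHom (p := (p : ℕ)))) :=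
    MonoidAlgebra.map_injective ((PadicInt.Coe.ringHom (p := (p : ℕ)) : ℤ_[(p : ℕ)] →+* ℚ_[(p : ℕ)]) :
      ℤ_[(p : ℕ)] →+ ℚ_[(p : ℕ)]) Subtype.val_injective
  have he : e' * e' = e' := by
    apply hinj
    rw [map_mul, h1, ← map_mul, avg_idem]
  refine ⟨cl1 e' he, ?_⟩
  unfold avgCl
  rw [map_cl1, map_cl1]
  congr 1

/-- the local classes of global averaging idempotents cancel -/
theorem avg_cancel' {v : ZK ℚ G} (hv : v ∈ AvgZ G) : ∃ S0 : Finset P, ∀ S : Finset P, S0 ⊆ S →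
    ∑ p ∈ S, thm p (ccZ (algebraMap ℚ ℚ_[((p : Nat.Primes) : ℕ)]) G v) = 0 := by
  classical
  unfold AvgZ at hv
  induction hv using AddSubgroup.closure_induction with
  | mem v hv =>
    obtain ⟨H, z, D, _, _, f, rfl⟩ := hv
    have hfin : {p : P | ((p : Nat.Primes) : ℕ) ∣ Nat.card D}.Finite := by
      have h1 : Set.MapsTo (fun p : P => ((p : Nat.Primes) : ℕ))
          {p : P | ((p : Nat.Primes) : ℕ) ∣ Nat.card D} (Nat.divisors (Nat.card D)) := by
        intro p hp
        exact Finset.mem_coe.2 (Nat.mem_divisors.2 ⟨hp, Nat.card_pos.ne'⟩)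
      refine Set.Finite.of_injOn h1 ?_ (Finset.finite_toSet _)
      intro p _ q _ hpq
      exact Subtype.ext (Subtype.ext hpq)
    refine ⟨hfin.toFinset, fun S hS => ?_⟩
    let x : K0 (MonoidAlgebra ℚ H.1) := K0.map (mapDomainRingHom ℚ f) (avgCl D)
    let y : P → Loc P H.1 := fun p =>
      (DFinsupp.single (β := L0 P H.1) p (KS.fromQ (p : Nat.Primes) H.1 x) : Loc P H.1)
    have e1 : ∀ p ∈ S, thm p (ccZ (algebraMap ℚ ℚ_[((p : Nat.Primes) : ℕ)]) G
        (ZK.of H z (GK0.map f (avgCl D)))) =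
        ZM.hom H z (km0 P H.1 (y p)) := by
      intro p _
      rw [ccZ_of, thm_of]
      rfl
    have e2 : km0 P H.1 (∑ p ∈ S, y p) = 0 := by
      refine (km0_zero _).2 ?_
      refine ⟨x, fun q => ?_⟩
      have e3 : (∑ p ∈ S, y p).at q = ∑ p ∈ S, (y p).at q :=
        DFinsupp.finsetSum_apply (β := L0 P H.1) S y q
      rw [e3]
      by_cases hq : q ∈ S
      · refine ⟨0, ?_⟩
        rw [Finset.sum_eq_single q, map_zero, add_zero]
        · exact DFinsupp.single_eq_same (β := L0 P H.1)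
        · intro p _ hpq
          exact DFinsupp.single_eq_of_ne (β := L0 P H.1) (Ne.symm hpq)
        · intro h; exact absurd hq h
      · have hqd : ¬ ((q : Nat.Primes) : ℕ) ∣ Nat.card D := by
          intro h
          exact hq (hS (hfin.mem_toFinset.2 h))
        obtain ⟨a, ha⟩ := avg_int' (q : Nat.Primes) D hqd
        refine ⟨(-(K0.map (mapDomainRingHom _ f) a) :
          K0 (MonoidAlgebra ℤ_[((q : Nat.Primes) : ℕ)] H.1)), ?_⟩
        have e4 : KS.fromZp (q : Nat.Primes) H.1 (-(K0.map (mapDomainRingHom _ f) a) :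
          K0 (MonoidAlgebra ℤ_[((q : Nat.Primes) : ℕ)] H.1)) =
            -(KS.fromQ (q : Nat.Primes) H.1 x) := by
          refine (map_neg (KS.fromZp (q : Nat.Primes) H.1) _).trans ?_
          congr 1
          refine (fromZp_map (q : Nat.Primes) f a).trans ?_
          refine Eq.trans ?_ (fromQ_map (q : Nat.Primes) f (avgCl D)).symm
          exact congrArg (KQp.map (q : Nat.Primes) f) ha
        rw [e4, add_neg_cancel]
        refine Finset.sum_eq_zero fun p hp => ?_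
        exact DFinsupp.single_eq_of_ne (β := L0 P H.1) (fun h => hq (h ▸ hp))
    rw [Finset.sum_congr rfl e1]
    refine (map_sum (ZM.hom H z) (fun p => (km0 P H.1 (y p) : KM P H.1)) S).symm.trans ?_
    have e5 : ∑ p ∈ S, km0 P H.1 (y p) = 0 := (map_sum (km0 P H.1) y S).symm.trans e2
    exact (congrArg (ZM.hom H z) e5).trans (map_zero (ZM.hom H z))
  | zero => exact ⟨∅, fun S _ => Finset.sum_eq_zero fun p _ => by rw [map_zero, map_zero]⟩
  | add x y _ _ hx hy =>
    obtain ⟨S1, h1⟩ := hx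
    obtain ⟨S2, h2⟩ := hy
    refine ⟨S1 ∪ S2, fun S hS => ?_⟩
    have h3 := h1 S (Finset.union_subset_left hS)
    have h4 := h2 S (Finset.union_subset_right hS)
    simp only [map_add, Finset.sum_add_distrib, h3, h4, add_zero]
  | neg x _ hx =>
    obtain ⟨S1, h1⟩ := hx
    refine ⟨S1, fun S hS => ?_⟩
    simp only [map_neg, Finset.sum_neg_distrib, h1 S hS, neg_zero]

theorem thm_dv (p : P) {d : LZ P G p} (hd : d ∈ DvG ℚ_[((p : Nat.Primes) : ℕ)] G ℤ) :
    thm p d ∈ DvM P G := by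
  refine (AddSubgroup.closure_le (K := (DvM P G).comap (thm p))).2 ?_ hd
  rintro _ ⟨H, z, x, hH, hz, rfl⟩
  show thm p _ ∈ DvM P G
  rw [thm_of]
  exact AddSubgroup.subset_closure ⟨H, z, _, hH, hz, rfl⟩

/-- **Theorem.** -/
theorem main (x : ZM P G) (n : ℕ) (hn : 0 < n) (hx : n • bM P G x = 0) :
    ∃ l : ℕ, 0 < l ∧ l • x ∈ DvM P G := by
  classical
  obtain ⟨ξ, rfl⟩ := Thm_surj x
  rw [bM_Thm, ← map_nsmul] at hx
  obtain ⟨b, hb⟩ := (ko_zero _).1 hx
  choose a ha using hb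
  obtain ⟨M, v, hM, hv, hvT⟩ := averaging (b : K1 (MonoidAlgebra ℚ G))
  -- the local classes
  have hloc : ∀ p : P, ∃ (m : ℕ) (w : ZK ℤ_[((p : Nat.Primes) : ℕ)] G), 0 < m ∧
      m • ((M * n) • ξ p - ccZ (algebraMap ℚ ℚ_[((p : Nat.Primes) : ℕ)]) G v) -
        ccZ PadicInt.Coe.ringHom G w ∈ DvG ℚ_[((p : Nat.Primes) : ℕ)] G ℤ := by
    intro p
    apply loc_main
    intro c χ hχ hc hpc
    have h2 : n • btG ℚ_[((p : Nat.Primes) : ℕ)] G (ξ p) =
        K1map (mapRingHom G (algebraMap ℚ ℚ_[((p : Nat.Primes) : ℕ)])) b +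
          K1map (mapRingHom G PadicInt.Coe.ringHom) (a p) := ha p
    have h3 := congrArg (Tr ℚ_[((p : Nat.Primes) : ℕ)] hχ) h2
    rw [map_add, Tr_map, Tr_map, Tr_sing hχ hc hpc, map_zero, add_zero] at h3
    rw [map_sub, map_sub, btG_ccZ, Tr_map, hvT c χ hχ hc, mul_smul, map_nsmul, map_nsmul,
      map_nsmul, h3, map_mul, map_natCast, nsmul_eq_mul, sub_self]
  choose m w hm hw using hloc
  obtain ⟨S0, hS0⟩ := avg_cancel' (P := P) hv
  let S : Finset P := ξ.support ∪ S0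
  let m0 : ℕ := ∏ p ∈ S, m p
  have hm0 : 0 < m0 := Finset.prod_pos fun p _ => hm p
  have hTh : Thm P G ξ = ∑ p ∈ S, thm p (ξ p) := by
    unfold Thm
    rw [DFinsupp.sumAddHom_apply, DFinsupp.sum]
    refine Finset.sum_subset Finset.subset_union_left ?_
    intro p _ hp
    rw [DFinsupp.notMem_support_iff.1 hp, map_zero]
  refine ⟨m0 * (M * n), Nat.mul_pos hm0 (Nat.mul_pos hM hn), ?_⟩
  have h4 : ∀ p ∈ S, (m0 * (M * n)) • thm p (ξ p) -
      m0 • thm p (ccZ (algebraMap ℚ ℚ_[((p : Nat.Primes) : ℕ)]) G v) ∈ DvM P G := by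
    intro p hp
    obtain ⟨k, hk⟩ := Finset.dvd_prod_of_mem m hp
    have h6 : m0 = k * m p := by rw [mul_comm]; exact hk
    have h7 := AddSubgroup.nsmul_mem _ (thm_dv p (hw p)) k
    rw [map_sub, thm_zp, sub_zero, map_nsmul, map_sub, map_nsmul, ← mul_smul, ← h6, smul_sub,
      ← mul_smul] at h7
    exact h7
  have h8 := AddSubgroup.sum_mem (DvM P G) h4
  rw [Finset.sum_sub_distrib, ← Finset.smul_sum, ← Finset.smul_sum,
    hS0 S Finset.subset_union_right, smul_zero, sub_zero, ← hTh] at h8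
  exact h8

theorem dvM_tors (hyp : ZSep G) {y : ZM P G} (hy : y ∈ DvM P G) :
    ∃ l : ℕ, 0 < l ∧ l • y = 0 := by
  unfold DvM at hy
  induction hy using AddSubgroup.closure_induction with
  | mem y hy =>
    obtain ⟨H, z, x, hH, hz, rfl⟩ := hy
    obtain ⟨m, hm, h⟩ := hyp H z hH hz
    refine ⟨m, hm, ?_⟩
    rw [← ZM.of_pow]
    have h1 : ZM.zhom H x (z ^ m) = 1 := by
      have h2 : commutator (Cz H.1) ≤ (ZM.zhom (P := P) H x).ker :=
        Abelianization.commutator_subset_ker _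
      exact h2 h
    exact congrArg Multiplicative.toAdd h1
  | zero => exact ⟨1, one_pos, smul_zero _⟩
  | add x y _ _ hx hy =>
    obtain ⟨m, hm, hx⟩ := hx
    obtain ⟨n, hn, hy⟩ := hy
    refine ⟨m * n, Nat.mul_pos hm hn, ?_⟩
    rw [smul_add, mul_comm, mul_smul, hx, smul_zero, mul_comm, mul_smul, hy, smul_zero, add_zero]
  | neg x _ hx =>
    obtain ⟨m, hm, hx⟩ := hx
    exact ⟨m, hm, by rw [smul_neg, hx, neg_zero]⟩

theorem fg_hypZ {A : Type} [CommGroup A] [Group.FG A] (a : A)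
    (h : ∀ χ : A →* Multiplicative ℤ, χ a = 1) : ∃ m : ℕ, 0 < m ∧ a ^ m = 1 := by
  classical
  let M := Additive A
  have h1 : Module.Finite ℤ M := Module.Finite.iff_addGroup_fg.2 inferInstance
  let T := Submodule.torsion ℤ M
  have h2 : Module.Free ℤ (M ⧸ T) := inferInstance
  let b := Module.Free.chooseBasis ℤ (M ⧸ T)
  have h3 : T.mkQ (Additive.ofMul a) = 0 := by
    by_contra hne
    obtain ⟨i, hi⟩ : ∃ i, b.repr (T.mkQ (Additive.ofMul a)) i ≠ 0 := by
      by_contra hc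
      push Not at hc
      apply hne
      apply b.repr.injective
      ext i
      rw [hc i, map_zero]
      rfl
    let f : M →+ ℤ := ((b.coord i).comp T.mkQ).toAddMonoidHom
    have h4 := h (AddMonoidHom.toMultiplicativeRight f)
    have h5 : f (Additive.ofMul a) = 0 := congrArg Multiplicative.toAdd h4
    exact hi h5
  rw [Submodule.mkQ_apply, Submodule.Quotient.mk_eq_zero, Submodule.mem_torsion_iff] at h3
  obtain ⟨n, hn⟩ := h3
  have h7 : (n : ℤ) • (Additive.ofMul a) = 0 := hn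
  refine ⟨(n : ℤ).natAbs, Int.natAbs_pos.2 (nonZeroDivisors.coe_ne_zero n), ?_⟩
  have h8 : a ^ (n : ℤ) = 1 := congrArg Additive.toMul h7
  rcases Int.natAbs_eq (n : ℤ) with h9 | h9
  · rw [h9, zpow_natCast] at h8
    exact h8
  · rw [h9, zpow_neg, zpow_natCast, inv_eq_one] at h8
    exact h8

theorem zsep_fg (hfg : ∀ C : FinSub G, IsCyclic C.1 → Group.FG (Abelianization (Cz C.1))) :
    ZSep G := by
  intro H z hH hχ
  have := hfg H hH
  obtain ⟨m, hm, h1⟩ := fg_hypZ (Abelianization.of z) fun χ => hχ (χ.comp Abelianization.of)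
  refine ⟨m, hm, ?_⟩
  rw [← Abelianization.ker_of, MonoidHom.mem_ker, map_pow]
  exact h1

/-- the invertible matrix of a symbol -/
def twU (k : Type) [CommRing k] (H : FinSub G) (z : Cz H.1) {n : ℕ}
    (e : IdMat (MonoidAlgebra k H.1) n) : (Matrix (Fin n) (Fin n) (MonoidAlgebra k G))ˣ :=
  tw ((e : Matrix (Fin n) (Fin n) (MonoidAlgebra k H.1)).map
    (mapDomainRingHom k H.1.subtype)) (map_idem _ e.2) (gu k (z : G))
    (cm _ _ (gu_comm H.1.subtype (z : G) (fin_comm G H z)) _)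

theorem nz_mk (k : Type) [CommRing k] (H : FinSub G) (z : Cz H.1) (n : ℕ)
    (e : IdMat (MonoidAlgebra k H.1) n) :
    nz H.1.subtype (z : G) (fin_comm G H z) (K0.mk e : K0 (MonoidAlgebra k H.1)) =
      K1.mk (twU k H z e) := by
  unfold twU
  rw [← cl_fin]
  exact nu_mk _ _ _ e

theorem twU_val (k : Type) [CommRing k] (H : FinSub G) (z : Cz H.1) {n : ℕ}
    (e : IdMat (MonoidAlgebra k H.1) n) :
    (twU k H z e : Matrix (Fin n) (Fin n) (MonoidAlgebra k G)) = twMat H z e := rfl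

theorem isTwistZ : IsTwistZ (bM P G) := by
  intro p H z n e
  refine ⟨twU _ H z e, twU_val _ H z e, ?_⟩
  have h1 := bM_of P G H z (sg0 p (KQp.mk e : L0 P H.1 p) : KM P H.1)
  have h2 := nzM_sg0 (P := P) H.1.subtype (z : G) (fin_comm G H z) p (KQp.mk e : L0 P H.1 p)
  have h3 := congrArg (sg1 (P := P) (G := G) p)
    (nz_mk ℚ_[((p : Nat.Primes) : ℕ)] H z n e : nzp P p H.1.subtype (z : G) (fin_comm G H z)
      (KQp.mk e : L0 P H.1 p) = _)
  exact h1.trans (h2.trans h3)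

end fin

end

end Pool.Agent.T9h42.KZ
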