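import Pool.Agent.T9h42.DP.Cmb

/-!
# Symbols on cyclic groups with vanishing traces, general version
-/

set_option linter.unusedSectionVars false

namespace Pool.Agent.T9h42.Q

open MonoidAlgebra Pool.Agent.Y69 Pool.Agent.Y69.StepC Pool.Agent.Y778.NK Pool.Agent.T9h42

noncomputable section

section syk

variable {k : Type} [CommRing k] {G : Type} [Group G]

theorem map_map {H K L : Type} [Group H] [Group K] [Group L] (φ : H →* K) (ψ : K →* L)
    (x : GK0 k H) : GK0.map ψ (GK0.map φ x) = GK0.map (ψ.comp φ) x := by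
  have h : ∀ x : K0 (MonoidAlgebra k H), K0.map (mapDomainRingHom k ψ)
      (K0.map (mapDomainRingHom k φ) x) = K0.map (mapDomainRingHom k (ψ.comp φ)) x := by
    intro x
    rw [K0map_comp, mapDomainRingHom_comp']
  exact h x

theorem map_id' {H : Type} [Group H] (x : GK0 k H) : GK0.map (MonoidHom.id H) x = x := by
  have h : ∀ x : K0 (MonoidAlgebra k H), K0.map (mapDomainRingHom k (MonoidHom.id H)) x = x := by
    intro x
    rw [show mapDomainRingHom k (MonoidHom.id H) = RingHom.id _ from ?_, K0map_id]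
    apply RingHom.coe_addMonoidHom_injective
    apply MonoidAlgebra.addMonoidHom_ext
    intro g r
    show mapDomainRingHom k (MonoidHom.id H) (single g r) = single g r
    rw [mapDomainRingHom_apply, mapDomain_single]
    rfl
  exact h x

theorem rg_mem {C : Type} [Group C] [Finite C] (φ : C →* G) (z : G)
    (hz : ∀ c, z * φ c = φ c * z) : z ∈ Cz (rg φ).1 := by
  rw [Subgroup.mem_centralizer_iff]
  rintro _ ⟨c, rfl⟩
  exact (hz c).symm

variable (k)

/-- the symbol of a homomorphism -/
def sz {C : Type} [Group C] [Finite C] (φ : C →* G) (z : G) (hz : ∀ c, z * φ c = φ c * z) :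
    GK0 k C →+ ZK k G :=
  (ZK.hom (rg φ) ⟨z, rg_mem φ z hz⟩).comp (GK0.map (rrg φ))

theorem sz_apply {C : Type} [Group C] [Finite C] (φ : C →* G) (z : G)
    (hz : ∀ c, z * φ c = φ c * z) (u : GK0 k C) :
    sz k φ z hz u = ZK.of (rg φ) ⟨z, rg_mem φ z hz⟩ (GK0.map (rrg φ) u) := rfl

theorem sz_conj {C D : Type} [Group C] [Group D] [Finite C] [Finite D]
    (φ : C →* G) (ψ : D →* G) (f : D →* C) (g : G) (h : ∀ x, φ (f x) = g * ψ x * g⁻¹)
    (z z' : G) (hz : ∀ c, z * φ c = φ c * z) (hz' : ∀ c, z' * ψ c = ψ c * z')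
    (hzz : z = g * z' * g⁻¹) (u : GK0 k D) :
    sz k φ z hz (GK0.map f u) = sz k ψ z' hz' u := by
  have hmem : ∀ y : (rg ψ).1, g * (y : G) * g⁻¹ ∈ (rg φ).1 := by
    rintro ⟨_, x, rfl⟩
    exact ⟨f x, h x⟩
  let θ : (rg ψ).1 →* (rg φ).1 :=
    { toFun := fun y => ⟨g * (y : G) * g⁻¹, hmem y⟩
      map_one' := by
        apply Subtype.ext
        show g * (1 : G) * g⁻¹ = 1
        group
      map_mul' := fun y z => by
        apply Subtype.ext
        show g * ((y : G) * (z : G)) * g⁻¹ = (g * (y : G) * g⁻¹) * (g * (z : G) * g⁻¹)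
        group }
  have hc : (rrg φ).comp f = θ.comp (rrg ψ) := by
    ext x
    exact h x
  rw [sz_apply, sz_apply, ← ZK.of_rel (rg ψ) (rg φ) g θ ⟨z', rg_mem ψ z' hz'⟩
    ⟨z, rg_mem φ z hz⟩ (fun y => rfl) hzz, map_map, map_map, hc]

theorem sz_mul {C : Type} [Group C] [Finite C] (φ : C →* G) (z w : G)
    (hz : ∀ c, z * φ c = φ c * z) (hw : ∀ c, w * φ c = φ c * w)
    (hzw : ∀ c, (z * w) * φ c = φ c * (z * w)) (u : GK0 k C) :
    sz k φ (z * w) hzw u = sz k φ z hz u + sz k φ w hw u := by
  rw [sz_apply, sz_apply, sz_apply]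
  exact ZK.of_mul (rg φ) ⟨z, rg_mem φ z hz⟩ ⟨w, rg_mem φ w hw⟩ _

/-- as a homomorphism on the centralizer of the image -/
theorem sz_hom {C : Type} [Group C] [Finite C] (φ : C →* G) (u : GK0 k C) :
    ∃ θ : Cz (rg φ).1 →* Multiplicative (ZK k G), ∀ (z : Cz (rg φ).1)
      (hz : ∀ c, (z : G) * φ c = φ c * z), θ z = Multiplicative.ofAdd (sz k φ z hz u) :=
  ⟨ZK.zhom (rg φ) (GK0.map (rrg φ) u), fun z hz => rfl⟩

end syk

/-- Data: the rings of the symbols, of the idempotents and of the traces, and the group of values of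
the homomorphisms. -/
structure Lg (Λ S R W : Type) [AddCommGroup Λ] [CommRing S] [CommRing R] [CommRing W] where
  q : R →+* S
  i : R →+* W
  hi : Function.Injective i
  j : Λ →+ W
  hj : Function.Injective j

/-- The subgroup generated by the symbols `[C, z, x]`, where `C` is cyclic and all homomorphisms from
the centralizer of `C` to `Λ` vanish at `z`. -/
def DvG (k : Type) [CommRing k] (G : Type) [Group G] (Λ : Type) [AddCommGroup Λ] :
    AddSubgroup (ZK k G) :=
  AddSubgroup.closure {y | ∃ (H : FinSub G) (z : Cz H.1) (x : GK0 k H.1),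
    IsCyclic H.1 ∧ (∀ χ : Cz H.1 →* Multiplicative Λ, χ z = 1) ∧ y = ZK.of H z x}

section loc

variable {Λ k R W : Type} [AddCommGroup Λ] [CommRing k] [CommRing R] [CommRing W]
  [IsDomain W] (D : Lg Λ k R W) (htf : TF R) {G : Type} [Group G]

/-- the reduction -/
def gq (C : Type) [Group C] : K0 (MonoidAlgebra R C) →+ GK0 k C :=
  K0.map (mapRingHom C D.q)

/-- the symbol of a combination of idempotents -/
def sv {C : Type} [CommGroup C] [Finite C] (φ : C →* G) (z : G) (hz : ∀ c, z * φ c = φ c * z) :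
    Hn (MonoidAlgebra R C) →+ ZK k G :=
  ((sz k φ z hz).comp (gq D C)).comp (kap (ma_tf htf))

theorem mapq_mapDomain {C C' : Type} [Group C] [Group C'] (f : C →* C') :
    (mapRingHom C' D.q).comp (mapDomainRingHom R f) =
      (mapDomainRingHom k f).comp (mapRingHom C D.q) := by
  apply RingHom.coe_addMonoidHom_injective
  apply MonoidAlgebra.addMonoidHom_ext
  intro g r
  show mapRingHom C' D.q (mapDomainRingHom R f (single g r)) =
    mapDomainRingHom k f (mapRingHom C D.q (single g r))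
  rw [mapDomainRingHom_apply, mapDomain_single]
  have h2 : ∀ (C : Type) [Group C] (d : C) (b : R),
      mapRingHom C D.q (single d b) = single d (D.q b) := fun C _ d b => by simp
  rw [h2, h2, mapDomainRingHom_apply, mapDomain_single]

theorem gq_map {C C' : Type} [Group C] [Group C'] (f : C →* C') (x : K0 (MonoidAlgebra R C)) :
    gq D C' (K0.map (mapDomainRingHom R f) x) = GK0.map f (gq D C x) := by
  have h : ∀ x : K0 (MonoidAlgebra R C), K0.map (mapRingHom C' D.q)
      (K0.map (mapDomainRingHom R f) x) =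
      K0.map (mapDomainRingHom k f) (K0.map (mapRingHom C D.q) x) := by
    intro x
    rw [K0map_comp, K0map_comp, mapq_mapDomain]
  exact h x

theorem sv_conj {C C' : Type} [CommGroup C] [CommGroup C'] [Finite C] [Finite C']
    (φ : C →* G) (ψ : C' →* G) (f : C' →* C) (g : G) (h : ∀ x, φ (f x) = g * ψ x * g⁻¹)
    (z z' : G) (hz : ∀ c, z * φ c = φ c * z) (hz' : ∀ c, z' * ψ c = ψ c * z')
    (hzz : z = g * z' * g⁻¹) (u : Hn (MonoidAlgebra R C')) :
    sv D htf φ z hz (Hmap (mapDomainRingHom R f) u) = sv D htf ψ z' hz' u := by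
  show sz k φ z hz (gq D C (kap (ma_tf htf) (Hmap (mapDomainRingHom R f) u))) =
    sz k ψ z' hz' (gq D C' (kap (ma_tf htf) u))
  rw [← kap_map (ma_tf htf) (ma_tf htf), gq_map, sz_conj k φ ψ f g h z z' hz hz' hzz]

/-- the trace of a symbol -/
def tau (c : G) (χ : G → W) {C : Type} [CommGroup C] [Finite C] (φ : C →* G) (z : G)
    (u : Hn (MonoidAlgebra R C)) : W :=
  letI := Fintype.ofFinite C
  ∑ h, D.i (u.1.coeff h) * cocf c χ (φ h * z⁻¹) z

theorem tau_eq (c : G) (χ : G → W) {C : Type} [CommGroup C] [hF : Fintype C] (φ : C →* G) (z : G)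
    (u : Hn (MonoidAlgebra R C)) :
    tau D c χ φ z u = ∑ h, D.i (u.1.coeff h) * cocf c χ (φ h * z⁻¹) z := by
  unfold tau
  have : ∀ (F F' : Fintype C), (letI := F; ∑ h, D.i (u.1.coeff h) * cocf c χ (φ h * z⁻¹) z) =
      (letI := F'; ∑ h, D.i (u.1.coeff h) * cocf c χ (φ h * z⁻¹) z) := by
    intro F F'
    obtain rfl : F = F' := Subsingleton.elim _ _
    rfl
  exact this _ _

theorem tau_conj {c : G} {χ : G → W} (hχ : AddOnC c χ) {C C' : Type} [CommGroup C] [CommGroup C']
    [Finite C] [Finite C'] (φ : C →* G) (ψ : C' →* G) (f : C' ≃* C) (g : G)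
    (h : ∀ x, φ (f x) = g * ψ x * g⁻¹)
    (z z' : G) (hz : ∀ c, z * φ c = φ c * z) (hz' : ∀ c, z' * ψ c = ψ c * z')
    (hzz : z = g * z' * g⁻¹) (u : Hn (MonoidAlgebra R C')) :
    tau D c χ φ z (Hmap (mapDomainRingHom R f.toMonoidHom) u) = tau D c χ ψ z' u := by
  classical
  have := Fintype.ofFinite C
  have := Fintype.ofFinite C'
  rw [tau_eq, tau_eq]
  symm
  refine Fintype.sum_equiv f.toEquiv _ _ fun y => ?_
  show _ = D.i ((mapDomainRingHom R f.toMonoidHom u.1).coeff (f.toMonoidHom y)) *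
    cocf c χ (φ (f y) * z⁻¹) z
  rw [coeff_map f.toMonoidHom f.injective, cocf_val _ _ _ _ (hz _), cocf_val _ _ _ _ (hz' _)]
  congr 1
  by_cases hc : IsConj c (ψ y)
  · have hc' : IsConj c (φ (f y)) := by
      rw [h]
      exact hc.trans (isConj_iff.2 ⟨g, rfl⟩)
    rw [if_pos hc, if_pos hc', hzz]
    have h1 := sel_spec hc'
    rw [h] at h1
    have h2 := hχ.two (sel_spec hc) h1 (hz' y)
    rw [← h2, h]
  · have hc' : ¬ IsConj c (φ (f y)) := by
      rw [h]
      intro h1
      exact hc (h1.trans (isConj_iff.2 ⟨g⁻¹, by group⟩))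
    rw [if_neg hc, if_neg hc']

open Classical in
/-- extension of a homomorphism on the centralizer of the image of `φ` -/
def ext0 {C : Type} [Group C] [Finite C] (φ : C →* G)
    (χ : Cz (rg φ).1 →* Multiplicative Λ) (g : G) : Λ :=
  if h : g ∈ Cz (rg φ).1 then Multiplicative.toAdd (χ ⟨g, h⟩) else 0

theorem mem_Cz {C : Type} [Group C] [Finite C] (φ : C →* G) {g : G}
    (h : ∀ c, g * φ c = φ c * g) : g ∈ Cz (rg φ).1 := by
  rw [Subgroup.mem_centralizer_iff]
  rintro _ ⟨c, rfl⟩
  exact (h c).symm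

theorem ext0_add {C : Type} [CommGroup C] [Finite C] (φ : C →* G)
    (χ : Cz (rg φ).1 →* Multiplicative Λ) {x : C} (hx : Subgroup.zpowers x = ⊤) :
    AddOnC (φ x) (ext0 φ χ) := by
  intro a b ha hb
  have key : ∀ a, a * φ x = φ x * a → a ∈ Cz (rg φ).1 := by
    intro a ha
    apply mem_Cz
    intro c
    have hc : c ∈ Subgroup.zpowers x := by rw [hx]; exact Subgroup.mem_top _
    obtain ⟨n, rfl⟩ := Subgroup.mem_zpowers_iff.1 hc
    rw [map_zpow]
    exact (Commute.zpow_right (show Commute a (φ x) from ha) n)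
  have h1 := key a ha
  have h2 := key b hb
  have h3 : a * b ∈ Cz (rg φ).1 := mul_mem h1 h2
  unfold ext0
  rw [dif_pos h1, dif_pos h2, dif_pos h3, ← toAdd_mul, ← map_mul]
  rfl

/-- **The local statement.** -/
theorem local_dv {C : Type} [CommGroup C] [Finite C] (hcyc : IsCyclic C) (φ : C →* G) (hφ : Function.Injective φ) {J : Type} [Fintype J]
    (v : J → G) (hv : ∀ i c, v i * φ c = φ c * v i) (x : J → Hn (MonoidAlgebra R C))
    (good : ∀ i c, Subgroup.zpowers c ≠ ⊤ → (x i).1.coeff c = 0)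
    (h0 : ∀ c : G, 0 < orderOf c → ∀ χ : G → Λ, AddOnC c χ →
      ∑ i, tau D c (fun g => D.j (χ g)) φ (v i) (x i) = 0) :
    ∃ n : ℕ, 0 < n ∧ n • ∑ i, sv D htf φ (v i) (hv i) (x i) ∈ DvG k G Λ := by
  classical
  have := Fintype.ofFinite C
  have : Fintype (C ≃* C) := Fintype.ofFinite _
  let Wt : Type := {w : C ≃* C // ∃ g : G, ∀ c, φ (w c) = g * φ c * g⁻¹}
  have : Fintype Wt := Fintype.ofFinite _
  choose g hg using fun w : Wt => w.2
  let v' : J × Wt → G := fun a => g a.2 * v a.1 * (g a.2)⁻¹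
  let x' : J × Wt → Hn (MonoidAlgebra R C) := fun a =>
    Hmap (mapDomainRingHom R a.2.1.toMonoidHom) (x a.1)
  have hwinv : ∀ (w : Wt) (c : C), φ c = g w * φ (w.1.symm c) * (g w)⁻¹ := by
    intro w c
    have := hg w (w.1.symm c)
    rwa [MulEquiv.apply_symm_apply] at this
  have hv' : ∀ a c, v' a * φ c = φ c * v' a := by
    intro a c
    show g a.2 * v a.1 * (g a.2)⁻¹ * φ c = φ c * (g a.2 * v a.1 * (g a.2)⁻¹)
    rw [hwinv a.2 c]
    have h1 := hv a.1 (a.2.1.symm c)
    calc g a.2 * v a.1 * (g a.2)⁻¹ * (g a.2 * φ (a.2.1.symm c) * (g a.2)⁻¹)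
        = g a.2 * (v a.1 * φ (a.2.1.symm c)) * (g a.2)⁻¹ := by group
      _ = _ := by rw [h1]; group
  have hx'c : ∀ (a : J × Wt) (c : C), (x' a).1.coeff c = (x a.1).1.coeff (a.2.1.symm c) := by
    intro a c
    have h1 := coeff_map (R := R) a.2.1.toMonoidHom a.2.1.injective (x a.1).1 (a.2.1.symm c)
    rw [← h1]
    show _ = (mapDomainRingHom R a.2.1.toMonoidHom (x a.1).1).coeff (a.2.1 (a.2.1.symm c))
    rw [MulEquiv.apply_symm_apply]
    rfl
  have hgood' : ∀ a c, Subgroup.zpowers c ≠ ⊤ → (x' a).1.coeff c = 0 := by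
    intro a c hc
    rw [hx'c]
    apply good
    apply Theory.zpowers_map_top a.2.1
    rwa [MulEquiv.apply_symm_apply]
  -- the averaging
  have hW0 : 0 < Fintype.card Wt := Fintype.card_pos_iff.2
    ⟨⟨MulEquiv.refl C, 1, fun c => by simp⟩⟩
  have e1 : ∑ a : J × Wt, sv D htf φ (v' a) (hv' a) (x' a) =
      Fintype.card Wt • ∑ i, sv D htf φ (v i) (hv i) (x i) := by
    rw [Fintype.sum_prod_type, Finset.smul_sum]
    refine Finset.sum_congr rfl fun i _ => ?_
    have h1 : ∀ w : Wt, sv D htf φ (v' (i, w)) (hv' (i, w)) (x' (i, w)) =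
        sv D htf φ (v i) (hv i) (x i) := fun w =>
      sv_conj D htf φ φ w.1.toMonoidHom (g w) (hg w) _ _ _ _ rfl _
    rw [Finset.sum_congr rfl fun w _ => h1 w, Finset.sum_const, Finset.card_univ]
  -- the key identity
  have key : ∀ (χ : Cz (rg φ).1 →* Multiplicative Λ) (h : C),
      ∑ a : J × Wt, D.i ((x' a).1.coeff h) * D.j (ext0 φ χ (v' a)) = 0 := by
    intro χ h
    by_cases hh : Subgroup.zpowers h = ⊤
    · have hχ0 := ext0_add φ χ hh
      have hχ : AddOnC (φ h) (fun g => D.j (ext0 φ χ g)) := by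
        intro a b ha hb
        show D.j _ = D.j _ + D.j _
        rw [hχ0 a b ha hb, map_add]
      have hord : 0 < orderOf (φ h) := by
        rw [orderOf_injective φ hφ]
        exact orderOf_pos h
      have h1 := h0 (φ h) hord (ext0 φ χ) hχ0
      rw [← h1, Fintype.sum_prod_type]
      refine Finset.sum_congr rfl fun i _ => ?_
      rw [tau_eq]
      have h2 : ∀ y, D.i ((x i).1.coeff y) *
          cocf (φ h) (fun g => D.j (ext0 φ χ g)) (φ y * (v i)⁻¹) (v i) =
          if IsConj (φ h) (φ y) then D.i ((x i).1.coeff y) *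
            D.j (ext0 φ χ ((sel (φ h) (φ y))⁻¹ * v i * sel (φ h) (φ y))) else 0 := by
        intro y
        rw [cocf_val _ _ _ _ (hv i y)]
        split_ifs
        · rfl
        · rw [mul_zero]
      rw [Finset.sum_congr rfl fun y _ => h2 y, ← Finset.sum_filter]
      refine Finset.sum_bij (fun w _ => w.1.symm h) ?_ ?_ ?_ ?_
      · intro w _
        rw [Finset.mem_filter]
        exact ⟨Finset.mem_univ _, (isConj_iff.2 ⟨g w, (hwinv w h).symm⟩).symm⟩
      · intro w _ w' _ hww
        apply Subtype.ext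
        have h8 : w.1.symm = w'.1.symm := by
          ext z
          have hz : z ∈ Subgroup.zpowers h := by rw [hh]; exact Subgroup.mem_top _
          obtain ⟨n, rfl⟩ := Subgroup.mem_zpowers_iff.1 hz
          rw [map_zpow, map_zpow, hww]
        exact congrArg MulEquiv.symm h8
      · intro y hy
        obtain ⟨s, hs⟩ := isConj_iff.1 (Finset.mem_filter.1 hy).2
        have ho : orderOf y = orderOf h := by
          rw [← orderOf_injective φ hφ y, ← orderOf_injective φ hφ h, ← hs]
          exact (MulAut.conj s).orderOf_eq (φ h)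
        have hcy : Subgroup.zpowers y = ⊤ := by
          rw [← Subgroup.card_eq_iff_eq_top, Nat.card_zpowers, ho, ← Nat.card_zpowers, hh]
          exact (Subgroup.card_eq_iff_eq_top _).2 rfl
        have hy' : ∀ z, z ∈ Subgroup.zpowers y := fun z => by rw [hcy]; exact Subgroup.mem_top z
        have hh' : ∀ z, z ∈ Subgroup.zpowers h := fun z => by rw [hh]; exact Subgroup.mem_top z
        let w : C ≃* C := mulEquivOfOrderOfEq hy' hh' ho
        have hwy : w y = h := mulEquivOfOrderOfEq_apply_gen hy' hh' ho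
        refine ⟨⟨w, s⁻¹, fun z => ?_⟩, Finset.mem_univ _, ?_⟩
        · obtain ⟨n, rfl⟩ := Subgroup.mem_zpowers_iff.1 (hy' z)
          rw [map_zpow, hwy, map_zpow, map_zpow, ← hs, ← conj_zpow]
          congr 1
          group
        · show w.symm h = y
          rw [← hwy, MulEquiv.symm_apply_apply]
      · intro w _
        show D.i ((x' (i, w)).1.coeff h) * D.j (ext0 φ χ (v' (i, w))) = _
        rw [hx'c]
        congr 1
        have hc : IsConj (φ h) (φ (w.1.symm h)) :=
          (isConj_iff.2 ⟨g w, (hwinv w h).symm⟩).symm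
        have h3 : (1 : G) * φ h * (1 : G)⁻¹ = g w * φ (w.1.symm h) * (g w)⁻¹ := by
          rw [← hwinv w h]; group
        have h4 := hχ.two (sel_spec hc) h3 (hv i (w.1.symm h))
        refine Eq.trans ?_ h4
        show D.j (ext0 φ χ (g w * v i * (g w)⁻¹)) = _
        congr 2
        group
    · refine Finset.sum_eq_zero fun a _ => ?_
      rw [hgood' a h hh, map_zero, zero_mul]
  obtain ⟨L, _, _, ε, n, hε, hε0, hεo, hx⟩ := Hn_atoms (fun a => (x' a).1) fun a => (x' a).2
  have hvC : ∀ a, v' a ∈ Cz (rg φ).1 := fun a => mem_Cz φ (hv' a)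
  choose w hw using fun l : L => exists_word Finset.univ (fun a => (⟨v' a, hvC a⟩ : Cz (rg φ).1))
    (fun a => n a l)
  have hwl : ∀ l c, (w l : G) * φ c = φ c * w l := by
    intro l c
    have := Subgroup.mem_centralizer_iff.1 (w l).2 (φ c) ⟨c, rfl⟩
    exact this.symm
  have e2 : ∑ a : J × Wt, sv D htf φ (v' a) (hv' a) (x' a) =
      ∑ l, sv D htf φ (w l) (hwl l) ⟨ε l, Hn_idem (hε l)⟩ := by
    have h1 : ∀ a, x' a = ∑ l, n a l • (⟨ε l, Hn_idem (hε l)⟩ : Hn (MonoidAlgebra R C)) := by
      intro a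
      apply Subtype.ext
      rw [hx a, AddSubgroup.val_finsetSum]
      rfl
    have h2 : ∀ a, sv D htf φ (v' a) (hv' a) (x' a) =
        ∑ l, n a l • sv D htf φ (v' a) (hv' a) ⟨ε l, Hn_idem (hε l)⟩ := by
      intro a
      conv_lhs => rw [h1 a, map_sum]
      exact Finset.sum_congr rfl fun l _ => map_zsmul _ _ _
    rw [Finset.sum_congr rfl fun a _ => h2 a, Finset.sum_comm]
    refine Finset.sum_congr rfl fun l _ => ?_
    obtain ⟨θ, hθ⟩ := sz_hom k φ (gq D C (kap (ma_tf htf) ⟨ε l, Hn_idem (hε l)⟩))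
    have h3 := hw l _ θ
    have h4 := congrArg Multiplicative.toAdd h3
    rw [hθ (w l) (hwl l), toAdd_prod] at h4
    refine Eq.trans ?_ h4.symm
    refine Finset.sum_congr rfl fun a _ => ?_
    rw [toAdd_zpow, hθ ⟨v' a, hvC a⟩ (hv' a)]
    rfl
  have e3 : ∀ (l : L) (χ : Cz (rg φ).1 →* Multiplicative Λ), χ (w l) = 1 := by
    intro l χ
    have h1 : ∀ c : C, (∑ a : J × Wt, (n a l : W) * D.j (ext0 φ χ (v' a))) * D.i ((ε l).coeff c) = 0 := by
      intro c
      -- multiply the identity by the atom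
      have h2 : ∀ c : C, ∑ l', (∑ a : J × Wt, (n a l' : W) * D.j (ext0 φ χ (v' a))) *
          D.i ((ε l').coeff c) = 0 := by
        intro c
        rw [← key χ c]
        have h3 : ∀ a, D.i ((x' a).1.coeff c) = ∑ l', (n a l' : W) * D.i ((ε l').coeff c) := by
          intro a
          rw [hx a, coeff_sum, Finsupp.finsetSum_apply, map_sum]
          refine Finset.sum_congr rfl fun l' _ => ?_
          let F : MonoidAlgebra R C →+ R := AddMonoidHom.mk' (fun x => x.coeff c) fun x y => by
            rw [coeff_add, Finsupp.add_apply]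
          have h4 : F (n a l' • ε l') = n a l' • F (ε l') := map_zsmul F _ _
          show D.i (F (n a l' • ε l')) = _
          rw [h4, map_zsmul, zsmul_eq_mul]
          rfl
        simp only [h3, Finset.sum_mul]
        rw [Finset.sum_comm]
        refine Finset.sum_congr rfl fun a _ => ?_
        refine Finset.sum_congr rfl fun l' _ => ?_
        ring
      have h5 : (∑ l', (∑ a : J × Wt, (n a l' : W) * D.j (ext0 φ χ (v' a))) •
          mapRingHom C D.i (ε l')) = 0 := by
        apply coeff_injective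
        ext1 c
        rw [coeff_sum, Finsupp.finsetSum_apply]
        have h6 := h2 c
        refine Eq.trans ?_ h6
        refine Finset.sum_congr rfl fun l' _ => ?_
        rw [coeff_smul, Finsupp.smul_apply, smul_eq_mul]
        congr 1
      have h6 := congrArg (fun z => z * mapRingHom C D.i (ε l)) h5
      simp only [zero_mul] at h6
      rw [Finset.sum_mul, Finset.sum_eq_single l] at h6
      · rw [smul_mul_assoc, ← map_mul, hε] at h6
        have h7 := congrArg (fun z => z.coeff c) h6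
        simp only [coeff_smul, Finsupp.smul_apply, smul_eq_mul, coeff_zero,
          Finsupp.zero_apply] at h7
        rw [← h7]
        congr 1
      · intro l' _ hl'
        rw [smul_mul_assoc, ← map_mul, hεo _ _ hl', map_zero, smul_zero]
      · intro h; exact absurd (Finset.mem_univ _) h
    obtain ⟨c, hc⟩ : ∃ c, (ε l).coeff c ≠ 0 := by
      by_contra h2
      push Not at h2
      apply hε0 l
      apply coeff_injective
      ext1 c
      exact h2 c
    have h2 : D.i ((ε l).coeff c) ≠ 0 := by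
      intro h3
      exact hc (D.hi (by rw [h3, map_zero]))
    have h3 := (mul_eq_zero.1 (h1 c)).resolve_right h2
    have h4 : D.j (Multiplicative.toAdd (χ (w l))) = 0 := by
      rw [← h3, hw l _ χ, toAdd_prod, map_sum]
      refine Finset.sum_congr rfl fun a _ => ?_
      rw [toAdd_zpow, map_zsmul, zsmul_eq_mul]
      congr 1
      unfold ext0
      rw [dif_pos (hvC a)]
    have h5 : Multiplicative.toAdd (χ (w l)) = 0 := D.hj (by rw [h4, map_zero])
    exact Multiplicative.toAdd.injective h5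
  refine ⟨Fintype.card Wt, hW0, ?_⟩
  rw [← e1, e2]
  apply AddSubgroup.sum_mem
  intro l _
  apply AddSubgroup.subset_closure
  refine ⟨rg φ, ⟨w l, (w l).2⟩, _, ?_, e3 l, rfl⟩
  exact isCyclic_of_surjective (rrg φ) φ.rangeRestrict_surjective

end loc

end

end Pool.Agent.T9h42.Q
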