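import Pool.Agent.T9h42.Bridge

/-!
# The Frobenius congruence for the Dennis trace
-/

set_option linter.unusedSectionVars false

namespace Pool.Agent.T9h42

open Finset MonoidAlgebra

noncomputable section

section words

variable {G R M ι : Type*} [Group G] [CommRing R] [AddCommGroup M] [Module R M] [Fintype ι]
  [DecidableEq ι] {u v : G → Matrix ι ι R} {S : Finset G}

theorem sum_src1 (hE : Inv1 u v S) (H : G → M) :
    ∑ c : S × S, (v c.1 * u c.2).trace • H (c.1 * c.2) = (Fintype.card ι : R) • H 1 := by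
  have h := sum_src (M := M) hE 1 (fun l => H (l.headD 1))
  rw [← (Equiv.funUnique (Fin 1) (S × S)).symm.sum_comp] at h
  refine Eq.trans ?_ h
  refine Finset.sum_congr rfl fun c _ => ?_
  simp [co, wl, sr]

theorem sum_tgt1 (hE : Inv1 v u S) (H : G → M) :
    ∑ c : S × S, (v c.1 * u c.2).trace • H (c.2 * c.1) = (Fintype.card ι : R) • H 1 := by
  have h := sum_tgt (M := M) (u := u) (v := v) hE 0 (fun l => H (l.headD 1))
  rw [← (Equiv.funUnique (Fin 1) (S × S)).symm.sum_comp] at h
  refine Eq.trans ?_ h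
  refine Finset.sum_congr rfl fun c _ => ?_
  simp [co, wl, tg, th, la]

theorem la_rep (n : ℕ) (y : G) (c : G × G) : la y (List.replicate (n + 1) c) = c.2 := by
  induction n generalizing y with
  | zero => rfl
  | succ n ih =>
    rw [List.replicate_succ]
    exact ih c.2

theorem th_rep (n : ℕ) (c : G × G) : th c.2 (List.replicate n c) =
    List.replicate n (c.2, c.1) := by
  induction n with
  | zero => rfl
  | succ n ih =>
    rw [List.replicate_succ, List.replicate_succ]
    show (c.2, c.1) :: th c.2 (List.replicate n c) = _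
    rw [ih]

theorem rw1_fix {α : Type*} {k : ℕ} {w : Fin (k + 1) → α} (h : rw1 w = w) :
    w = fun _ => w 0 := by
  have h1 : ∀ i : ℕ, ∀ hi : i < k + 1, w ⟨i, hi⟩ = w 0 := by
    intro i
    induction i with
    | zero => intro _; rfl
    | succ i ih =>
      intro hi
      rw [← ih (by omega)]
      have h2 := congrFun h ⟨i, by omega⟩
      rw [← h2]
      unfold rw1
      congr 1
      apply Fin.ext
      show i + 1 = (i + 1 % (k + 1)) % (k + 1)
      rw [Nat.mod_eq_of_lt (show 1 < k + 1 by omega), Nat.mod_eq_of_lt hi]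
  funext i
  exact h1 i.1 i.2

variable (f : G → G → M) (hf : ∀ x y z, f (x * y) z - f x (y * z) + f (z * x) y = 0)

include hf

theorem frob_sum (htf : ∀ (n : ℕ) (x : M), 0 < n → n • x = 0 → x = 0)
    (hX : ∀ x y, ¬ (0 < orderOf (x * y)) → f x y = 0) {q : ℕ} (hq : q.Prime)
    (hR : ∀ X : Matrix ι ι R, ∃ s, (X ^ q).trace = X.trace + q * s)
    (hE : Inv1 u v S) (hE' : Inv1 v u S) :
    ∃ y, ∑ c : S × S, (v c.1 * u c.2).trace • f c.1 c.2 =
      ∑ c : S × S, (v c.1 * u c.2).trace • ar f c.2 ((c.1 * c.2) ^ q) + q • y := by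
  classical
  have hXc : ∀ a g : G, 0 < orderOf g → 0 < orderOf (a * g * a⁻¹) := by
    intro a g hg
    have : orderOf (a * g * a⁻¹) = orderOf g := (MulAut.conj a).orderOf_eq g
    rw [this]; exact hg
  obtain ⟨h, hh, hh0⟩ := exists_pot_list f hf htf (fun g => 0 < orderOf g) hX hXc
    (fun g hg => hg)
  obtain ⟨k, hk⟩ : ∃ k, q = k + 1 := ⟨q - 1, (Nat.succ_pred_eq_of_pos hq.pos).symm⟩
  rw [← sum_Ft hE hE' f h k]
  obtain ⟨ψ, hψ⟩ : ∃ ψ : (Fin (k + 1) → S × S) → M, ψ = fun w =>
    co u v (wl S w) • Ft f h (wl S w) := ⟨_, rfl⟩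
  have hinv : ∀ w, ψ (rw1 w) = ψ w := by
    intro w
    rw [hψ]
    have h1 : wl S (rw1 w) = ro (wl S w) := wl_rw1 w 1
    show co u v (wl S (rw1 w)) • Ft f h (wl S (rw1 w)) = _
    rw [h1, co_ro, Ft_ro f h hf hh]
  have hrinj : Function.Injective (rw1 (α := S × S) (k := k)) := by
    intro w w' hww
    have h1 := congrArg (rw1^[k]) hww
    rw [← Function.iterate_succ_apply, ← Function.iterate_succ_apply] at h1
    have h2 := rw1_per w
    have h3 := rw1_per w'
    rw [Nat.succ_eq_add_one, h2, h3] at h1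
    exact h1
  obtain ⟨y1, hy1⟩ : ∃ y, ∑ w, (if rw1 w = w then 0 else ψ w) = q ^ 1 • y := by
    refine orb_sum (rw1 (α := S × S) (k := k)) q 1 1 hq ?_ _ ?_ ?_
    · intro w
      rw [pow_one, hk]
      exact rw1_per w
    · intro w
      have h1 : rw1 (rw1 w) = rw1 w ↔ rw1 w = w := ⟨fun h => hrinj h, fun h => congrArg rw1 h⟩
      by_cases hw : rw1 w = w
      · rw [if_pos hw, if_pos (h1.2 hw)]
      · rw [if_neg hw, if_neg fun h => hw (h1.1 h), hinv]
    · intro i hi w hw
      have hi0 : i = 0 := by omega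
      subst hi0
      have hw' : rw1 w = w := hw
      refine ⟨0, ?_⟩
      rw [if_pos hw', smul_zero]
  have hsplit : ∑ w, ψ w = ∑ w, (if rw1 w = w then 0 else ψ w) +
      ∑ w, (if rw1 w = w then ψ w else 0) := by
    rw [← Finset.sum_add_distrib]
    refine Finset.sum_congr rfl fun w _ => ?_
    split_ifs <;> simp
  have hfix : ∑ w, (if rw1 w = w then ψ w else 0) = ∑ c : S × S, ψ (fun _ => c) := by
    rw [← Finset.sum_filter]
    symm
    refine Finset.sum_bij (fun c _ => fun _ => c) ?_ ?_ ?_ ?_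
    · intro c _
      rw [Finset.mem_filter]
      exact ⟨Finset.mem_univ _, rfl⟩
    · intro c _ c' _ h
      exact congrFun h 0
    · intro w hw
      exact ⟨w 0, Finset.mem_univ _, (rw1_fix (Finset.mem_filter.1 hw).2).symm⟩
    · intro c _
      rfl
  have hwl : ∀ c : S × S, wl S (fun _ : Fin (k + 1) => c) =
      List.replicate (k + 1) ((c.1 : G), (c.2 : G)) := by
    intro c
    unfold wl
    rw [List.ofFn_const]
  choose s hs using fun c : S × S => hR (v c.1 * u c.2)
  have hval : ∀ c : S × S, ψ (fun _ => c) = (v c.1 * u c.2).trace • ar f c.2 ((c.1 * c.2) ^ q) +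
      ((v c.1 * u c.2).trace • h (List.replicate q ((c.2 : G) * c.1)) -
        (v c.1 * u c.2).trace • h (List.replicate q ((c.1 : G) * c.2))) +
      q • (s c • (ar f c.2 ((c.1 * c.2) ^ q) + h (List.replicate q ((c.2 : G) * c.1)) -
        h (List.replicate q ((c.1 : G) * c.2)))) := by
    intro c
    have h1 : Ft f h (wl S (fun _ : Fin (k + 1) => c)) = ar f c.2 ((c.1 * c.2) ^ q) +
        h (List.replicate q ((c.2 : G) * c.1)) - h (List.replicate q ((c.1 : G) * c.2)) := by
      rw [hwl]
      unfold Ft tg sr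
      rw [la_rep, th_rep, List.map_replicate, List.map_replicate, List.prod_replicate, ← hk]
    have h2 : co u v (wl S (fun _ : Fin (k + 1) => c)) =
        (v c.1 * u c.2).trace + q * s c := by
      rw [hwl, ← hs]
      unfold co
      rw [List.map_replicate, List.prod_replicate, ← hk]
    rw [hψ]
    show co u v (wl S (fun _ : Fin (k + 1) => c)) • Ft f h (wl S (fun _ : Fin (k + 1) => c)) = _
    rw [h1, h2, add_smul, mul_smul, Nat.cast_smul_eq_nsmul]
    congr 1
    rw [smul_sub, smul_add]
    abel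
  have hcan : ∑ c : S × S, ((v c.1 * u c.2).trace • h (List.replicate q ((c.2 : G) * c.1)) -
        (v c.1 * u c.2).trace • h (List.replicate q ((c.1 : G) * c.2))) = 0 := by
    rw [Finset.sum_sub_distrib, sum_tgt1 hE' (fun g => h (List.replicate q g)),
      sum_src1 hE (fun g => h (List.replicate q g)), sub_self]
  rw [pow_one] at hy1
  have htot : ∑ w : Fin (k + 1) → S × S, co u v (wl S w) • Ft f h (wl S w) = ∑ w, ψ w := by
    rw [hψ]
  refine ⟨y1 + ∑ c : S × S, s c • (ar f c.2 ((c.1 * c.2) ^ q) +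
    h (List.replicate q ((c.2 : G) * c.1)) - h (List.replicate q ((c.1 : G) * c.2))), ?_⟩
  rw [htot, hsplit, hy1, hfix, Finset.sum_congr rfl fun c _ => hval c, Finset.sum_add_distrib,
    Finset.sum_add_distrib, hcan, add_zero, smul_add, Finset.smul_sum]
  abel

end words

end

end Pool.Agent.T9h42
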