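import Pool.Agent.T9h42.GZ.Gal

/-!
# The Frobenius congruence over arbitrary commutative rings
-/

set_option linter.unusedSectionVars false

namespace Pool.Agent.T9h42

open Finset MonoidAlgebra

noncomputable section

section trace

open Polynomial Matrix

variable {R : Type*} [CommRing R] {ι : Type*} [Fintype ι] [DecidableEq ι]

theorem charpoly_frob [Nonempty ι] (q : ℕ) [hq : Fact q.Prime] [CharP R q] (X : Matrix ι ι R) :
    Polynomial.expand R q (X ^ q).charpoly = X.charpoly ^ q := by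
  unfold Matrix.charpoly
  rw [AlgHom.map_det, ← coe_detMonoidHom, ← (detMonoidHom : Matrix ι ι R[X] →* R[X]).map_pow]
  apply congr_arg det
  refine matPolyEquiv.injective ?_
  rw [map_pow, matPolyEquiv_charmatrix, sub_pow_char_of_commute, ← C_pow]
  · exact matPolyEquiv_eq_X_pow_sub_C q X
  · exact (C X).commute_X

theorem trace_frob (q : ℕ) [hq : Fact q.Prime] [CharP R q] (X : Matrix ι ι R) :
    (X ^ q).trace = X.trace ^ q := by
  cases isEmpty_or_nonempty ι with
  | inl h => simp [Matrix.trace, zero_pow hq.out.ne_zero]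
  | inr h =>
    have h1 := congrArg (fun f : R[X] => f.coeff ((Fintype.card ι - 1) * q)) (charpoly_frob q X)
    simp only [coeff_expand_mul hq.out.pos] at h1
    rw [← map_frobenius_expand, Polynomial.coeff_map, coeff_expand_mul hq.out.pos, frobenius_def] at h1
    rw [Matrix.trace_eq_neg_charpoly_coeff, Matrix.trace_eq_neg_charpoly_coeff, h1, neg_pow]
    have h2 : ((-1 : R)) ^ q = -1 := by
      have := map_neg (frobenius R q) 1
      rw [frobenius_def, frobenius_def, one_pow] at this
      exact this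
    rw [h2]
    ring

end trace

section words

variable {G R ι : Type*} [Group G] [CommRing R] [Fintype ι] [DecidableEq ι]
  {u v : G → Matrix ι ι R} {S : Finset G} {q : ℕ} [hq : Fact q.Prime] [CharP R q]

theorem int_frob (n : ℤ) : ((n : ℤ) : R) ^ q = n := by
  rw [← frobenius_def, map_intCast]

theorem sum_frob {J : Type*} (s : Finset J) (t : J → R) (n : J → ℤ) :
    ∑ c ∈ s, t c ^ q * (n c : R) = (∑ c ∈ s, t c * (n c : R)) ^ q := by
  rw [sum_pow_char]
  refine Finset.sum_congr rfl fun c _ => ?_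
  rw [mul_pow, int_frob]

theorem frob_char (f : G → G → ℤ) (hf : ∀ x y z, f (x * y) z - f x (y * z) + f (z * x) y = 0)
    (hX : ∀ x y, ¬ (0 < orderOf (x * y)) → f x y = 0)
    (hE : Inv1 u v S) (hE' : Inv1 v u S) :
    ∑ c : S × S, (v c.1 * u c.2).trace * (f c.1 c.2 : R) =
      (∑ c : S × S, (v c.1 * u c.2).trace * ((fr f q c.1 c.2 : ℤ) : R)) ^ q := by
  classical
  have hXc : ∀ a g : G, 0 < orderOf g → 0 < orderOf (a * g * a⁻¹) := by
    intro a g hg
    have : orderOf (a * g * a⁻¹) = orderOf g := (MulAut.conj a).orderOf_eq g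
    rw [this]; exact hg
  obtain ⟨h, hh, hh0⟩ := exists_pot_list f hf
    (fun n x hn hx => by
      rw [nsmul_eq_mul] at hx
      exact (mul_eq_zero.1 hx).resolve_left (by exact_mod_cast hn.ne'))
    (fun g => 0 < orderOf g) hX hXc (fun g hg => hg)
  obtain ⟨k, hk⟩ : ∃ k, q = k + 1 := ⟨q - 1, (Nat.succ_pred_eq_of_pos hq.out.pos).symm⟩
  let F : G → G → R := fun x y => ((f x y : ℤ) : R)
  let H : List G → R := fun l => ((h l : ℤ) : R)
  have hF : ∀ x y z, F (x * y) z - F x (y * z) + F (z * x) y = 0 := by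
    intro x y z
    show ((f (x * y) z : ℤ) : R) - ((f x (y * z) : ℤ) : R) + ((f (z * x) y : ℤ) : R) = 0
    rw [← Int.cast_sub, ← Int.cast_add, hf, Int.cast_zero]
  have hH : ∀ l, kk F l = H l - H (ro l) := by
    intro l
    show ((kk f l : ℤ) : R) = ((h l : ℤ) : R) - ((h (ro l) : ℤ) : R)
    rw [← Int.cast_sub, hh]
  have e0 : ∑ c : S × S, (v c.1 * u c.2).trace * (f c.1 c.2 : R) =
      ∑ c : S × S, (v c.1 * u c.2).trace • F c.1 c.2 := rfl
  rw [e0, ← sum_Ft hE hE' F H k]
  obtain ⟨ψ, hψ⟩ : ∃ ψ : (Fin (k + 1) → S × S) → R, ψ = fun w =>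
    co u v (wl S w) • Ft F H (wl S w) := ⟨_, rfl⟩
  have hinv : ∀ w, ψ (rw1 w) = ψ w := by
    intro w
    rw [hψ]
    have h1 : wl S (rw1 w) = ro (wl S w) := wl_rw1 w 1
    show co u v (wl S (rw1 w)) • Ft F H (wl S (rw1 w)) = _
    rw [h1, co_ro, Ft_ro F H hF hH]
  have hrinj : Function.Injective (rw1 (α := S × S) (k := k)) := by
    intro w w' hww
    have h1 := congrArg (rw1^[k]) hww
    rw [← Function.iterate_succ_apply, ← Function.iterate_succ_apply] at h1
    have h2 := rw1_per w
    have h3 := rw1_per w'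
    rw [Nat.succ_eq_add_one, h2, h3] at h1
    exact h1
  obtain ⟨y1, hy1⟩ : ∃ y, ∑ w, (if rw1 w = w then 0 else ψ w) = q ^ 1 • y := by
    refine orb_sum (rw1 (α := S × S) (k := k)) q 1 1 hq.out ?_ _ ?_ ?_
    · intro w
      rw [pow_one, hk]
      exact rw1_per w
    · intro w
      have h1 : rw1 (rw1 w) = rw1 w ↔ rw1 w = w := ⟨fun h => hrinj h, fun h => congrArg rw1 h⟩
      by_cases hw : rw1 w = w
      · rw [if_pos hw, if_pos (h1.2 hw)]
      · rw [if_neg hw, if_neg fun h => hw (h1.1 h), hinv]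
    · intro i hi w hw
      have hi0 : i = 0 := by omega
      subst hi0
      have hw' : rw1 w = w := hw
      refine ⟨0, ?_⟩
      rw [if_pos hw', smul_zero]
  have hq0 : ((q : ℕ) : R) = 0 := CharP.cast_eq_zero R q
  rw [pow_one, nsmul_eq_mul, hq0, zero_mul] at hy1
  have hsplit : ∑ w, ψ w = ∑ w, (if rw1 w = w then 0 else ψ w) +
      ∑ w, (if rw1 w = w then ψ w else 0) := by
    rw [← Finset.sum_add_distrib]
    refine Finset.sum_congr rfl fun w _ => ?_
    split_ifs <;> simp
  have hfix : ∑ w, (if rw1 w = w then ψ w else 0) = ∑ c : S × S, ψ (fun _ => c) := by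
    rw [← Finset.sum_filter]
    symm
    refine Finset.sum_bij (fun c _ => fun _ => c) ?_ ?_ ?_ ?_
    · intro c _
      rw [Finset.mem_filter]
      exact ⟨Finset.mem_univ _, rfl⟩
    · intro c _ c' _ h
      exact congrFun h 0
    · intro w hw
      exact ⟨w 0, Finset.mem_univ _, (rw1_fix (Finset.mem_filter.1 hw).2).symm⟩
    · intro c _
      rfl
  have hwl : ∀ c : S × S, wl S (fun _ : Fin (k + 1) => c) =
      List.replicate (k + 1) ((c.1 : G), (c.2 : G)) := by
    intro c
    unfold wl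
    rw [List.ofFn_const]
  have hval : ∀ c : S × S, ψ (fun _ => c) = (v c.1 * u c.2).trace ^ q *
      ((fr f q c.1 c.2 + h (List.replicate q ((c.2 : G) * c.1)) -
        h (List.replicate q ((c.1 : G) * c.2)) : ℤ) : R) := by
    intro c
    have h1 : Ft F H (wl S (fun _ : Fin (k + 1) => c)) =
        ((fr f q c.1 c.2 + h (List.replicate q ((c.2 : G) * c.1)) -
        h (List.replicate q ((c.1 : G) * c.2)) : ℤ) : R) := by
      rw [hwl]
      unfold Ft tg sr
      rw [la_rep, th_rep, List.map_replicate, List.map_replicate, List.prod_replicate, ← hk]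
      rw [Int.cast_sub, Int.cast_add]
      rfl
    have h2 : co u v (wl S (fun _ : Fin (k + 1) => c)) = (v c.1 * u c.2).trace ^ q := by
      rw [hwl, ← trace_frob]
      unfold co
      rw [List.map_replicate, List.prod_replicate, ← hk]
    rw [hψ]
    show co u v (wl S (fun _ : Fin (k + 1) => c)) • Ft F H (wl S (fun _ : Fin (k + 1) => c)) = _
    rw [h1, h2, smul_eq_mul]
  have htot : ∑ w : Fin (k + 1) → S × S, co u v (wl S w) • Ft F H (wl S w) = ∑ w, ψ w := by
    rw [hψ]
  rw [htot, hsplit, hy1, zero_add, hfix, Finset.sum_congr rfl fun c _ => hval c, sum_frob]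
  congr 1
  have h5 : ∀ c : S × S, (v c.1 * u c.2).trace *
      ((fr f q c.1 c.2 + h (List.replicate q ((c.2 : G) * c.1)) -
        h (List.replicate q ((c.1 : G) * c.2)) : ℤ) : R) =
      (v c.1 * u c.2).trace * ((fr f q c.1 c.2 : ℤ) : R) +
      ((v c.1 * u c.2).trace • ((h (List.replicate q ((c.2 : G) * c.1)) : ℤ) : R) -
        (v c.1 * u c.2).trace • ((h (List.replicate q ((c.1 : G) * c.2)) : ℤ) : R)) := by
    intro c
    rw [Int.cast_sub, Int.cast_add, smul_eq_mul, smul_eq_mul]
    ring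
  rw [Finset.sum_congr rfl fun c _ => h5 c, Finset.sum_add_distrib, Finset.sum_sub_distrib,
    sum_tgt1 hE' (fun g => ((h (List.replicate q g) : ℤ) : R)),
    sum_src1 hE (fun g => ((h (List.replicate q g) : ℤ) : R)), sub_self, add_zero]

end words

section all

variable {G : Type} [Group G] {ι : Type} [Fintype ι] [DecidableEq ι]

theorem prg_frob {S : Type} [CommRing S] {q : ℕ} [hq : Fact q.Prime] [CharP S q] (f : G → G → ℤ)
    (hf : ∀ x y z, f (x * y) z - f x (y * z) + f (z * x) y = 0)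
    (hX : ∀ x y, ¬ (0 < orderOf (x * y)) → f x y = 0) {A B : Matrix ι ι (MonoidAlgebra S G)}
    (hAB : A * B = 1) (hBA : B * A = 1) :
    prg (fun x y => ((f x y : ℤ) : S)) B A = prg (fun x y => ((fr f q x y : ℤ) : S)) B A ^ q := by
  classical
  have h := frob_char (R := S) (q := q) f hf hX
    (inv1_of A B hBA _ (Finset.subset_union_left (s₂ := spt B)) Finset.subset_union_right)
    (inv1_of B A hAB _ (Finset.subset_union_right (s₁ := spt A)) Finset.subset_union_left)
  rw [prg_eq _ B A (spt A ∪ spt B) Finset.subset_union_left Finset.subset_union_right,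
    prg_eq _ B A (spt A ∪ spt B) Finset.subset_union_left Finset.subset_union_right]
  exact h

theorem prg_frob_all {R : Type} [CommRing R] {q : ℕ} (hq : q.Prime) (f : G → G → ℤ)
    (hf : ∀ x y z, f (x * y) z - f x (y * z) + f (z * x) y = 0)
    (hX : ∀ x y, ¬ (0 < orderOf (x * y)) → f x y = 0) {A B : Matrix ι ι (MonoidAlgebra R G)}
    (hAB : A * B = 1) (hBA : B * A = 1) :
    ∃ r : R, prg (fun x y => ((f x y : ℤ) : R)) B A =
      prg (fun x y => ((fr f q x y : ℤ) : R)) B A ^ q + q * r := by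
  have : Fact q.Prime := ⟨hq⟩
  by_cases hu : IsUnit ((q : ℕ) : R)
  · obtain ⟨u, hu⟩ := hu
    refine ⟨((u⁻¹ : Rˣ) : R) * (prg (fun x y => ((f x y : ℤ) : R)) B A -
      prg (fun x y => ((fr f q x y : ℤ) : R)) B A ^ q), ?_⟩
    rw [← hu, ← mul_assoc, Units.mul_inv]
    ring
  · have hch : CharP (R ⧸ Ideal.span {((q : ℕ) : R)}) q := CharP.quotient R q hu
    let θ : R →+* R ⧸ Ideal.span {((q : ℕ) : R)} := Ideal.Quotient.mk _
    have hA : A.map (mapRingHom G θ) * B.map (mapRingHom G θ) = 1 := by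
      rw [← Matrix.map_mul, hAB, Matrix.map_one _ (map_zero _) (map_one _)]
    have hB : B.map (mapRingHom G θ) * A.map (mapRingHom G θ) = 1 := by
      rw [← Matrix.map_mul, hBA, Matrix.map_one _ (map_zero _) (map_one _)]
    have h1 := prg_frob f hf hX hA hB (q := q)
    have h2 : ∀ F : G → G → ℤ, prg (fun x y => ((F x y : ℤ) : R ⧸ Ideal.span {((q : ℕ) : R)}))
        (B.map (mapRingHom G θ)) (A.map (mapRingHom G θ)) =
        θ (prg (fun x y => ((F x y : ℤ) : R)) B A) := by
      intro F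
      rw [← prg_map]
      congr 1
    rw [h2, h2, ← map_pow, ← sub_eq_zero, ← map_sub] at h1
    have h3 := Ideal.Quotient.eq_zero_iff_mem.1 h1
    rw [Ideal.mem_span_singleton] at h3
    obtain ⟨r, hr⟩ := h3
    exact ⟨r, by rw [← hr]; ring⟩

end all

end

end Pool.Agent.T9h42
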