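import Pool.Agent.T9h42.GZ.Frob
import Pool.Agent.T9h42.Dn

/-!
# The Dennis trace over the rational numbers and powers of the group elements
-/

set_option linter.unusedSectionVars false

namespace Pool.Agent.T9h42

open Finset MonoidAlgebra

noncomputable section

section fr

variable {G M : Type*} [Group G] [AddCommGroup M]

/-- the pull-back of a cocycle along the `q`-th power map -/
def fr (f : G → G → M) (q : ℕ) (x y : G) : M := ar f y ((x * y) ^ q)

theorem fr_coc (f : G → G → M) (hf : ∀ x y z, f (x * y) z - f x (y * z) + f (z * x) y = 0) (q : ℕ)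
    (x y z : G) : fr f q (x * y) z - fr f q x (y * z) + fr f q (z * x) y = 0 := by
  unfold fr
  have h := ar_mul f hf z y ((x * y * z) ^ q)
  have e1 : x * (y * z) = x * y * z := (mul_assoc x y z).symm
  have e2 : z * (x * y * z) ^ q * z⁻¹ = (z * x * y) ^ q := by
    rw [← conj_pow]
    congr 1
    group
  rw [e1, h, e2]
  abel

open Classical in
/-- the cocycle for the `s`-th power map on the elements with `g ^ m = 1` -/
def fs (f : G → G → M) (m s : ℕ) (x y : G) : M :=
  if (x * y) ^ m = 1 then ar f y ((x * y) ^ s) else 0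

theorem pow_cyc (m : ℕ) (x y : G) : (x * y) ^ m = 1 ↔ (y * x) ^ m = 1 := by
  have h : y * x = y * (x * y) * y⁻¹ := by group
  rw [h, conj_pow]
  constructor
  · intro h1
    rw [h1]; group
  · intro h1
    have := congrArg (fun z => y⁻¹ * z * y) h1
    simpa [mul_assoc] using this

theorem cut_coc (f : G → G → M) (hf : ∀ x y z, f (x * y) z - f x (y * z) + f (z * x) y = 0)
    (P : G → Prop) [DecidablePred P] (hP : ∀ x y, P (x * y) ↔ P (y * x)) (x y z : G) :
    (if P (x * y * z) then f (x * y) z else 0) - (if P (x * (y * z)) then f x (y * z) else 0) +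
      (if P (z * x * y) then f (z * x) y else 0) = 0 := by
  have h1 : P (x * (y * z)) ↔ P (x * y * z) := by rw [mul_assoc]
  have h2 : P (z * x * y) ↔ P (x * y * z) := by rw [mul_assoc, hP]
  by_cases h : P (x * y * z)
  · rw [if_pos h, if_pos (h1.2 h), if_pos (h2.2 h)]
    exact hf x y z
  · rw [if_neg h, if_neg fun h' => h (h1.1 h'), if_neg fun h' => h (h2.1 h')]
    simp

theorem fs_coc (f : G → G → M) (hf : ∀ x y z, f (x * y) z - f x (y * z) + f (z * x) y = 0)
    (m s : ℕ) (x y z : G) : fs f m s (x * y) z - fs f m s x (y * z) + fs f m s (z * x) y = 0 := by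
  classical
  exact cut_coc (fr f s) (fr_coc f hf s) (fun g => g ^ m = 1) (pow_cyc m) x y z

end fr

section padic

variable {G : Type*} [Group G] {q : ℕ} [hq : Fact q.Prime] {ι : Type*} [Fintype ι]
  [DecidableEq ι]

theorem padic_trace (X : Matrix ι ι ℤ_[q]) : ∃ s, (X ^ q).trace = X.trace + q * s := by
  have h1 : PadicInt.toZMod (X ^ q).trace = PadicInt.toZMod X.trace := by
    have h2 : ∀ Y : Matrix ι ι ℤ_[q], PadicInt.toZMod Y.trace =
        (Y.map (PadicInt.toZMod (p := q))).trace := by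
      intro Y
      unfold Matrix.trace
      rw [map_sum]
      rfl
    have h3 : (X ^ q).map (PadicInt.toZMod (p := q)) = (X.map (PadicInt.toZMod (p := q))) ^ q :=
      map_pow (PadicInt.toZMod (p := q)).mapMatrix X q
    rw [h2, h3, ZMod.trace_pow_card, ZMod.pow_card, h2]
  have h2 : (X ^ q).trace - X.trace ∈ RingHom.ker (PadicInt.toZMod (p := q)) := by
    rw [RingHom.mem_ker, map_sub, h1, sub_self]
  rw [PadicInt.ker_toZMod, PadicInt.maximalIdeal_eq_span_p, Ideal.mem_span_singleton] at h2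
  obtain ⟨s, hs⟩ := h2
  exact ⟨s, by rw [← hs]; ring⟩

theorem padic_tf (n : ℕ) (x : ℤ_[q]) (hn : 0 < n) (h : n • x = 0) : x = 0 := by
  rw [nsmul_eq_mul] at h
  exact (mul_eq_zero.1 h).resolve_left (Nat.cast_ne_zero.2 hn.ne')

theorem padic_sep (x : ℤ_[q]) (h : ∀ k : ℕ, ∃ y, x = q ^ k • y) : x = 0 := by
  by_contra hx
  obtain ⟨y, hy⟩ := h (x.valuation + 1)
  have h1 : x ∈ Ideal.span {((q : ℤ_[q]) ^ (x.valuation + 1))} := by
    rw [Ideal.mem_span_singleton]
    refine ⟨y, ?_⟩
    have h2 := hy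
    rw [nsmul_eq_mul, Nat.cast_pow] at h2
    exact h2
  rw [PadicInt.mem_span_pow_iff_le_valuation x hx] at h1
  omega

variable (f : G → G → ℤ_[q]) (hf : ∀ x y z, f (x * y) z - f x (y * z) + f (z * x) y = 0)
  {A B : Matrix ι ι (MonoidAlgebra ℤ_[q] G)}

include hf in
theorem frob_prg (hX : ∀ x y, ¬ (0 < orderOf (x * y)) → f x y = 0) (hAB : A * B = 1)
    (hBA : B * A = 1) : ∃ y, prg f B A = prg (fr f q) B A + q • y := by
  classical
  have h := frob_sum (R := ℤ_[q]) f hf padic_tf hX hq.out padic_trace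
    (inv1_of A B hBA _ (Finset.subset_union_left (s₂ := spt B)) Finset.subset_union_right)
    (inv1_of B A hAB _ (Finset.subset_union_right (s₁ := spt A)) Finset.subset_union_left)
  rw [prg_eq f B A (spt A ∪ spt B) Finset.subset_union_left Finset.subset_union_right,
    prg_eq (fr f q) B A (spt A ∪ spt B) Finset.subset_union_left Finset.subset_union_right]
  exact h

include hf in
theorem fs_prg {m s : ℕ} (hm : 0 < m) (hX : ∀ x y, (x * y) ^ m ≠ 1 → f x y = 0)
    (hqs : q ≡ s [MOD m]) (hAB : A * B = 1) (hBA : B * A = 1) :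
    ∃ y, prg f B A = prg (fs f m s) B A + q • y := by
  classical
  have hX' : ∀ x y, ¬ (0 < orderOf (x * y)) → f x y = 0 := by
    intro x y h
    apply hX
    intro h1
    exact h (orderOf_pos_iff.2 (isOfFinOrder_iff_pow_eq_one.2 ⟨m, hm, h1⟩))
  obtain ⟨y, hy⟩ := frob_prg f hf hX' hAB hBA
  refine ⟨y, ?_⟩
  rw [hy]
  congr 1
  let D : G → G → ℤ_[q] := fun x y => if ¬ (x * y) ^ m = 1 then fr f q x y else 0
  have hD : prg D B A = 0 := by
    refine prg_sing (p := q) D ?_ padic_tf hq.out padic_sep ?_ hAB hBA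
    · intro x y z
      exact cut_coc (fr f q) (fr_coc f hf q) (fun g => ¬ g ^ m = 1)
        (fun x y => not_congr (pow_cyc m x y)) x y z
    · intro x y hxy
      show (if ¬ (x * y) ^ m = 1 then fr f q x y else 0) = 0
      split_ifs with h1
      · rfl
      · unfold fr ar
        apply hX
        rw [inv_mul_cancel_right]
        intro h2
        apply hxy
        have h3 : (x * y) ^ (q * m) = 1 := by rw [pow_mul]; exact h2
        have h4 : 0 < orderOf (x * y) :=
          orderOf_pos_iff.2 (isOfFinOrder_iff_pow_eq_one.2 ⟨q * m, Nat.mul_pos hq.out.pos hm, h3⟩)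
        refine ⟨h4, ?_⟩
        by_contra h5
        have h6 : orderOf (x * y) ∣ q * m := orderOf_dvd_of_pow_eq_one h3
        have h7 : (orderOf (x * y)).Coprime q := ((hq.out.coprime_iff_not_dvd).2 h5).symm
        exact h1 (orderOf_dvd_iff_pow_eq_one.1 (h7.dvd_of_dvd_mul_left h6))
  have hsum : ∀ x y, fr f q x y = fs f m s x y + D x y := by
    intro x y
    show _ = (if (x * y) ^ m = 1 then ar f y ((x * y) ^ s) else 0) +
      (if ¬ (x * y) ^ m = 1 then fr f q x y else 0)
    by_cases h : (x * y) ^ m = 1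
    · rw [if_pos h, if_neg (not_not.2 h), add_zero]
      unfold fr
      congr 1
      exact pow_eq_pow_of_modEq hqs h
    · rw [if_neg h, if_pos h, zero_add]
  rw [prg_eq (fr f q) B A (spt A ∪ spt B) Finset.subset_union_left Finset.subset_union_right,
    prg_eq (fs f m s) B A (spt A ∪ spt B) Finset.subset_union_left Finset.subset_union_right]
  rw [prg_eq D B A (spt A ∪ spt B) Finset.subset_union_left Finset.subset_union_right] at hD
  rw [← add_zero (∑ c : ↥(spt A ∪ spt B) × ↥(spt A ∪ spt B), (cf B ↑c.1 * cf A ↑c.2).trace •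
    fs f m s ↑c.1 ↑c.2), ← hD, ← Finset.sum_add_distrib]
  refine Finset.sum_congr rfl fun c _ => ?_
  rw [hsum, smul_add]

end padic

section rat

variable {G : Type} [Group G] {ι : Type} [Fintype ι] [DecidableEq ι]

theorem mapR_coeff {R S : Type} [CommRing R] [CommRing S] (θ : R →+* S)
    (x : MonoidAlgebra R G) (g : G) : (mapRingHom G θ x).coeff g = θ (x.coeff g) := by
  simp

theorem prH_map {R S : Type} [CommRing R] [CommRing S] (θ : R →+* S) (f : G → G → R)
    (a b : MonoidAlgebra R G) :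
    prH (fun x y => θ (f x y)) (mapRingHom G θ a) (mapRingHom G θ b) = θ (prH f a b) := by
  induction a using MonoidAlgebra.induction_linear with
  | zero => simp
  | add x y hx hy =>
    rw [map_add, map_add, AddMonoidHom.add_apply, hx, hy, map_add, AddMonoidHom.add_apply, map_add]
  | single g r =>
    induction b using MonoidAlgebra.induction_linear with
    | zero => simp
    | add x y hx hy => rw [map_add, map_add, hx, hy, map_add, map_add]
    | single h s =>
      have h1 : ∀ (g : G) (r : R), mapRingHom G θ (single g r) = single g (θ r) := by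
        intro g r
        simp
      rw [h1, h1, prH_single, prH_single, smul_eq_mul, smul_eq_mul, map_mul, map_mul]

theorem prg_map {R S : Type} [CommRing R] [CommRing S] (θ : R →+* S) (f : G → G → R)
    (B A : Matrix ι ι (MonoidAlgebra R G)) :
    prg (fun x y => θ (f x y)) (B.map (mapRingHom G θ)) (A.map (mapRingHom G θ)) =
      θ (prg f B A) := by
  rw [prg_prm, prg_prm]
  unfold prm
  rw [map_sum]
  refine Finset.sum_congr rfl fun i _ => ?_
  rw [map_sum]
  exact Finset.sum_congr rfl fun j _ => prH_map θ f _ _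

/-- lifting to the `q`-adic integers -/
theorem lift_q {q : ℕ} [hq : Fact q.Prime] (X : MonoidAlgebra ℚ G)
    (hX : ∀ g, ¬ q ∣ (X.coeff g).den) : ∃ Y : MonoidAlgebra ℤ_[q] G,
      mapRingHom G (PadicInt.Coe.ringHom (p := q)) Y = mapRingHom G (algebraMap ℚ ℚ_[q]) X := by
  classical
  let c : G → ℤ_[q] := fun g => ⟨((X.coeff g : ℚ) : ℚ_[q]), Padic.norm_rat_le_one (hX g)⟩
  refine ⟨∑ g ∈ X.coeff.support, single g (c g), ?_⟩
  apply coeff_injective
  ext g
  rw [mapR_coeff, mapR_coeff, coeff_sum, Finsupp.finsetSum_apply]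
  simp only [coeff_single, Finsupp.single_apply]
  rw [Finset.sum_ite_eq']
  split_ifs with h
  · rfl
  · have h1 : X.coeff g = 0 := by simpa using h
    rw [h1, map_zero, map_zero]

theorem lift_matrix {q : ℕ} [hq : Fact q.Prime] (A : Matrix ι ι (MonoidAlgebra ℚ G))
    (hA : ∀ i j g, ¬ q ∣ ((A i j).coeff g).den) : ∃ Y : Matrix ι ι (MonoidAlgebra ℤ_[q] G),
      Y.map (mapRingHom G (PadicInt.Coe.ringHom (p := q))) =
        A.map (mapRingHom G (algebraMap ℚ ℚ_[q])) := by
  choose Y hY using fun i j => lift_q (A i j) (hA i j)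
  refine ⟨Matrix.of Y, ?_⟩
  ext1 i j
  exact hY i j

theorem exists_den (A : Matrix ι ι (MonoidAlgebra ℚ G)) : ∃ N : ℕ, ∀ q : ℕ, N < q → q.Prime →
    ∀ i j g, ¬ q ∣ ((A i j).coeff g).den := by
  classical
  refine ⟨∏ i, ∏ j, ∏ g ∈ (A i j).coeff.support, ((A i j).coeff g).den, fun q hNq hq i j g h => ?_⟩
  by_cases hg : g ∈ (A i j).coeff.support
  · have h1 : q ∣ ∏ i, ∏ j, ∏ g ∈ (A i j).coeff.support, ((A i j).coeff g).den :=
      ((h.trans (Finset.dvd_prod_of_mem (fun g => ((A i j).coeff g).den) hg)).trans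
        (Finset.dvd_prod_of_mem (fun j => ∏ g ∈ (A i j).coeff.support, ((A i j).coeff g).den)
          (Finset.mem_univ j))).trans
        (Finset.dvd_prod_of_mem
          (fun i => ∏ j, ∏ g ∈ (A i j).coeff.support, ((A i j).coeff g).den)
          (Finset.mem_univ i))
    have h2 : 0 < ∏ i, ∏ j, ∏ g ∈ (A i j).coeff.support, ((A i j).coeff g).den :=
      Finset.prod_pos fun i _ => Finset.prod_pos fun j _ => Finset.prod_pos fun g _ =>
        ((A i j).coeff g).den_pos
    exact absurd (Nat.le_of_dvd h2 h1) (by omega)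
  · have h1 : (A i j).coeff g = 0 := by simpa using hg
    rw [h1] at h
    exact hq.one_lt.ne' (Nat.dvd_one.1 h)

/-- **The Dennis trace over the rational numbers is invariant under powers.** -/
theorem gal_prg {m s : ℕ} (hm : 0 < m) (hs : s.Coprime m) (f : G → G → ℤ)
    (hf : ∀ x y z, f (x * y) z - f x (y * z) + f (z * x) y = 0)
    (hX : ∀ x y, (x * y) ^ m ≠ 1 → f x y = 0) {A B : Matrix ι ι (MonoidAlgebra ℚ G)}
    (hAB : A * B = 1) (hBA : B * A = 1) :
    prg (fun x y => ((f x y : ℤ) : ℚ)) B A =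
      prg (fun x y => ((fs f m s x y : ℤ) : ℚ)) B A := by
  obtain ⟨N1, hN1⟩ := exists_den A
  obtain ⟨N2, hN2⟩ := exists_den B
  rw [← sub_eq_zero]
  set t := prg (fun x y => ((f x y : ℤ) : ℚ)) B A -
      prg (fun x y => ((fs f m s x y : ℤ) : ℚ)) B A with ht
  by_contra hne
  obtain ⟨q, hq1, hq2, hq3⟩ := Nat.forall_exists_prime_gt_and_modEq
    (max (max N1 N2) (t.num.natAbs)) hm.ne' hs
  have hq : Fact q.Prime := ⟨hq2⟩
  have hqA := hN1 q (lt_of_le_of_lt ((le_max_left N1 N2).trans (le_max_left _ _)) hq1) hq2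
  have hqB := hN2 q (lt_of_le_of_lt ((le_max_right N1 N2).trans (le_max_left _ _)) hq1) hq2
  obtain ⟨A', hA'⟩ := lift_matrix A hqA
  obtain ⟨B', hB'⟩ := lift_matrix B hqB
  have hinj : Function.Injective (mapRingHom G (PadicInt.Coe.ringHom (p := q))) := by
    intro x y h
    apply coeff_injective
    ext1 g
    have h1 := congrArg (fun z => z.coeff g) h
    simp only [mapR_coeff] at h1
    exact Subtype.val_injective h1
  have hminj : ∀ X Y : Matrix ι ι (MonoidAlgebra ℤ_[q] G),
      X.map (mapRingHom G (PadicInt.Coe.ringHom (p := q))) =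
        Y.map (mapRingHom G (PadicInt.Coe.ringHom (p := q))) → X = Y := by
    intro X Y h
    ext1 i j
    exact hinj (congrFun (congrFun h i) j)
  have hAB' : A' * B' = 1 := by
    apply hminj
    rw [Matrix.map_mul, hA', hB', ← Matrix.map_mul, hAB, Matrix.map_one _ (map_zero _) (map_one _),
      Matrix.map_one _ (map_zero _) (map_one _)]
  have hBA' : B' * A' = 1 := by
    apply hminj
    rw [Matrix.map_mul, hA', hB', ← Matrix.map_mul, hBA, Matrix.map_one _ (map_zero _) (map_one _),
      Matrix.map_one _ (map_zero _) (map_one _)]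
  obtain ⟨y, hy⟩ := fs_prg (fun x y => ((f x y : ℤ) : ℤ_[q])) (by
      intro x y z
      have h := hf x y z
      exact_mod_cast h) hm (s := s) (by
      intro x y hxy
      rw [hX x y hxy, Int.cast_zero]) hq3 hAB' hBA'
  -- transport
  have htr : ∀ F : G → G → ℤ, ((prg (fun x y => ((F x y : ℤ) : ℚ)) B A : ℚ) : ℚ_[q]) =
      ((prg (fun x y => ((F x y : ℤ) : ℤ_[q])) B' A' : ℤ_[q]) : ℚ_[q]) := by
    intro F
    have h1 := prg_map (algebraMap ℚ ℚ_[q]) (fun x y => ((F x y : ℤ) : ℚ)) B A
    have h2 := prg_map (PadicInt.Coe.ringHom (p := q)) (fun x y => ((F x y : ℤ) : ℤ_[q])) B' A'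
    rw [hA', hB'] at h2
    have h3 : (fun x y => algebraMap ℚ ℚ_[q] ((F x y : ℤ) : ℚ)) =
        fun x y => PadicInt.Coe.ringHom (p := q) ((F x y : ℤ) : ℤ_[q]) := by
      funext x y
      rw [map_intCast, map_intCast]
    rw [h3, h2] at h1
    exact h1.symm
  have hfs : (fun x y => ((fs f m s x y : ℤ) : ℤ_[q])) =
      fs (fun x y => ((f x y : ℤ) : ℤ_[q])) m s := by
    funext x y
    unfold fs ar
    split_ifs
    · rfl
    · exact Int.cast_zero
  have h4 : ((t : ℚ) : ℚ_[q]) = (((q : ℤ_[q]) * y : ℤ_[q]) : ℚ_[q]) := by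
    rw [ht, Rat.cast_sub, htr f, htr (fs f m s), hfs, hy, nsmul_eq_mul, PadicInt.coe_add]
    ring
  have h5 : ‖((t : ℚ) : ℚ_[q])‖ < 1 := by
    rw [h4]
    have h6 : ‖((q : ℤ_[q]) * y : ℤ_[q])‖ < 1 := by
      rw [PadicInt.norm_lt_one_iff_dvd]
      exact Dvd.intro _ rfl
    exact h6
  have h7 : (q : ℤ) ∣ t.num := by
    rw [← Padic.norm_intCast_lt_one_iff]
    have h10 : ((t.num : ℤ) : ℚ_[q]) = ((t : ℚ) : ℚ_[q]) * ((t.den : ℕ) : ℚ_[q]) := by
      have h11 : ((t.num : ℤ) : ℚ) = t * (t.den : ℕ) := (Rat.mul_den_eq_num t).symm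
      have h12 : (((t.num : ℤ) : ℚ) : ℚ_[q]) = ((t * ((t.den : ℕ) : ℚ) : ℚ) : ℚ_[q]) :=
        congrArg (fun z : ℚ => (z : ℚ_[q])) h11
      rw [Rat.cast_mul, Rat.cast_natCast, Rat.cast_intCast] at h12
      exact h12
    rw [h10, norm_mul]
    exact lt_of_le_of_lt (mul_le_of_le_one_right (norm_nonneg _)
      (Padic.norm_int_le_one (p := q) (t.den : ℤ))) h5
  have h8 : t.num.natAbs < q := lt_of_le_of_lt (le_max_right _ _) hq1
  have h9 : t.num = 0 := by
    by_contra h10
    have h11 := Nat.le_of_dvd (Int.natAbs_pos.2 h10) (Int.natCast_dvd.1 h7)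
    omega
  exact hne (Rat.num_eq_zero.1 h9)

end rat

end

end Pool.Agent.T9h42
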