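import Pool.Agent.T9h42.GZ.CmbQ

/-!
# Sums of symbols on cyclic groups with vanishing traces
-/

set_option linter.unusedSectionVars false

namespace Pool.Agent.T9h42.Q

open MonoidAlgebra Pool.Agent.Y69 Pool.Agent.Y69.StepC Pool.Agent.Y778.NK Pool.Agent.T9h42

noncomputable section

/-- A finite cyclic group with an injective homomorphism to `G`, an element
of the centralizer of its image and a combination of idempotents which is supported on
generators. -/
structure ZObj (R G : Type) [CommRing R] [Group G] where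
  /-- the group -/
  C : Type
  /-- the group structure -/
  grp : CommGroup C
  fin : Finite C
  cyc : IsCyclic C
  /-- the inclusion -/
  φ : C →* G
  inj : Function.Injective φ
  /-- the element of the centralizer -/
  z : G
  hz : ∀ c, z * φ c = φ c * z
  /-- the combination of idempotents -/
  u : Hn (MonoidAlgebra R C)
  good : ∀ c, Subgroup.zpowers c ≠ ⊤ → u.1.coeff c = 0

attribute [instance] ZObj.grp ZObj.fin ZObj.cyc

section glo

variable {Λ k R W : Type} [AddCommGroup Λ] [CommRing k] [CommRing R] [CommRing W]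
  [IsDomain W] (D : Lg Λ k R W) (htf : TF R) {G : Type} [Group G]

/-- the symbol -/
def ZObj.val (X : ZObj R G) : ZK k G := sv D htf X.φ X.z X.hz X.u

/-- the trace -/
def ZObj.trc (c : G) (χ : G → W) (X : ZObj R G) : W := tau D c χ X.φ X.z X.u

/-- conjugate objects -/
def ZObj.Cj (X Y : ZObj R G) : Prop :=
  ∃ (f : Y.C ≃* X.C) (g : G), ∀ y, X.φ (f y) = g * Y.φ y * g⁻¹

theorem ZObj.Cj.refl (X : ZObj R G) : X.Cj X :=
  ⟨MulEquiv.refl _, 1, fun y => by simp⟩

theorem ZObj.trc_ne {c : G} {χ : G → W} {X : ZObj R G} (h : X.trc D c χ ≠ 0) :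
    ∃ h : X.C, Subgroup.zpowers h = ⊤ ∧ IsConj c (X.φ h) := by
  classical
  have := Fintype.ofFinite X.C
  by_contra hc
  push Not at hc
  apply h
  show tau D c χ X.φ X.z X.u = 0
  rw [tau_eq]
  refine Finset.sum_eq_zero fun y _ => ?_
  by_cases hy : Subgroup.zpowers y = ⊤
  · rw [cocf_val _ _ _ _ (X.hz y), if_neg (hc y hy), mul_zero]
  · rw [X.good y hy, map_zero, zero_mul]

theorem ZObj.cj_of {c : G} {X Y : ZObj R G} {h : X.C} (hh : Subgroup.zpowers h = ⊤)
    (hc : IsConj c (X.φ h)) {y : Y.C} (hy : Subgroup.zpowers y = ⊤) (hc' : IsConj c (Y.φ y)) :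
    X.Cj Y := by
  obtain ⟨s, hs⟩ := isConj_iff.1 (hc'.symm.trans hc)
  have ho : orderOf y = orderOf h := by
    rw [← orderOf_injective Y.φ Y.inj y, ← orderOf_injective X.φ X.inj h, ← hs]
    exact ((MulAut.conj s).orderOf_eq (Y.φ y)).symm
  have hy' : ∀ z, z ∈ Subgroup.zpowers y := fun z => by rw [hy]; exact Subgroup.mem_top z
  have hh' : ∀ z, z ∈ Subgroup.zpowers h := fun z => by rw [hh]; exact Subgroup.mem_top z
  let w : Y.C ≃* X.C := mulEquivOfOrderOfEq hy' hh' ho
  have hwy : w y = h := mulEquivOfOrderOfEq_apply_gen hy' hh' ho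
  refine ⟨w, s, fun z => ?_⟩
  obtain ⟨n, rfl⟩ := Subgroup.mem_zpowers_iff.1 (hy' z)
  rw [map_zpow, hwy, map_zpow, map_zpow, ← hs, ← conj_zpow]

theorem ZObj.gen_of_cj {c : G} {X Y : ZObj R G} (hXY : X.Cj Y) {y : Y.C}
    (hy : Subgroup.zpowers y = ⊤) (hc : IsConj c (Y.φ y)) :
    ∃ h : X.C, Subgroup.zpowers h = ⊤ ∧ IsConj c (X.φ h) := by
  obtain ⟨f, g, hfg⟩ := hXY
  refine ⟨f y, ?_, ?_⟩
  · rw [eq_top_iff]
    intro x _
    have hx : f.symm x ∈ Subgroup.zpowers y := by rw [hy]; exact Subgroup.mem_top _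
    obtain ⟨n, hn⟩ := Subgroup.mem_zpowers_iff.1 hx
    refine Subgroup.mem_zpowers_iff.2 ⟨n, ?_⟩
    rw [← map_zpow, hn, MulEquiv.apply_symm_apply]
  · rw [hfg]
    exact hc.trans (isConj_iff.2 ⟨g, rfl⟩)

/-- **The global statement.** -/
theorem global_dv {ι : Type} (s : Finset ι) (X : ι → ZObj R G)
    (h0 : ∀ c : G, 0 < orderOf c → ∀ χ : G → Λ, AddOnC c χ →
      ∑ i ∈ s, (X i).trc D c (fun g => D.j (χ g)) = 0) :
    ∃ n : ℕ, 0 < n ∧ n • ∑ i ∈ s, (X i).val D htf ∈ DvG k G Λ := by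
  classical
  induction s using Finset.strongInduction with
  | H s ih =>
    rcases s.eq_empty_or_nonempty with rfl | ⟨i₀, hi₀⟩
    · exact ⟨1, one_pos, by simp⟩
    set s₀ := s.filter fun i => (X i₀).Cj (X i) with hs₀
    set s₁ := s.filter fun i => ¬ (X i₀).Cj (X i) with hs₁
    have hss : s₁ ⊂ s := by
      refine (Finset.filter_subset _ _).ssubset_of_ne fun h => ?_
      have := (Finset.filter_eq_self.1 h) i₀ hi₀
      exact this (ZObj.Cj.refl _)
    have hsum : ∀ {A : Type} [AddCommGroup A] (F : ι → A), ∑ i ∈ s₀, F i + ∑ i ∈ s₁, F i =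
        ∑ i ∈ s, F i := fun F => Finset.sum_filter_add_sum_filter_not s _ F
    have h0₀ : ∀ c : G, 0 < orderOf c → ∀ χ : G → Λ, AddOnC c χ →
        ∑ i ∈ s₀, (X i).trc D c (fun g => D.j (χ g)) = 0 := by
      intro c hc χ hχ
      by_cases hex : ∃ i ∈ s₀, (X i).trc D c (fun g => D.j (χ g)) ≠ 0
      · obtain ⟨i, hi, hne⟩ := hex
        obtain ⟨y, hy, hcy⟩ := ZObj.trc_ne D hne
        obtain ⟨h, hh, hch⟩ := ZObj.gen_of_cj (Finset.mem_filter.1 hi).2 hy hcy
        have h1 : ∑ i ∈ s₁, (X i).trc D c (fun g => D.j (χ g)) = 0 := by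
          refine Finset.sum_eq_zero fun i' hi' => ?_
          by_contra hne'
          obtain ⟨y', hy', hcy'⟩ := ZObj.trc_ne D hne'
          exact (Finset.mem_filter.1 hi').2 (ZObj.cj_of hh hch hy' hcy')
        have h2 := hsum (fun i => (X i).trc D c (fun g => D.j (χ g)))
        rw [h1, add_zero, h0 c hc χ hχ] at h2
        exact h2
      · push Not at hex
        exact Finset.sum_eq_zero hex
    have h0₁ : ∀ c : G, 0 < orderOf c → ∀ χ : G → Λ, AddOnC c χ →
        ∑ i ∈ s₁, (X i).trc D c (fun g => D.j (χ g)) = 0 := by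
      intro c hc χ hχ
      have h2 := hsum (fun i => (X i).trc D c (fun g => D.j (χ g)))
      rw [h0₀ c hc χ hχ, zero_add, h0 c hc χ hχ] at h2
      exact h2
    obtain ⟨n₁, hn₁, hm₁⟩ := ih s₁ hss h0₁
    choose f g hfg using fun (a : {i // i ∈ s₀}) => (Finset.mem_filter.1 a.2).2
    let v : {i // i ∈ s₀} → G := fun a => g a * (X a.1).z * (g a)⁻¹
    let x : {i // i ∈ s₀} → Hn (MonoidAlgebra R (X i₀).C) := fun a =>
      Hmap (mapDomainRingHom R (f a).toMonoidHom) (X a.1).u
    have hv : ∀ (a : {i // i ∈ s₀}) c, v a * (X i₀).φ c = (X i₀).φ c * v a := by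
      intro a c
      have h1 := hfg a ((f a).symm c)
      rw [MulEquiv.apply_symm_apply] at h1
      have h2 := (X a.1).hz ((f a).symm c)
      show g a * (X a.1).z * (g a)⁻¹ * (X i₀).φ c =
        (X i₀).φ c * (g a * (X a.1).z * (g a)⁻¹)
      rw [h1]
      calc g a * (X a.1).z * (g a)⁻¹ * (g a * (X a.1).φ ((f a).symm c) * (g a)⁻¹)
          = g a * ((X a.1).z * (X a.1).φ ((f a).symm c)) * (g a)⁻¹ := by group
        _ = _ := by rw [h2]; group
    have hval : ∀ a : {i // i ∈ s₀}, sv D htf (X i₀).φ (v a) (hv a) (x a) =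
        (X a.1).val D htf := fun a =>
      sv_conj D htf (X i₀).φ (X a.1).φ (f a).toMonoidHom (g a) (hfg a) _ _ _ _ rfl _
    have htrc : ∀ (a : {i // i ∈ s₀}) (c : G) (χ : G → W), AddOnC c χ →
        tau D c χ (X i₀).φ (v a) (x a) = (X a.1).trc D c χ := fun a c χ hχ =>
      tau_conj D hχ (X i₀).φ (X a.1).φ (f a) (g a) (hfg a) _ _ (hv a) (X a.1).hz rfl _
    obtain ⟨n₀, hn₀, hm₀⟩ := local_dv D htf (X i₀).cyc (X i₀).φ (X i₀).inj v hv x
      (by
        intro a c hc
        show (mapDomainRingHom R (f a).toMonoidHom (X a.1).u.1).coeff c = 0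
        have h1 := coeff_map (R := R) (f a).toMonoidHom (f a).injective (X a.1).u.1
          ((f a).symm c)
        have h2 : (f a).toMonoidHom ((f a).symm c) = c := (f a).apply_symm_apply c
        rw [h2] at h1
        rw [h1]
        apply (X a.1).good
        apply Theory.zpowers_map_top (f a)
        rwa [MulEquiv.apply_symm_apply])
      (by
        intro c hc χ hχ
        have hχ' : AddOnC c (fun g => D.j (χ g)) := by
          intro a b ha hb
          show D.j _ = D.j _ + D.j _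
          rw [hχ a b ha hb, map_add]
        rw [Finset.sum_congr rfl fun a _ => htrc a c _ hχ']
        rw [← h0₀ c hc χ hχ]
        exact Finset.sum_coe_sort s₀ fun i => (X i).trc D c (fun g => D.j (χ g)))
    refine ⟨n₀ * n₁, Nat.mul_pos hn₀ hn₁, ?_⟩
    rw [← hsum, smul_add]
    refine add_mem ?_ ?_
    · rw [mul_comm, mul_smul, ← Finset.sum_coe_sort s₀ fun i => (X i).val D htf,
        Finset.sum_congr rfl fun a _ => (hval a).symm]
      exact AddSubgroup.nsmul_mem _ hm₀ _
    · rw [mul_smul]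
      exact AddSubgroup.nsmul_mem _ hm₁ _

end glo

end

end Pool.Agent.T9h42.Q
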