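import Pool.Agent.T9h42.GZ.BtQ
import Pool.Agent.T9h42.DP.Fin
import Pool.Agent.T9h42.DP.Stm
import Pool.Agent.Y69.TK.KFinal

/-!
# Degree one for fields of characteristic zero
-/

set_option linter.unusedSectionVars false

namespace Pool.Agent.T9h42.Q

open MonoidAlgebra H970SH H842 Pool.Agent.Y69 Pool.Agent.Y69.StepC Pool.Agent.Y778.NK
  Pool.Agent.T9h42

noncomputable section

variable {F : Type} [Field F] [CharZero F] {G : Type} [Group G]

variable (F) in
/-- the data with values in the field -/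
def dFF : Lg F F F F where
  q := RingHom.id F
  i := RingHom.id F
  hi := fun _ _ h => h
  j := AddMonoidHom.id F
  hj := fun _ _ h => h

theorem tfN (n : ℕ) (x : F) (hn : 0 < n) (h : n • x = 0) : x = 0 := by
  rw [nsmul_eq_mul] at h
  exact (mul_eq_zero.1 h).resolve_left (by exact_mod_cast hn.ne')

/-- a class killed by all homomorphisms to a field of characteristic zero is torsion -/
theorem tors_of_hom {A : Type} [AddCommGroup A] (a : A) (h : ∀ χ : A →+ F, χ a = 0) :
    ∃ m : ℕ, 0 < m ∧ m • a = 0 := by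
  by_contra hc
  push Not at hc
  let f : ℤ →ₗ[ℤ] A := LinearMap.toSpanSingleton ℤ A a
  have hf : Function.Injective f := by
    rw [injective_iff_map_eq_zero]
    intro n hn
    have h1 : n • a = 0 := hn
    by_contra hn0
    apply hc n.natAbs (Int.natAbs_pos.2 hn0)
    rcases Int.natAbs_eq n with h2 | h2
    · rw [h2, natCast_zsmul] at h1
      exact h1
    · rw [h2, neg_smul, natCast_zsmul, neg_eq_zero] at h1
      exact h1
  let _ : DivisibleBy F ℤ := divisibleByIntOfCharZero
  have hinj : Module.Injective ℤ F := (Module.Baer.of_divisible F).injective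
  obtain ⟨g, hg⟩ := hinj.out f hf (LinearMap.toSpanSingleton ℤ F (1 : F))
  have h1 := h g.toAddMonoidHom
  have h2 := hg 1
  have h3 : f 1 = a := one_smul ℤ a
  rw [h3] at h2
  have h4 : g a = 0 := h1
  rw [h4, LinearMap.toSpanSingleton_apply, one_smul] at h2
  exact zero_ne_one h2

theorem dvF_tors {y : ZK F G} (hy : y ∈ DvG F G F) : ∃ l : ℕ, 0 < l ∧ l • y = 0 := by
  unfold DvG at hy
  induction hy using AddSubgroup.closure_induction with
  | mem y hy =>
    obtain ⟨H, z, x, hH, hz, rfl⟩ := hy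
    obtain ⟨m, hm, h⟩ := tors_of_hom (F := F) (A := Additive (Abelianization (Cz H.1)))
      (Additive.ofMul (Abelianization.of z)) (by
        intro χ
        have h1 := hz ((AddMonoidHom.toMultiplicativeRight χ).comp Abelianization.of)
        exact congrArg Multiplicative.toAdd h1)
    refine ⟨m, hm, ?_⟩
    rw [← ZK.of_pow]
    have h0 : Abelianization.of (z ^ m) = 1 := by
      rw [map_pow]
      exact congrArg Additive.toMul h
    have h3 : z ^ m ∈ commutator (Cz H.1) := by
      rw [← Abelianization.ker_of, MonoidHom.mem_ker]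
      exact h0
    have h1 : ZK.zhom H x (z ^ m) = 1 := by
      have h2 : commutator (Cz H.1) ≤ (ZK.zhom (k := F) H x).ker :=
        Abelianization.commutator_subset_ker _
      exact h2 h3
    exact congrArg Multiplicative.toAdd h1
  | zero => exact ⟨1, one_pos, smul_zero _⟩
  | add x y _ _ hx hy =>
    obtain ⟨m, hm, hx⟩ := hx
    obtain ⟨n, hn, hy⟩ := hy
    refine ⟨m * n, Nat.mul_pos hm hn, ?_⟩
    rw [smul_add, mul_comm, mul_smul, hx, smul_zero, mul_comm, mul_smul, hy, smul_zero, add_zero]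
  | neg x _ hx =>
    obtain ⟨m, hm, hx⟩ := hx
    exact ⟨m, hm, by rw [smul_neg, hx, neg_zero]⟩

theorem Dn_colim (f : G → G → F) (hf : ∀ x y z, f (x * y) z - f x (y * z) + f (z * x) y = 0)
    (x : K1Colim F G) : Dn f hf (K1assembly F G x) = 0 := by
  induction x using Colim.induction with
  | h0 => rw [map_zero, map_zero]
  | hadd x y hx hy => rw [map_add, map_add, hx, hy, add_zero]
  | hneg x hx => rw [map_neg, map_neg, hx, neg_zero]
  | hι H x =>
    have : Finite H.1 := H.2
    rw [K1assembly_ι]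
    exact Dn_fin f hf tfN H.1.subtype x

theorem ZObj.dn_val (X : ZObj F G) {c : G} {χ : G → F} (hχ : AddOnC c χ) :
    Dn (cocf c χ) (cocf_coc hχ) (btG F G (X.val (dFF F) tfF)) =
      X.trc (dFF F) c (fun g => (dFF F).j (χ g)) := by
  classical
  have := Fintype.ofFinite X.C
  show Dn (cocf c χ) (cocf_coc hχ)
    (btG F G (sz F X.φ X.z X.hz (gq (dFF F) X.C (kap (ma_tf tfF) X.u)))) =
    tau (dFF F) c (fun g => (dFF F).j (χ g)) X.φ X.z X.u
  rw [btG_sz, Dn_nz, tau_eq]
  refine Finset.sum_congr rfl fun y _ => ?_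
  rw [smul_eq_mul]
  congr 1
  have h1 : (gq (dFF F) X.C (kap (ma_tf tfF) X.u) : GK0 F X.C) = kap (ma_tf tfF) X.u :=
    gq_id _
  rw [h1, bb_kap tfF]
  rfl

/-- **Theorem.** -/
theorem main_one (x : K1Colim F G) (ξ : ZK F G) (n : ℕ) (hn : 0 < n)
    (h : n • (K1assembly F G x + btG F G ξ) = 0) :
    ∃ l : ℕ, 0 < l ∧ l • x = 0 ∧ l • ξ = 0 := by
  obtain ⟨m, hm, N, X, hX⟩ := ZK_mem ξ
  have h0 : ∀ c : G, 0 < orderOf c → ∀ χ : G → F, AddOnC c χ →
      ∑ i, (X i).trc (dFF F) c (fun g => (dFF F).j (χ g)) = 0 := by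
    intro c _ χ hχ
    have h1 := congrArg (Dn (cocf c χ) (cocf_coc hχ)) h
    rw [map_nsmul, map_add, Dn_colim, zero_add, map_zero] at h1
    have h2 := tfN _ _ hn h1
    have h3 : Dn (cocf c χ) (cocf_coc hχ) (btG F G (m • ξ)) = 0 := by
      rw [map_nsmul, map_nsmul, h2, smul_zero]
    rw [hX, map_sum, map_sum] at h3
    rw [← h3]
    exact Finset.sum_congr rfl fun i _ => ((X i).dn_val hχ).symm
  obtain ⟨l, hl, h2⟩ := global_dv (dFF F) tfF Finset.univ X h0
  obtain ⟨l', hl', h3⟩ := dvF_tors h2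
  have h4 : (l' * (l * m)) • ξ = 0 := by
    have h5 : ∑ i, (X i).val (dFF F) tfF = ∑ i, (X i).val (dF F) tfF := rfl
    rw [mul_smul, mul_smul, hX, ← h5, h3]
  have h6 : 0 < l' * (l * m) := Nat.mul_pos hl' (Nat.mul_pos hl hm)
  have h7 : (n * (l' * (l * m))) • K1assembly F G x = 0 := by
    have h8 : (l' * (l * m)) • (n • (K1assembly F G x + btG F G ξ)) = 0 := by rw [h, smul_zero]
    rw [smul_add, smul_add, ← mul_smul, ← mul_smul] at h8
    have h9 : (l' * (l * m) * n) • btG F G ξ = 0 := by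
      rw [← map_nsmul, mul_comm (l' * (l * m)) n, mul_smul, h4, smul_zero, map_zero]
    rw [h9, add_zero, mul_comm] at h8
    exact h8
  obtain ⟨l2, hl2, h10⟩ := Pool.Agent.Y69.TK.KMain.main_field (G := G) F x
    (n * (l' * (l * m))) (Nat.mul_pos hn h6) h7
  refine ⟨l2 * (l' * (l * m)), Nat.mul_pos hl2 h6, ?_, ?_⟩
  · rw [mul_comm, mul_smul, h10, smul_zero]
  · rw [mul_smul, h4, smul_zero]

/-- the invertible matrix of a symbol -/
def twU (k : Type) [CommRing k] (H : FinSub G) (z : Cz H.1) {n : ℕ}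
    (e : IdMat (MonoidAlgebra k H.1) n) : (Matrix (Fin n) (Fin n) (MonoidAlgebra k G))ˣ :=
  tw ((e : Matrix (Fin n) (Fin n) (MonoidAlgebra k H.1)).map
    (mapDomainRingHom k H.1.subtype)) (map_idem _ e.2) (gu k (z : G))
    (cm _ _ (gu_comm H.1.subtype (z : G) (fin_comm G H z)) _)

theorem btG_mk (k : Type) [CommRing k] (H : FinSub G) (z : Cz H.1) (n : ℕ)
    (e : IdMat (MonoidAlgebra k H.1) n) :
    btG k G (ZK.of H z (K0.mk e : K0 (MonoidAlgebra k H.1))) = K1.mk (twU k H z e) := by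
  unfold twU
  rw [btG_of, ← cl_fin]
  exact nu_mk _ _ _ e

end

end Pool.Agent.T9h42.Q
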