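import Pool.Agent.T9h42.DP.Cmb
import Pool.Agent.T9h42.GZ.Gal

/-!
# Traces for homomorphisms on centralizers
-/

set_option linter.unusedSectionVars false

namespace Pool.Agent.T9h42.Q

open MonoidAlgebra H970SH H842 Pool.Agent.Y69 Pool.Agent.Y778.NK Pool.Agent.T9h42

noncomputable section

section sel

variable {G : Type} [Group G]

/-- a selection of conjugating elements -/
def IsSel (c : G) (σ : G → G) : Prop := ∀ u, IsConj c u → σ u * c * (σ u)⁻¹ = u

open Classical in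
/-- the cocycle of a selection -/
def cocs (c : G) (σ : G → G) (χ : G → ℤ) (x y : G) : ℤ :=
  if IsConj c (x * y) then χ ((σ (y * x))⁻¹ * y * σ (x * y)) else 0

theorem cocf_eq (c : G) (χ : G → ℤ) : cocf c χ = cocs c (sel c) χ := rfl

theorem isSel_sel (c : G) : IsSel c (sel c) := fun _ h => sel_spec h

theorem AddOnC.inv {c : G} {χ : G → ℤ} (hχ : AddOnC c χ) {a : G} (ha : a * c = c * a) :
    χ a⁻¹ = -χ a := by
  have ha' : a⁻¹ * c = c * a⁻¹ := by
    calc a⁻¹ * c = a⁻¹ * (c * a) * a⁻¹ := by group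
      _ = c * a⁻¹ := by rw [← ha]; group
  have h := hχ a a⁻¹ ha ha'
  rw [mul_inv_cancel, Pool.Agent.T9h42.AddOnC.one hχ] at h
  omega

theorem sel_cent {c : G} {σ τ : G → G} (hσ : IsSel c σ) (hτ : IsSel c τ) {u : G}
    (hu : IsConj c u) : ((σ u)⁻¹ * τ u) * c = c * ((σ u)⁻¹ * τ u) := by
  have h1 := hσ u hu
  have h2 := hτ u hu
  have h3 : τ u * c = u * τ u := by
    calc τ u * c = (τ u * c * (τ u)⁻¹) * τ u := by group
      _ = u * τ u := by rw [h2]
  have h4 : (σ u)⁻¹ * u = c * (σ u)⁻¹ := by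
    calc (σ u)⁻¹ * u = (σ u)⁻¹ * (σ u * c * (σ u)⁻¹) := by rw [h1]
      _ = c * (σ u)⁻¹ := by group
  calc ((σ u)⁻¹ * τ u) * c = (σ u)⁻¹ * (τ u * c) := by group
    _ = ((σ u)⁻¹ * u) * τ u := by rw [h3]; group
    _ = c * ((σ u)⁻¹ * τ u) := by rw [h4]; group

theorem sel_word {c : G} {σ : G → G} (hσ : IsSel c σ) {x y : G} (h : IsConj c (x * y)) :
    ((σ (y * x))⁻¹ * y * σ (x * y)) * c = c * ((σ (y * x))⁻¹ * y * σ (x * y)) := by
  have h' : IsConj c (y * x) := h.trans (conj_swap x y)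
  have h1 := hσ _ h
  have h2 := hσ _ h'
  have h3 : σ (x * y) * c = (x * y) * σ (x * y) := by
    calc σ (x * y) * c = (σ (x * y) * c * (σ (x * y))⁻¹) * σ (x * y) := by group
      _ = (x * y) * σ (x * y) := by rw [h1]
  have h4 : (σ (y * x))⁻¹ * (y * x) = c * (σ (y * x))⁻¹ := by
    calc (σ (y * x))⁻¹ * (y * x) = (σ (y * x))⁻¹ * (σ (y * x) * c * (σ (y * x))⁻¹) := by rw [h2]
      _ = c * (σ (y * x))⁻¹ := by group
  calc ((σ (y * x))⁻¹ * y * σ (x * y)) * c = (σ (y * x))⁻¹ * y * (σ (x * y) * c) := by group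
    _ = ((σ (y * x))⁻¹ * (y * x)) * y * σ (x * y) := by rw [h3]; group
    _ = c * ((σ (y * x))⁻¹ * y * σ (x * y)) := by rw [h4]; group

open Classical in
/-- two selections give cohomologous cocycles -/
theorem cocs_diff {c : G} {σ τ : G → G} (hσ : IsSel c σ) (hτ : IsSel c τ) {χ : G → ℤ}
    (hχ : AddOnC c χ) (x y : G) : cocs c τ χ x y = cocs c σ χ x y +
      ((if IsConj c (x * y) then χ ((σ (x * y))⁻¹ * τ (x * y)) else 0) -
        (if IsConj c (y * x) then χ ((σ (y * x))⁻¹ * τ (y * x)) else 0)) := by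
  unfold cocs
  by_cases h : IsConj c (x * y)
  · have h' : IsConj c (y * x) := h.trans (conj_swap x y)
    rw [if_pos h, if_pos h, if_pos h, if_pos h']
    have a1 := sel_cent hσ hτ h
    have a2 := sel_cent hσ hτ h'
    have a3 := sel_word hσ h
    have a2' : ((σ (y * x))⁻¹ * τ (y * x))⁻¹ * c = c * ((σ (y * x))⁻¹ * τ (y * x))⁻¹ := by
      calc ((σ (y * x))⁻¹ * τ (y * x))⁻¹ * c = ((σ (y * x))⁻¹ * τ (y * x))⁻¹ *
            (c * ((σ (y * x))⁻¹ * τ (y * x))) * ((σ (y * x))⁻¹ * τ (y * x))⁻¹ := by group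
        _ = c * ((σ (y * x))⁻¹ * τ (y * x))⁻¹ := by rw [← a2]; group
    have e : (τ (y * x))⁻¹ * y * τ (x * y) = ((σ (y * x))⁻¹ * τ (y * x))⁻¹ *
        ((σ (y * x))⁻¹ * y * σ (x * y)) * ((σ (x * y))⁻¹ * τ (x * y)) := by group
    have a4 : (((σ (y * x))⁻¹ * τ (y * x))⁻¹ * ((σ (y * x))⁻¹ * y * σ (x * y))) * c =
        c * (((σ (y * x))⁻¹ * τ (y * x))⁻¹ * ((σ (y * x))⁻¹ * y * σ (x * y))) := by
      rw [mul_assoc, a3, ← mul_assoc, a2', mul_assoc]
    rw [e, hχ _ _ a4 a1, hχ _ _ a2' a3, AddOnC.inv hχ a2]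
    ring
  · have h' : ¬ IsConj c (y * x) := fun h2 => h (h2.trans (conj_swap y x))
    rw [if_neg h, if_neg h, if_neg h, if_neg h']
    ring

end sel

section tr

variable {G : Type} [Group G] {R : Type} [CommRing R] {ι : Type} [Fintype ι] [DecidableEq ι]
  {A B : Matrix ι ι (MonoidAlgebra R G)}

theorem prg_sel {c : G} {σ τ : G → G} (hσ : IsSel c σ) (hτ : IsSel c τ) {χ : G → ℤ}
    (hχ : AddOnC c χ) (hAB : A * B = 1) (hBA : B * A = 1) :
    prg (fun x y => ((cocs c τ χ x y : ℤ) : R)) B A =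
      prg (fun x y => ((cocs c σ χ x y : ℤ) : R)) B A := by
  classical
  rw [prg_eq _ B A (spt A ∪ spt B) Finset.subset_union_left Finset.subset_union_right,
    prg_eq _ B A (spt A ∪ spt B) Finset.subset_union_left Finset.subset_union_right]
  let H : G → R := fun u => (((if IsConj c u then χ ((σ u)⁻¹ * τ u) else 0 : ℤ)) : R)
  have h1 := sum_src1 (inv1_of A B hBA _ (Finset.subset_union_left (s₂ := spt B))
    Finset.subset_union_right) H
  have h2 := sum_tgt1 (inv1_of B A hAB _ (Finset.subset_union_right (s₁ := spt A))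
    Finset.subset_union_left) H
  have h3 : ∀ d : ↥(spt A ∪ spt B) × ↥(spt A ∪ spt B), (cf B ↑d.1 * cf A ↑d.2).trace •
      ((cocs c τ χ ↑d.1 ↑d.2 : ℤ) : R) = (cf B ↑d.1 * cf A ↑d.2).trace •
      ((cocs c σ χ ↑d.1 ↑d.2 : ℤ) : R) + ((cf B ↑d.1 * cf A ↑d.2).trace • H (↑d.1 * ↑d.2) -
        (cf B ↑d.1 * cf A ↑d.2).trace • H (↑d.2 * ↑d.1)) := by
    intro d
    rw [cocs_diff hσ hτ hχ, Int.cast_add, Int.cast_sub, smul_add, smul_sub]
  rw [Finset.sum_congr rfl fun d _ => h3 d, Finset.sum_add_distrib, Finset.sum_sub_distrib, h1, h2,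
    sub_self, add_zero]

theorem castOn {c : G} {χ : G → ℤ} (hχ : AddOnC c χ) : AddOnC c (fun g => ((χ g : ℤ) : R)) := by
  intro a b ha hb
  show ((χ (a * b) : ℤ) : R) = (χ a : R) + (χ b : R)
  rw [hχ a b ha hb, Int.cast_add]

theorem cast_cocf (c : G) (χ : G → ℤ) : (fun x y => ((cocf c χ x y : ℤ) : R)) =
    cocf c (fun g => ((χ g : ℤ) : R)) := by
  funext x y
  unfold cocf
  split_ifs
  · rfl
  · exact Int.cast_zero

variable (R) in
/-- the trace of a homomorphism on a centralizer -/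
def Tr {c : G} {χ : G → ℤ} (hχ : AddOnC c χ) : K1 (MonoidAlgebra R G) →+ R :=
  Dn (cocf c (fun g => ((χ g : ℤ) : R))) (cocf_coc (castOn hχ))

theorem Tr_cl {c : G} {χ : G → ℤ} (hχ : AddOnC c χ) {n : ℕ}
    (A : (Matrix (Fin n) (Fin n) (MonoidAlgebra R G))ˣ) :
    Tr R hχ (cl A) = prg (fun x y => ((cocf c χ x y : ℤ) : R)) (A⁻¹).val A.val := by
  unfold Tr
  rw [Dn_cl, cast_cocf, prg_prm]

/-- conjugation -/
theorem Tr_conj {c h : G} {χ χ' : G → ℤ} (hχ : AddOnC c χ) (hχ' : AddOnC h χ') (s : G)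
    (hs : h = s * c * s⁻¹) (hxx : ∀ y, χ' y = χ (s⁻¹ * y * s)) (x : K1 (MonoidAlgebra R G)) :
    Tr R hχ' x = Tr R hχ x := by
  obtain ⟨n, A, rfl⟩ := K1_exists x
  rw [Tr_cl, Tr_cl]
  have hσ : IsSel c (fun u => sel h u * s) := by
    intro u hu
    have h1 : IsConj h u := by
      rw [hs]
      exact (isConj_iff.2 ⟨s, rfl⟩ : IsConj c (s * c * s⁻¹)).symm.trans hu
    have h2 := sel_spec h1
    show sel h u * s * c * (sel h u * s)⁻¹ = u
    calc sel h u * s * c * (sel h u * s)⁻¹ = sel h u * (s * c * s⁻¹) * (sel h u)⁻¹ := by group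
      _ = u := by rw [← hs, h2]
  have h1 : cocf h χ' = cocs c (fun u => sel h u * s) χ := by
    funext x y
    unfold cocf cocs
    have h2 : IsConj h (x * y) ↔ IsConj c (x * y) := by
      have h3 : IsConj c h := by rw [hs]; exact isConj_iff.2 ⟨s, rfl⟩
      exact ⟨fun h4 => h3.trans h4, fun h4 => h3.symm.trans h4⟩
    by_cases h3 : IsConj c (x * y)
    · rw [if_pos (h2.2 h3), if_pos h3, hxx]
      congr 1
      group
    · rw [if_neg fun h4 => h3 (h2.1 h4), if_neg h3]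
  rw [h1, cocf_eq]
  exact prg_sel (isSel_sel c) hσ hχ A.mul_inv A.inv_mul

/-- generators of the same subgroup -/
theorem Tr_pow {g h : G} {χ : G → ℤ} (hg : 0 < orderOf g) (hχ : AddOnC g χ) (hχ' : AddOnC h χ)
    (hz : Subgroup.zpowers g = Subgroup.zpowers h) (x : K1 (MonoidAlgebra ℚ G)) :
    Tr ℚ hχ' x = Tr ℚ hχ x := by
  obtain ⟨n, A, rfl⟩ := K1_exists x
  rw [Tr_cl, Tr_cl]
  have hfg : IsOfFinOrder g := orderOf_pos_iff.1 hg
  have hoh : orderOf h = orderOf g := by rw [← Nat.card_zpowers, ← Nat.card_zpowers, hz]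
  have hfh : IsOfFinOrder h := orderOf_pos_iff.1 (by rw [hoh]; exact hg)
  have hg1 : g ∈ Subgroup.zpowers h := by rw [← hz]; exact Subgroup.mem_zpowers g
  have hh1 : h ∈ Subgroup.zpowers g := by rw [hz]; exact Subgroup.mem_zpowers h
  obtain ⟨s, hs⟩ := (hfh.mem_powers_iff_mem_zpowers).2 hg1
  obtain ⟨k, hk⟩ := (hfg.mem_powers_iff_mem_zpowers).2 hh1
  have hs' : h ^ s = g := hs
  have hk' : g ^ k = h := hk
  have hcop : s.Coprime (orderOf g) := by
    have h1 : orderOf (h ^ s) = orderOf h := by rw [hs', hoh]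
    rw [IsOfFinOrder.orderOf_pow h s hfh, hoh] at h1
    have h3 : (orderOf g).gcd s = 1 := by
      have h4 := Nat.div_mul_cancel (Nat.gcd_dvd_left (orderOf g) s)
      rw [h1] at h4
      have h5 : orderOf g * ((orderOf g).gcd s) = orderOf g * 1 := by rw [h4, mul_one]
      exact Nat.eq_of_mul_eq_mul_left hg h5
    rw [Nat.Coprime, Nat.gcd_comm]
    exact h3
  have h0 := gal_prg (m := orderOf g) (s := s) hg hcop (cocf g χ) (cocf_coc hχ) (by
    intro x y hxy
    unfold cocf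
    rw [if_neg]
    intro h1
    apply hxy
    obtain ⟨t, ht⟩ := isConj_iff.1 h1
    rw [← ht, conj_pow, pow_orderOf_eq_one]
    group) A.mul_inv A.inv_mul
  rw [h0]
  have hσ : IsSel h (fun u => sel g (u ^ s)) := by
    intro u hu
    obtain ⟨t, ht⟩ := isConj_iff.1 hu
    have h1 : IsConj g (u ^ s) := by
      rw [← ht, conj_pow, hs']
      exact isConj_iff.2 ⟨t, rfl⟩
    have h2 := sel_spec h1
    have h3 : (u ^ s) ^ k = u := by
      rw [← ht, conj_pow, conj_pow, hs', hk']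
    show sel g (u ^ s) * h * (sel g (u ^ s))⁻¹ = u
    have h4 := congrArg (fun z => z ^ k) h2
    simp only [conj_pow] at h4
    rw [hk', h3] at h4
    exact h4
  have h1 : fs (cocf g χ) (orderOf g) s = cocs h (fun u => sel g (u ^ s)) χ := by
    funext x y
    unfold fs ar cocf cocs
    have e1 : (x * y) ^ s * y⁻¹ * y = (x * y) ^ s := by group
    have e2 : y * ((x * y) ^ s * y⁻¹) = (y * x) ^ s := by
      have : y * x = y * (x * y) * y⁻¹ := by group
      rw [this, conj_pow, mul_assoc]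
    rw [e1, e2]
    by_cases h3 : IsConj h (x * y)
    · obtain ⟨t, ht⟩ := isConj_iff.1 h3
      have h4 : (x * y) ^ orderOf g = 1 := by
        rw [← ht, conj_pow, ← hoh, pow_orderOf_eq_one]
        group
      have h5 : IsConj g ((x * y) ^ s) := by
        rw [← ht, conj_pow, hs']
        exact isConj_iff.2 ⟨t, rfl⟩
      rw [if_pos h4, if_pos h5, if_pos h3]
    · rw [if_neg h3]
      by_cases h4 : (x * y) ^ orderOf g = 1
      · rw [if_pos h4, if_neg]
        intro h5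
        apply h3
        obtain ⟨t, ht⟩ := isConj_iff.1 h5
        have h6 : ((x * y) ^ s) ^ k = x * y := by
          have h7 : s * k ≡ 1 [MOD orderOf g] := by
            have h8 : h ^ (s * k) = h ^ 1 := by rw [pow_mul, hs', hk', pow_one]
            have h9 := pow_eq_pow_iff_modEq.1 h8
            rwa [hoh] at h9
          rw [← pow_mul]
          have h10 := pow_eq_pow_of_modEq h7 h4
          rwa [pow_one] at h10
        rw [← h6, ← ht, conj_pow, hk']
        exact isConj_iff.2 ⟨t, rfl⟩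
      · rw [if_neg h4]
  rw [h1, cocf_eq]
  exact (prg_sel hσ (isSel_sel h) hχ' A.mul_inv A.inv_mul)

/-- change of rings -/
theorem Tr_map {S : Type} [CommRing S] (θ : R →+* S) {c : G} {χ : G → ℤ} (hχ : AddOnC c χ)
    (x : K1 (MonoidAlgebra R G)) : Tr S hχ (K1map (mapRingHom G θ) x) = θ (Tr R hχ x) := by
  obtain ⟨n, A, rfl⟩ := K1_exists x
  rw [K1map_cl, Tr_cl, Tr_cl, ← prg_map]
  have h1 : (fun x y => ((cocf c χ x y : ℤ) : S)) =
      fun x y => θ (((cocf c χ x y : ℤ) : R)) := by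
    funext x y
    rw [map_intCast]
  rw [h1]
  rfl

/-- vanishing at `p`-singular elements -/
theorem Tr_sing {p : ℕ} [hp : Fact p.Prime] {c : G} {χ : G → ℤ} (hχ : AddOnC c χ)
    (hc : 0 < orderOf c) (hpc : p ∣ orderOf c) (x : K1 (MonoidAlgebra ℤ_[p] G)) :
    Tr ℤ_[p] hχ x = 0 := by
  refine Dn_sing (p := p) _ _ padic_tf hp.out padic_sep ?_ x
  intro x y hxy
  unfold cocf
  rw [if_neg]
  intro h
  apply hxy
  obtain ⟨t, ht⟩ := isConj_iff.1 h
  have : orderOf (t * c * t⁻¹) = orderOf c := (MulAut.conj t).orderOf_eq c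
  rw [← ht, this]
  exact ⟨hc, hpc⟩

end tr

end

end Pool.Agent.T9h42.Q
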